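import Mathlib

/-!
Bogolyubov's lemma for syndetic subsets of the countable vector space `ℕ →₀ ZMod 2`:
`U + U + U + U` contains the common kernel of finitely many linear functionals.
-/

set_option autoImplicit false
set_option linter.unusedSectionVars false
set_option linter.unusedVariables false

namespace Pool.Agent.Helper46

open Finset

/-- The sign character of `ZMod 2`. -/
def sgn (a : ZMod 2) : ℤ := if a = 0 then 1 else -1

theorem sgn_add (a b : ZMod 2) : sgn (a + b) = sgn a * sgn b := by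
  revert a b; decide

theorem sgn_sq (a : ZMod 2) : sgn a * sgn a = 1 := by
  revert a; decide

section Finite

variable {n : ℕ}

def ch (l x : Fin n → ZMod 2) : ℤ := sgn (∑ i, l i * x i)

theorem ch_add (l x y : Fin n → ZMod 2) : ch l (x + y) = ch l x * ch l y := by
  unfold ch
  rw [← sgn_add, ← Finset.sum_add_distrib]
  congr 1
  apply Finset.sum_congr rfl
  intro i _
  simp [mul_add]

theorem ch_add_left (l l' x : Fin n → ZMod 2) : ch (l + l') x = ch l x * ch l' x := by
  unfold ch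
  rw [← sgn_add, ← Finset.sum_add_distrib]
  congr 1
  apply Finset.sum_congr rfl
  intro i _
  simp [add_mul]

theorem ch_zero (l : Fin n → ZMod 2) : ch l 0 = 1 := by
  simp [ch, sgn]

theorem sum_ch_ne {x : Fin n → ZMod 2} (hx : x ≠ 0) : ∑ l : Fin n → ZMod 2, ch l x = 0 := by
  obtain ⟨i, hi⟩ : ∃ i, x i ≠ 0 := by
    by_contra h
    push Not at h
    exact hx (funext h)
  obtain ⟨e, hflip⟩ : ∃ e : Fin n → ZMod 2, ch e x = -1 := by
    refine ⟨Pi.single i 1, ?_⟩
    unfold ch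
    have : ∑ j, (Pi.single i (1 : ZMod 2) : Fin n → ZMod 2) j * x j = x i := by
      rw [Finset.sum_eq_single i]
      · simp
      · intro j _ hj
        rw [Pi.single_eq_of_ne hj, zero_mul]
      · intro h
        exact absurd (Finset.mem_univ i) h
    rw [this]
    unfold sgn
    rw [if_neg hi]
  have h1 : ∑ l : Fin n → ZMod 2, ch (l + e) x = ∑ l : Fin n → ZMod 2, ch l x :=
    Fintype.sum_equiv (Equiv.addRight e) (fun l => ch (l + e) x) (fun l => ch l x)
      (fun l => by rw [Equiv.coe_addRight])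
  have h2 : ∑ l : Fin n → ZMod 2, ch (l + e) x = - ∑ l : Fin n → ZMod 2, ch l x := by
    rw [← Finset.sum_neg_distrib]
    apply Finset.sum_congr rfl
    intro l _
    rw [ch_add_left, hflip]
    ring
  rw [h1] at h2
  linarith

theorem sum_ch_zero : ∑ l : Fin n → ZMod 2, ch l 0 = 2 ^ n := by
  simp [ch_zero, ZMod.card]

/-- The Fourier coefficient. -/
def hat (A : Finset (Fin n → ZMod 2)) (l : Fin n → ZMod 2) : ℤ := ∑ a ∈ A, ch l a

theorem hat_sq (A : Finset (Fin n → ZMod 2)) (l : Fin n → ZMod 2) :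
    hat A l ^ 2 = ∑ p ∈ A ×ˢ A, ch l (p.1 + p.2) := by
  unfold hat
  rw [sq, Finset.sum_mul_sum, Finset.sum_product]
  apply Finset.sum_congr rfl
  intro a _
  apply Finset.sum_congr rfl
  intro b _
  rw [ch_add]

theorem hat_four (A : Finset (Fin n → ZMod 2)) (l : Fin n → ZMod 2) :
    hat A l ^ 4 = ∑ p ∈ A ×ˢ A, ∑ p' ∈ A ×ˢ A, ch l ((p.1 + p.2) + (p'.1 + p'.2)) := by
  have : hat A l ^ 4 = (hat A l ^ 2) * (hat A l ^ 2) := by ring
  rw [this, hat_sq, Finset.sum_mul_sum]
  apply Finset.sum_congr rfl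
  intro a _
  apply Finset.sum_congr rfl
  intro b _
  rw [← ch_add]

theorem add_self_zmod2 (x : Fin n → ZMod 2) : x + x = 0 := by
  funext i
  simp only [Pi.add_apply, Pi.zero_apply]
  generalize x i = a
  revert a
  decide

theorem parseval (A : Finset (Fin n → ZMod 2)) :
    ∑ l : Fin n → ZMod 2, hat A l ^ 2 = 2 ^ n * A.card := by
  have h1 : ∑ l : Fin n → ZMod 2, hat A l ^ 2 =
      ∑ p ∈ A ×ˢ A, ∑ l : Fin n → ZMod 2, ch l (p.1 + p.2) := by
    simp only [hat_sq]
    rw [Finset.sum_comm]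
  have h2 : ∀ p : (Fin n → ZMod 2) × (Fin n → ZMod 2),
      ∑ l : Fin n → ZMod 2, ch l (p.1 + p.2) = if p.1 = p.2 then 2 ^ n else 0 := by
    intro p
    split_ifs with h
    · rw [h, add_self_zmod2, sum_ch_zero]
    · apply sum_ch_ne
      intro h2
      apply h
      have h3 : p.1 = (p.1 + p.2) + p.2 := by
        rw [add_assoc, add_self_zmod2, add_zero]
      rw [h3, h2, zero_add]
  rw [h1]
  simp only [h2]
  rw [Finset.sum_product]
  simp only
  have h3 : ∀ a ∈ A, ∑ b ∈ A, (if a = b then (2 : ℤ) ^ n else 0) = 2 ^ n := by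
    intro a ha
    rw [Finset.sum_ite_eq, if_pos ha]
  rw [Finset.sum_congr rfl h3, Finset.sum_const]
  simp [mul_comm]

theorem hat_zero (A : Finset (Fin n → ZMod 2)) : hat A 0 = A.card := by
  unfold hat
  have : ∀ a ∈ A, ch 0 a = 1 := by
    intro a _
    simp [ch, sgn]
  rw [Finset.sum_congr rfl this]
  simp

theorem finite_bogolyubov (A : Finset (Fin n → ZMod 2)) (r : ℕ) (hA : A.Nonempty)
    (hr : 2 ^ n ≤ r * A.card) : ∃ Λ : Finset (Fin n → ZMod 2), Λ.card ≤ r ^ 2 ∧
      ∀ x : Fin n → ZMod 2, (∀ l ∈ Λ, ∑ i, l i * x i = 0) →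
        ∃ a ∈ A, ∃ b ∈ A, ∃ c ∈ A, ∃ d ∈ A, x = (a + b) + (c + d) := by
  classical
  set K : ℤ := (A.card : ℤ) with hK
  have hKpos : 0 < K := by
    have := hA.card_pos
    omega
  have hKle : K ≤ 2 ^ n := by
    have h1 : A.card ≤ Fintype.card (Fin n → ZMod 2) := Finset.card_le_univ A
    have h2 : Fintype.card (Fin n → ZMod 2) = 2 ^ n := by simp [ZMod.card]
    rw [h2] at h1
    rw [hK]
    exact_mod_cast h1
  have hpn : (0 : ℤ) < 2 ^ n := by positivity
  set Λ : Finset (Fin n → ZMod 2) := Finset.univ.filter (fun l => K ^ 3 ≤ 2 ^ n * hat A l ^ 2)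
    with hΛ
  have h0 : (0 : Fin n → ZMod 2) ∈ Λ := by
    rw [hΛ, Finset.mem_filter]
    refine ⟨Finset.mem_univ _, ?_⟩
    rw [hat_zero, ← hK]
    nlinarith [sq_nonneg K, mul_pos hKpos hKpos]
  have hpars := parseval A
  rw [← hK] at hpars
  refine ⟨Λ, ?_, ?_⟩
  · -- cardinality
    have h1 : (Λ.card : ℤ) * K ^ 3 ≤ 2 ^ n * (2 ^ n * K) := by
      calc (Λ.card : ℤ) * K ^ 3 = ∑ l ∈ Λ, K ^ 3 := by simp
        _ ≤ ∑ l ∈ Λ, 2 ^ n * hat A l ^ 2 := by
            apply Finset.sum_le_sum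
            intro l hl
            exact (Finset.mem_filter.1 hl).2
        _ ≤ ∑ l : Fin n → ZMod 2, 2 ^ n * hat A l ^ 2 := by
            apply Finset.sum_le_sum_of_subset_of_nonneg (Finset.subset_univ _)
            intro l _ _
            positivity
        _ = 2 ^ n * (2 ^ n * K) := by rw [← Finset.mul_sum, hpars]
    have hrK : (2 : ℤ) ^ n ≤ r * K := by
      rw [hK]
      exact_mod_cast hr
    have h2 : (Λ.card : ℤ) * K ^ 3 ≤ (r : ℤ) ^ 2 * K ^ 3 := by
      calc (Λ.card : ℤ) * K ^ 3 ≤ 2 ^ n * (2 ^ n * K) := h1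
        _ ≤ (r * K) * ((r * K) * K) := by
            apply mul_le_mul hrK _ (by positivity) (by positivity)
            exact mul_le_mul_of_nonneg_right hrK hKpos.le
        _ = (r : ℤ) ^ 2 * K ^ 3 := by ring
    have h3 : (Λ.card : ℤ) ≤ (r : ℤ) ^ 2 := le_of_mul_le_mul_right h2 (by positivity)
    exact_mod_cast h3
  · intro x hx
    by_contra hcon
    push Not at hcon
    -- the fourfold convolution vanishes at `x`
    have hz : ∑ l : Fin n → ZMod 2, hat A l ^ 4 * ch l x = 0 := by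
      have h1 : ∑ l : Fin n → ZMod 2, hat A l ^ 4 * ch l x =
          ∑ p ∈ A ×ˢ A, ∑ p' ∈ A ×ˢ A, ∑ l : Fin n → ZMod 2,
            ch l (((p.1 + p.2) + (p'.1 + p'.2)) + x) := by
        simp only [hat_four, Finset.sum_mul]
        rw [Finset.sum_comm]
        apply Finset.sum_congr rfl
        intro p _
        rw [Finset.sum_comm]
        apply Finset.sum_congr rfl
        intro p' _
        apply Finset.sum_congr rfl
        intro l _
        rw [ch_add l _ x]
      rw [h1]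
      apply Finset.sum_eq_zero
      intro p hp
      apply Finset.sum_eq_zero
      intro p' hp'
      apply sum_ch_ne
      intro h
      rw [Finset.mem_product] at hp hp'
      apply hcon p.1 hp.1 p.2 hp.2 p'.1 hp'.1 p'.2 hp'.2
      have h3 : x = ((p.1 + p.2) + (p'.1 + p'.2) + x) + ((p.1 + p.2) + (p'.1 + p'.2)) := by
        have := add_self_zmod2 ((p.1 + p.2) + (p'.1 + p'.2))
        rw [add_assoc, add_comm x, ← add_assoc, this, zero_add]
      rw [h3, h, zero_add]
    have hch : ∀ l ∈ Λ, ch l x = 1 := by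
      intro l hl
      unfold ch
      rw [hx l hl]
      simp [sgn]
    have hchge : ∀ l, -1 ≤ ch l x := by
      intro l
      unfold ch sgn
      split_ifs <;> norm_num
    have hsplit : ∑ l : Fin n → ZMod 2, hat A l ^ 4 * ch l x =
        ∑ l ∈ Λ, hat A l ^ 4 * ch l x + ∑ l ∈ Λᶜ, hat A l ^ 4 * ch l x :=
      (Finset.sum_add_sum_compl Λ _).symm
    have hA1 : K ^ 4 ≤ ∑ l ∈ Λ, hat A l ^ 4 * ch l x := by
      calc K ^ 4 = hat A 0 ^ 4 * ch 0 x := by
            rw [hat_zero, hch 0 h0, ← hK, mul_one]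
        _ ≤ ∑ l ∈ Λ, hat A l ^ 4 * ch l x := by
            apply Finset.single_le_sum (f := fun l => hat A l ^ 4 * ch l x) _ h0
            intro l hl
            simp only [hch l hl, mul_one]
            positivity
    have hA2 : - ∑ l ∈ Λᶜ, hat A l ^ 4 ≤ ∑ l ∈ Λᶜ, hat A l ^ 4 * ch l x := by
      rw [← Finset.sum_neg_distrib]
      apply Finset.sum_le_sum
      intro l _
      have h1 : 0 ≤ hat A l ^ 4 := by positivity
      nlinarith [hchge l]
    have hA3 : 2 ^ n * ∑ l ∈ Λᶜ, hat A l ^ 4 ≤ K ^ 3 * ∑ l ∈ Λᶜ, hat A l ^ 2 := by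
      rw [Finset.mul_sum, Finset.mul_sum]
      apply Finset.sum_le_sum
      intro l hl
      have h1 : 2 ^ n * hat A l ^ 2 ≤ K ^ 3 := by
        have h2 : l ∉ Λ := Finset.mem_compl.1 hl
        rw [hΛ, Finset.mem_filter] at h2
        push Not at h2
        exact (h2 (Finset.mem_univ _)).le
      calc 2 ^ n * hat A l ^ 4 = (2 ^ n * hat A l ^ 2) * hat A l ^ 2 := by ring
        _ ≤ K ^ 3 * hat A l ^ 2 := mul_le_mul_of_nonneg_right h1 (sq_nonneg _)
    have hA4 : ∑ l ∈ Λᶜ, hat A l ^ 2 ≤ 2 ^ n * K - K ^ 2 := by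
      have h1 : ∑ l ∈ Λ, hat A l ^ 2 + ∑ l ∈ Λᶜ, hat A l ^ 2 = 2 ^ n * K := by
        rw [Finset.sum_add_sum_compl, hpars]
      have h2 : K ^ 2 ≤ ∑ l ∈ Λ, hat A l ^ 2 := by
        calc K ^ 2 = hat A 0 ^ 2 := by rw [hat_zero]
          _ ≤ _ := Finset.single_le_sum (f := fun l => hat A l ^ 2)
              (fun l _ => sq_nonneg _) h0
      linarith
    have hfin : 2 ^ n * K ^ 4 ≤ K ^ 3 * (2 ^ n * K - K ^ 2) := by
      have h1 : K ^ 4 ≤ ∑ l ∈ Λᶜ, hat A l ^ 4 := by linarith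
      calc 2 ^ n * K ^ 4 ≤ 2 ^ n * ∑ l ∈ Λᶜ, hat A l ^ 4 :=
            mul_le_mul_of_nonneg_left h1 hpn.le
        _ ≤ K ^ 3 * ∑ l ∈ Λᶜ, hat A l ^ 2 := hA3
        _ ≤ K ^ 3 * (2 ^ n * K - K ^ 2) := mul_le_mul_of_nonneg_left hA4 (by positivity)
    have h5 : 0 < K ^ 5 := by positivity
    nlinarith

end Finite

/-- The functional with coefficients `c`. -/
noncomputable def fun2 (c : ℕ → ZMod 2) : (ℕ →₀ ZMod 2) →ₗ[ZMod 2] ZMod 2 :=
  Finsupp.linearCombination (ZMod 2) c

theorem fun2_apply (c : ℕ → ZMod 2) (b : ℕ →₀ ZMod 2) :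
    fun2 c b = ∑ j ∈ b.support, b j * c j := by
  unfold fun2
  rw [Finsupp.linearCombination_apply]
  rfl

/-- Embedding of `Fin n → ZMod 2`. -/
noncomputable def emb (n : ℕ) (x : Fin n → ZMod 2) : ℕ →₀ ZMod 2 :=
  ∑ i : Fin n, Finsupp.single (i : ℕ) (x i)

theorem emb_add (n : ℕ) (x y : Fin n → ZMod 2) : emb n (x + y) = emb n x + emb n y := by
  unfold emb
  rw [← Finset.sum_add_distrib]
  apply Finset.sum_congr rfl
  intro i _
  rw [Pi.add_apply, Finsupp.single_add]

theorem emb_apply (n : ℕ) (x : Fin n → ZMod 2) (j : Fin n) : emb n x j = x j := by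
  unfold emb
  rw [Finsupp.finsetSum_apply, Finset.sum_eq_single j]
  · simp
  · intro i _ hij
    rw [Finsupp.single_apply, if_neg]
    intro h
    exact hij (Fin.ext h)
  · intro h
    exact absurd (Finset.mem_univ j) h

theorem emb_apply_ge (n : ℕ) (x : Fin n → ZMod 2) (j : ℕ) (hj : n ≤ j) : emb n x j = 0 := by
  unfold emb
  rw [Finsupp.finsetSum_apply]
  apply Finset.sum_eq_zero
  intro i _
  rw [Finsupp.single_apply, if_neg]
  intro h
  have := i.2
  omega

theorem emb_res (n : ℕ) (b : ℕ →₀ ZMod 2) (hb : ∀ j ∈ b.support, j < n) :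
    emb n (fun i => b i) = b := by
  ext j
  by_cases hj : j < n
  · exact emb_apply n (fun i => b i) ⟨j, hj⟩
  · rw [emb_apply_ge n _ j (by omega)]
    by_contra h
    exact hj (hb j (Finsupp.mem_support_iff.2 (Ne.symm h)))

theorem bogolyubov (U : Set (ℕ →₀ ZMod 2)) (F : Finset (ℕ →₀ ZMod 2))
    (hU : ∀ b, ∃ u ∈ U, ∃ f ∈ F, b = u + f) :
    ∃ (R : ℕ) (c : Fin R → ℕ → ZMod 2), ∀ b : ℕ →₀ ZMod 2, (∀ i, fun2 (c i) b = 0) →
      ∃ u₁ ∈ U, ∃ u₂ ∈ U, ∃ u₃ ∈ U, ∃ u₄ ∈ U, b = (u₁ + u₂) + (u₃ + u₄) := by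
  classical
  -- a level containing `F`
  obtain ⟨n0, hn0⟩ : ∃ n0, ∀ f ∈ F, ∀ j ∈ f.support, j < n0 := by
    refine ⟨(F.biUnion (fun f => f.support)).sup id + 1, ?_⟩
    intro f hf j hj
    have : j ∈ F.biUnion (fun f => f.support) := Finset.mem_biUnion.2 ⟨f, hf, hj⟩
    exact Nat.lt_succ_of_le (Finset.le_sup (f := id) this)
  set R := F.card ^ 2 with hR
  -- finite stages
  have hstage : ∀ n, n0 ≤ n → ∃ c : Fin R → ℕ → ZMod 2, ∀ b : ℕ →₀ ZMod 2,
      (∀ j ∈ b.support, j < n) → (∀ i, fun2 (c i) b = 0) →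
      ∃ u₁ ∈ U, ∃ u₂ ∈ U, ∃ u₃ ∈ U, ∃ u₄ ∈ U, b = (u₁ + u₂) + (u₃ + u₄) := by
    intro n hn
    set A : Finset (Fin n → ZMod 2) := Finset.univ.filter (fun x => emb n x ∈ U) with hA
    have hcov : ∀ x : Fin n → ZMod 2, ∃ a ∈ A, ∃ f ∈ F, x = a + (fun i : Fin n => f i) := by
      intro x
      obtain ⟨u, hu, f, hf, hx⟩ := hU (emb n x)
      have hf' : emb n (fun i => f i) = f :=
        emb_res n f (fun j hj => lt_of_lt_of_le (hn0 f hf j hj) hn)
      have h2 : x = (fun i : Fin n => u i) + fun i : Fin n => f i := by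
        funext i
        rw [← emb_apply n x i, hx]
        rfl
      have h3 : emb n (fun i : Fin n => u i) = u := by
        have h4 : emb n x = emb n (fun i : Fin n => u i) + f := by
          conv_lhs => rw [h2, emb_add, hf']
        rw [h4] at hx
        exact add_right_cancel hx
      refine ⟨fun i => u i, ?_, f, hf, h2⟩
      rw [hA, Finset.mem_filter]
      exact ⟨Finset.mem_univ _, by rw [h3]; exact hu⟩
    have hne : A.Nonempty := by
      obtain ⟨a, ha, _⟩ := hcov 0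
      exact ⟨a, ha⟩
    have hcard : 2 ^ n ≤ F.card * A.card := by
      have h1 : (Finset.univ : Finset (Fin n → ZMod 2)) ⊆
          (F ×ˢ A).image (fun p => p.2 + (fun i : Fin n => p.1 i)) := by
        intro x _
        obtain ⟨a, ha, f, hf, rfl⟩ := hcov x
        exact Finset.mem_image.2 ⟨(f, a), Finset.mem_product.2 ⟨hf, ha⟩, rfl⟩
      have h2 := (Finset.card_le_card h1).trans Finset.card_image_le
      rw [Finset.card_product] at h2
      simpa [ZMod.card] using h2
    obtain ⟨Λ, hΛ, hmain⟩ := finite_bogolyubov A F.card hne hcard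
    -- enumerate `Λ` by `Fin R`
    obtain ⟨c, hc⟩ : ∃ c : Fin R → Fin n → ZMod 2, ∀ l ∈ Λ, ∃ i, c i = l := by
      have hle : Fintype.card Λ ≤ Fintype.card (Fin R) := by
        simpa using hΛ
      obtain ⟨ψ⟩ := Function.Embedding.nonempty_of_card_le hle
      refine ⟨fun i => if h : ∃ l : Λ, ψ l = i then (h.choose : Fin n → ZMod 2) else 0, ?_⟩
      intro l hl
      refine ⟨ψ ⟨l, hl⟩, ?_⟩
      have h : ∃ l' : Λ, ψ l' = ψ ⟨l, hl⟩ := ⟨_, rfl⟩
      show (if h : ∃ l' : Λ, ψ l' = ψ ⟨l, hl⟩ then (h.choose : Fin n → ZMod 2) else 0) = l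
      rw [dif_pos h]
      have := ψ.injective h.choose_spec
      rw [this]
    refine ⟨fun i => fun j => if h : j < n then c i ⟨j, h⟩ else 0, ?_⟩
    intro b hb hfun
    have hb' := emb_res n b hb
    obtain ⟨a1, h1, a2, h2, a3, h3, a4, h4, hx⟩ := hmain (fun i => b i) (by
      intro l hl
      obtain ⟨i, rfl⟩ := hc l hl
      have h5 : ∑ j ∈ b.support, b j * (if h : j < n then c i ⟨j, h⟩ else 0) = 0 := by
        have h7 := hfun i
        rw [fun2_apply] at h7
        exact h7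
      have h6 : ∑ j : Fin n, c i j * b j =
          ∑ j ∈ Finset.range n, b j * (if h : j < n then c i ⟨j, h⟩ else 0) := by
        rw [Finset.sum_range]
        apply Finset.sum_congr rfl
        intro j _
        simp [mul_comm]
      have h8 : ∑ j ∈ b.support, b j * (if h : j < n then c i ⟨j, h⟩ else 0) =
          ∑ j ∈ Finset.range n, b j * (if h : j < n then c i ⟨j, h⟩ else 0) := by
        apply Finset.sum_subset
        · intro j hj
          exact Finset.mem_range.2 (hb j hj)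
        · intro j _ hj
          rw [Finsupp.notMem_support_iff.1 hj, zero_mul]
      rw [h6, ← h8, h5])
    refine ⟨emb n a1, (Finset.mem_filter.1 h1).2, emb n a2, (Finset.mem_filter.1 h2).2,
      emb n a3, (Finset.mem_filter.1 h3).2, emb n a4, (Finset.mem_filter.1 h4).2, ?_⟩
    rw [← hb', hx, emb_add, emb_add, emb_add]
  choose! c hc using hstage
  -- a cluster point of the functionals
  obtain ⟨ℓ, hℓ⟩ := exists_clusterPt_of_compactSpace (Filter.map c Filter.atTop)
  refine ⟨R, ℓ, ?_⟩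
  intro b hb
  have hnhds : {ℓ' : Fin R → ℕ → ZMod 2 | ∀ i, ∀ j ∈ b.support, ℓ' i j = ℓ i j} ∈ nhds ℓ := by
    show ∀ᶠ ℓ' : Fin R → ℕ → ZMod 2 in nhds ℓ, ∀ i, ∀ j ∈ b.support, ℓ' i j = ℓ i j
    rw [Filter.eventually_all]
    intro i
    rw [Filter.eventually_all_finset]
    intro j _
    have hcont : Continuous (fun ℓ' : Fin R → ℕ → ZMod 2 => ℓ' i j) :=
      (continuous_apply j).comp (continuous_apply i)
    exact ((isOpen_discrete {ℓ i j}).preimage hcont).mem_nhds rfl
  have hfreq : ∃ᶠ n in Filter.atTop, c n ∈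
      {ℓ' : Fin R → ℕ → ZMod 2 | ∀ i, ∀ j ∈ b.support, ℓ' i j = ℓ i j} := by
    have := hℓ
    rw [← mapClusterPt_def] at this
    exact this.frequently hnhds
  obtain ⟨n, hn, hn2⟩ := (Filter.frequently_atTop.1 hfreq)
    (max n0 (b.support.sup id + 1))
  refine hc n ((le_max_left _ _).trans hn) b ?_ ?_
  · intro j hj
    have h1 : j ≤ b.support.sup id := Finset.le_sup (f := id) hj
    have h2 := (le_max_right n0 (b.support.sup id + 1)).trans hn
    omega
  · intro i
    rw [← hb i, fun2_apply, fun2_apply]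
    apply Finset.sum_congr rfl
    intro j hj
    rw [hn2 i j hj]

end Pool.Agent.Helper46
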