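import Mathlib

/-!
Elementary facts on reduced words of a free group: letters of an element, the letters before the
first occurrence of a given letter, the norm inequality
`|R| < max (|x R|, |x⁻¹ R|)` for `x ≠ 1`, and the unique product lemma for `P⁻¹ Q`.
-/

set_option autoImplicit false
set_option linter.unusedSectionVars false
set_option linter.unusedVariables false

namespace Pool.Agent.Helper46

open FreeGroup

section Words

variable {α β : Type*} [DecidableEq α] [DecidableEq β]

/-- Letters occurring in the reduced word of `g`. -/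
def letters (g : FreeGroup α) : Finset α := (g.toWord.map Prod.fst).toFinset

theorem mem_letters {g : FreeGroup α} {a : α} : a ∈ letters g ↔ ∃ b, (a, b) ∈ g.toWord := by
  simp [letters]

theorem letters_mk_subset (L : List (α × Bool)) {a : α} (h : a ∈ letters (FreeGroup.mk L)) :
    ∃ b, (a, b) ∈ L := by
  rw [mem_letters] at h
  obtain ⟨b, hb⟩ := h
  rw [toWord_mk] at hb
  exact ⟨b, (reduce.red (L := L)).sublist.subset hb⟩

theorem letters_mul_subset (g h : FreeGroup α) : letters (g * h) ⊆ letters g ∪ letters h := by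
  intro a ha
  rw [mem_letters] at ha
  obtain ⟨b, hb⟩ := ha
  have := (toWord_mul_sublist g h).subset hb
  rw [List.mem_append] at this
  rw [Finset.mem_union, mem_letters, mem_letters]
  rcases this with h | h
  · exact Or.inl ⟨b, h⟩
  · exact Or.inr ⟨b, h⟩

theorem mem_invRev {L : List (α × Bool)} {a : α} {b : Bool} :
    (a, b) ∈ invRev L ↔ (a, !b) ∈ L := by
  simp only [invRev, List.mem_reverse, List.mem_map, Prod.mk.injEq, Prod.exists]
  constructor
  · rintro ⟨x, y, h, rfl, rfl⟩
    simpa using h
  · intro h
    exact ⟨a, !b, h, rfl, by simp⟩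

theorem letters_inv (g : FreeGroup α) : letters g⁻¹ = letters g := by
  ext a
  rw [mem_letters, mem_letters]
  simp only [toWord_inv, mem_invRev]
  constructor
  · rintro ⟨b, h⟩; exact ⟨_, h⟩
  · rintro ⟨b, h⟩; exact ⟨!b, by simpa using h⟩

@[simp] theorem letters_one : letters (1 : FreeGroup α) = ∅ := by
  simp [letters]

@[simp] theorem letters_of (a : α) : letters (FreeGroup.of a) = {a} := by
  simp [letters]

/-- Letters of the reduced word of `g` strictly before the first occurrence of `T`. -/
def hbAt (T : α) (g : FreeGroup α) : Finset α :=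
  ((g.toWord.takeWhile (fun x => decide (x.1 ≠ T))).map Prod.fst).toFinset

theorem hbAt_subset (T : α) (g : FreeGroup α) : hbAt T g ⊆ letters g := by
  intro a ha
  simp only [hbAt, List.mem_toFinset, List.mem_map] at ha
  obtain ⟨x, hx, rfl⟩ := ha
  simp only [letters, List.mem_toFinset, List.mem_map]
  exact ⟨x, (List.takeWhile_sublist _).subset hx, rfl⟩

theorem not_mem_hbAt (T : α) (g : FreeGroup α) : T ∉ hbAt T g := by
  intro ha
  simp only [hbAt, List.mem_toFinset, List.mem_map] at ha
  obtain ⟨x, hx, h⟩ := ha
  have := List.mem_takeWhile_imp hx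
  simp at this
  exact this h

/-- Splitting a list at the first entry with first component `T`. -/
theorem exists_split {T : α} {L : List (α × Bool)} (h : ∃ b, (T, b) ∈ L) :
    ∃ (W : List (α × Bool)) (b : Bool) (R : List (α × Bool)), L = W ++ (T, b) :: R ∧
      (∀ x ∈ W, x.1 ≠ T) ∧ L.takeWhile (fun x => decide (x.1 ≠ T)) = W := by
  obtain ⟨b, hb⟩ := h
  have h1 := (List.takeWhile_append_dropWhile (p := fun x : α × Bool => decide (x.1 ≠ T)) (l := L))
  cases hd : L.dropWhile (fun x => decide (x.1 ≠ T)) with
  | nil =>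
    exfalso
    rw [List.dropWhile_eq_nil_iff] at hd
    have := hd _ hb
    simp at this
  | cons y R =>
    have hy : y.1 = T := by
      have := List.head_dropWhile_not (fun x : α × Bool => decide (x.1 ≠ T)) (l := L)
        (by rw [hd]; simp)
      simp only [hd, List.head_cons] at this
      simpa using this
    refine ⟨L.takeWhile (fun x => decide (x.1 ≠ T)), y.2, R, ?_, ?_, rfl⟩
    · rw [hd] at h1
      have hy3 : (T, y.2) = y := Prod.ext hy.symm rfl
      rw [hy3]
      exact h1.symm
    · intro x hx
      have := List.mem_takeWhile_imp hx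
      simpa using this

theorem takeWhile_append_cons {T : α} {W R : List (α × Bool)} {b : Bool}
    (hW : ∀ x ∈ W, x.1 ≠ T) :
    (W ++ (T, b) :: R).takeWhile (fun x => decide (x.1 ≠ T)) = W := by
  rw [List.takeWhile_append_of_pos (by simpa using hW)]
  simp

/-- Multiplying on the left by an element without the letter `T` only changes the part before the
first occurrence of `T`. -/
theorem toWord_mul_split {T : α} {p q : FreeGroup α} (hp : T ∉ letters p)
    {W : List (α × Bool)} {b : Bool} {R : List (α × Bool)} (hq : q.toWord = W ++ (T, b) :: R)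
    (hW : ∀ x ∈ W, x.1 ≠ T) :
    (p * q).toWord = (p * FreeGroup.mk W).toWord ++ (T, b) :: R := by
  have hA : T ∉ letters (p * FreeGroup.mk W) := by
    intro h
    have := letters_mul_subset _ _ h
    rw [Finset.mem_union] at this
    rcases this with h | h
    · exact hp h
    · obtain ⟨c, hc⟩ := letters_mk_subset _ h
      exact hW _ hc rfl
  have hR : IsReduced ((T, b) :: R) := by
    have h1 : IsReduced q.toWord := isReduced_toWord
    rw [hq] at h1
    exact List.IsChain.right_of_append h1
  have hred : IsReduced ((p * FreeGroup.mk W).toWord ++ (T, b) :: R) := by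
    refine List.IsChain.append isReduced_toWord hR ?_
    intro x hx y hy hxy
    exfalso
    simp only [List.head?_cons, Option.mem_def, Option.some.injEq] at hy
    subst hy
    have hx' : x ∈ (p * FreeGroup.mk W).toWord := List.mem_of_mem_getLast? hx
    apply hA
    rw [mem_letters]
    refine ⟨x.2, ?_⟩
    have h2 : x.1 = T := hxy
    rw [← h2]
    exact hx'
  have hmul : p * q = FreeGroup.mk ((p * FreeGroup.mk W).toWord ++ (T, b) :: R) := by
    rw [← mul_mk, mk_toWord, mul_assoc, mul_mk, ← hq, mk_toWord]
  rw [hmul, toWord_mk, hred.reduce_eq]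

theorem hbAt_mul_left {T : α} {p q : FreeGroup α} (hp : T ∉ letters p) (hq : T ∈ letters q)  :
    hbAt T (p * q) =
      letters (p * FreeGroup.mk (q.toWord.takeWhile (fun x => decide (x.1 ≠ T)))) := by
  obtain ⟨W, b, R, hL, hW, hT⟩ := exists_split (mem_letters.1 hq)
  have h := toWord_mul_split hp hL hW
  have hA : ∀ x ∈ (p * FreeGroup.mk W).toWord, x.1 ≠ T := by
    intro x hx hxT
    have h1 : T ∈ letters (p * FreeGroup.mk W) := by
      rw [mem_letters]
      exact ⟨x.2, by rw [← hxT]; exact hx⟩
    have := letters_mul_subset _ _ h1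
    rw [Finset.mem_union] at this
    rcases this with h | h
    · exact hp h
    · obtain ⟨c, hc⟩ := letters_mk_subset _ h
      exact hW _ hc rfl
  rw [hT, hbAt, h, takeWhile_append_cons hA]
  rfl

/-- A letter of `p` which does not occur in `q` survives before the first `T` of `p * q`. -/
theorem mem_hbAt_mul_left {T y : α} {p q : FreeGroup α} (hp : T ∉ letters p) (hq : T ∈ letters q)
    (hy : y ∈ letters p) (hyq : y ∉ letters q) : y ∈ hbAt T (p * q) := by
  rw [hbAt_mul_left hp hq]
  by_contra hcon
  set m := FreeGroup.mk (q.toWord.takeWhile (fun x => decide (x.1 ≠ T))) with hm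
  have h1 : y ∉ letters m := by
    intro h
    obtain ⟨c, hc⟩ := letters_mk_subset _ h
    exact hyq (mem_letters.2 ⟨c, (List.takeWhile_sublist _).subset hc⟩)
  have h2 : p = (p * m) * m⁻¹ := by group
  rw [h2] at hy
  have := letters_mul_subset _ _ hy
  rw [Finset.mem_union, letters_inv] at this
  rcases this with h | h
  · exact hcon h
  · exact h1 h

/-- The letters before the first `T` of `p * q` come from `p` or from `q`. -/
theorem mem_letters_of_mem_hbAt_mul {T y : α} {p q : FreeGroup α}
    (h : y ∈ hbAt T (p * q)) : y ∈ letters p ∨ y ∈ letters q := by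
  have := letters_mul_subset _ _ (hbAt_subset _ _ h)
  rwa [Finset.mem_union] at this

/-- Multiplying on the right by an element without `T` does not create new letters before the
first occurrence of `T`. -/
theorem hbAt_mul_right {T : α} {p q : FreeGroup α} (hp : T ∉ letters p) (hq : T ∈ letters q) :
    hbAt T (q * p) ⊆ letters q := by
  have hp' : T ∉ letters p⁻¹ := by rwa [letters_inv]
  have hq' : T ∈ letters q⁻¹ := by rwa [letters_inv]
  obtain ⟨W, b, R, hL, hW, hT⟩ := exists_split (mem_letters.1 hq')
  have h := toWord_mul_split hp' hL hW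
  have h2 : (q * p).toWord = (invRev R ++ [(T, !b)]) ++ invRev (p⁻¹ * FreeGroup.mk W).toWord := by
    have : q * p = (p⁻¹ * q⁻¹)⁻¹ := by group
    rw [this, toWord_inv, h, invRev_append]
    congr 1
    rw [invRev_cons]
    rfl
  have hq2 : q.toWord = invRev R ++ [(T, !b)] ++ invRev W := by
    have : q = (q⁻¹)⁻¹ := by group
    rw [this, toWord_inv, hL, invRev_append]
    congr 1
    rw [invRev_cons]
    rfl
  intro a ha
  simp only [hbAt, List.mem_toFinset, List.mem_map] at ha
  obtain ⟨x, hx, rfl⟩ := ha
  have hmem : ∃ c, (T, c) ∈ invRev R ++ [(T, !b)] := ⟨!b, by simp⟩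
  obtain ⟨W', b', R', hL', hW', hT'⟩ := exists_split hmem
  have h3 : ((q * p).toWord).takeWhile (fun x => decide (x.1 ≠ T)) = W' := by
    rw [h2, hL', List.append_assoc, List.cons_append]
    exact takeWhile_append_cons hW'
  rw [h3] at hx
  rw [mem_letters]
  refine ⟨x.2, ?_⟩
  rw [hq2, hL']
  simp only [List.append_assoc, List.mem_append]
  exact Or.inl hx

/-- Mapping a reduced word by a map injective on its letters gives a reduced word. -/
theorem toWord_map_of_injOn {f : α → β} {g : FreeGroup α} (hf : Set.InjOn f (letters g)) :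
    (FreeGroup.map f g).toWord = g.toWord.map (fun x => (f x.1, x.2)) := by
  have hred : IsReduced (g.toWord.map (fun x => (f x.1, x.2))) := by
    have h0 : IsReduced g.toWord := isReduced_toWord
    have h1 : ∀ x ∈ g.toWord, x.1 ∈ letters g := fun x hx => mem_letters.2 ⟨x.2, hx⟩
    revert h0 h1
    generalize g.toWord = L
    intro h0 h1
    unfold FreeGroup.IsReduced at h0 ⊢
    rw [List.isChain_map]
    have h2 := h0
    induction L with
    | nil => exact List.isChain_nil
    | cons a L ih =>
      cases L with
      | nil => exact List.isChain_singleton _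
      | cons c L =>
        rw [List.isChain_cons_cons] at h0 ⊢
        refine ⟨fun h => h0.1 ?_, ih h0.2 (fun x hx => h1 x (List.mem_cons_of_mem _ hx)) h0.2⟩
        exact hf (h1 a (by simp)) (h1 c (by simp)) h
  have : FreeGroup.map f g = FreeGroup.mk (g.toWord.map (fun x => (f x.1, x.2))) := by
    conv_lhs => rw [← mk_toWord (x := g)]
    rw [map.mk]
  rw [this, toWord_mk, hred.reduce_eq]

theorem letters_map_of_injOn {f : α → β} {g : FreeGroup α} (hf : Set.InjOn f (letters g)) :
    letters (FreeGroup.map f g) = (letters g).image f := by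
  ext b
  rw [mem_letters, toWord_map_of_injOn hf]
  simp only [List.mem_map, Prod.mk.injEq, Prod.exists, Finset.mem_image, mem_letters]
  constructor
  · rintro ⟨c, a, d, h, rfl, rfl⟩
    exact ⟨a, ⟨d, h⟩, rfl⟩
  · rintro ⟨a, ⟨d, h⟩, rfl⟩
    exact ⟨d, a, d, h, rfl, rfl⟩

theorem letters_map_subset (f : α → β) (g : FreeGroup α) :
    letters (FreeGroup.map f g) ⊆ (letters g).image f := by
  intro b hb
  have : FreeGroup.map f g = FreeGroup.mk (g.toWord.map (fun x => (f x.1, x.2))) := by
    conv_lhs => rw [← mk_toWord (x := g)]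
    rw [map.mk]
  rw [this] at hb
  obtain ⟨c, hc⟩ := letters_mk_subset _ hb
  simp only [List.mem_map, Prod.mk.injEq, Prod.exists] at hc
  obtain ⟨a, d, h, rfl, rfl⟩ := hc
  exact Finset.mem_image_of_mem _ (mem_letters.2 ⟨_, h⟩)

theorem hbAt_map_of_injOn {f : α → β} {g : FreeGroup α} (hf : Set.InjOn f (letters g)) {T : α}
    (hT : T ∈ letters g) : hbAt (f T) (FreeGroup.map f g) = (hbAt T g).image f := by
  obtain ⟨W, b, R, hL, hW, hTW⟩ := exists_split (mem_letters.1 hT)
  have h1 : (FreeGroup.map f g).toWord.takeWhile (fun x => decide (x.1 ≠ f T)) =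
      W.map (fun x => (f x.1, x.2)) := by
    rw [toWord_map_of_injOn hf, hL, List.map_append, List.map_cons]
    apply takeWhile_append_cons
    intro x hx
    simp only [List.mem_map, Prod.exists] at hx
    obtain ⟨a, d, h, rfl⟩ := hx
    intro h2
    refine hW _ h (hf ?_ hT h2)
    exact mem_letters.2 ⟨d, by rw [hL]; simp [h]⟩
  unfold hbAt
  rw [h1, hTW]
  ext x
  simp

/-- `map f g` only depends on `f` on the letters of `g`. -/
theorem map_congr_letters {f f' : α → β} {g : FreeGroup α} (h : ∀ a ∈ letters g, f a = f' a) :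
    FreeGroup.map f g = FreeGroup.map f' g := by
  have h1 : ∀ f : α → β, FreeGroup.map f g =
      FreeGroup.mk (g.toWord.map (fun x => (f x.1, x.2))) := by
    intro f
    conv_lhs => rw [← mk_toWord (x := g)]
    rw [map.mk]
  rw [h1 f, h1 f']
  congr 1
  apply List.map_congr_left
  intro x hx
  rw [h x.1 (mem_letters.2 ⟨x.2, hx⟩)]

end Words

section Norm

variable {α : Type*} [DecidableEq α]

/-- Cancellation in a product of two reduced words. -/
theorem exists_cancel (n : ℕ) : ∀ (L₁ L₂ : List (α × Bool)), L₁.length ≤ n → IsReduced L₁ →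
    IsReduced L₂ → ∃ A C B : List (α × Bool), L₁ = A ++ C ∧ L₂ = invRev C ++ B ∧
      IsReduced (A ++ B) := by
  induction n with
  | zero =>
    intro L₁ L₂ h1 _ h3
    have : L₁ = [] := List.length_eq_zero_iff.1 (Nat.le_zero.1 h1)
    subst this
    exact ⟨[], [], L₂, by simp, by simp, by simpa using h3⟩
  | succ n ih =>
    intro L₁ L₂ h1 h2 h3
    by_cases h : IsReduced (L₁ ++ L₂)
    · exact ⟨L₁, [], L₂, by simp, by simp, h⟩
    · have h4 : ¬ ∀ x ∈ L₁.getLast?, ∀ y ∈ L₂.head?, x.1 = y.1 → x.2 = y.2 := by
        intro h5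
        exact h (List.IsChain.append h2 h3 h5)
      push Not at h4
      obtain ⟨x, hx, y, hy, hxy, hne⟩ := h4
      obtain ⟨L₁', rfl⟩ : ∃ L₁', L₁ = L₁' ++ [x] := by
        have := List.mem_getLast?_eq_getLast hx
        obtain ⟨h6, h7⟩ := this
        refine ⟨L₁.dropLast, ?_⟩
        rw [h7, List.dropLast_append_getLast]
      obtain ⟨L₂', rfl⟩ : ∃ L₂', L₂ = y :: L₂' := by
        cases L₂ with
        | nil => simp at hy
        | cons z L₂' =>
          simp at hy
          exact ⟨L₂', by rw [hy]⟩
      have hy2 : y = (x.1, !x.2) := by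
        ext
        · exact hxy.symm
        · simp only
          cases hx2 : x.2 <;> cases hy2 : y.2 <;> simp_all
      obtain ⟨A, C, B, hA, hB, hAB⟩ := ih L₁' L₂' (by simp at h1; exact h1)
        (List.IsChain.left_of_append h2)
        (List.IsChain.right_of_append (l₁ := [y]) h3)
      refine ⟨A, C ++ [x], B, by rw [hA, List.append_assoc], ?_, hAB⟩
      rw [invRev_append, hB, hy2]
      simp [invRev]

theorem exists_cancel_mul (x R : FreeGroup α) : ∃ A C B : List (α × Bool),
    x.toWord = A ++ C ∧ R.toWord = invRev C ++ B ∧ (x * R).toWord = A ++ B := by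
  obtain ⟨A, C, B, h1, h2, h3⟩ := exists_cancel _ x.toWord R.toWord le_rfl isReduced_toWord
    isReduced_toWord
  refine ⟨A, C, B, h1, h2, ?_⟩
  have : x * R = FreeGroup.mk (A ++ B) := by
    conv_lhs => rw [← mk_toWord (x := x), ← mk_toWord (x := R), h1, h2]
    rw [← mul_mk, ← mul_mk, ← mul_mk, ← inv_mk]
    group
  rw [this, toWord_mk, h3.reduce_eq]

theorem invRev_getElem (L : List (α × Bool)) (i : ℕ) (hi : i < L.length)
    (h1 : i < (invRev L).length) (h2 : L.length - 1 - i < L.length) :
    (invRev L)[i] = ((L[L.length - 1 - i]).1, !(L[L.length - 1 - i]).2) := by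
  simp only [invRev]
  rw [List.getElem_reverse]
  simp

/-- A nonempty reduced word and its formal inverse differ in their first halves. -/
theorem half_ne (L : List (α × Bool)) (hL : IsReduced L) (hne : L ≠ []) (h : ℕ)
    (hh : L.length ≤ 2 * h) (htake : L.take h = (invRev L).take h) : False := by
  have hlen : 0 < L.length := List.length_pos_iff.2 hne
  have key : ∀ i, i < h → ∀ hi : i < L.length,
      L[i] = ((L[L.length - 1 - i]'(by omega)).1, !(L[L.length - 1 - i]'(by omega)).2) := by
    intro i hih hi
    have hi' : i < (invRev L).length := by rw [invRev_length]; exact hi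
    have e1 : (L.take h)[i]'(by simp; omega) = L[i] := by simp
    have e2 : ((invRev L).take h)[i]'(by simp; omega) = (invRev L)[i] := by simp
    rw [← invRev_getElem L i hi hi' (by omega), ← e1, ← e2]
    congr 1
  rcases Nat.even_or_odd' L.length with ⟨k, hk | hk⟩
  · -- even length `2 k`, `k ≥ 1`
    have hk1 : 1 ≤ k := by omega
    have h1 := key (k - 1) (by omega) (by omega)
    have hidx : L.length - 1 - (k - 1) = k := by omega
    have hkk : k < L.length := by omega
    have h2 : L[k - 1]'(by omega) = ((L[k]).1, !(L[k]).2) := by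
      rw [h1]
      congr 2
      · simp only [hidx]
      · simp only [hidx]
    have h3 := List.isChain_iff_getElem.1 hL (k - 1) (by omega)
    have h4 : L[k - 1 + 1]'(by omega) = L[k] := by
      congr 1
      omega
    rw [h4, h2] at h3
    have := h3 rfl
    simp at this
  · have h1 := key k (by omega) (by omega)
    have hidx : L.length - 1 - k = k := by omega
    have hkk : k < L.length := by omega
    have h2 : L[k] = ((L[k]).1, !(L[k]).2) := by
      conv_lhs => rw [h1]
      congr 2
      · simp only [hidx]
      · simp only [hidx]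
    have h3 := congrArg Prod.snd h2
    simp at h3

theorem norm_lt_or {x : FreeGroup α} (hx : x ≠ 1) (R : FreeGroup α) :
    R.norm < (x * R).norm ∨ R.norm < (x⁻¹ * R).norm := by
  by_contra hcon
  push Not at hcon
  obtain ⟨h1, h2⟩ := hcon
  obtain ⟨A, C, B, hx1, hR1, hxR1⟩ := exists_cancel_mul x R
  obtain ⟨A', C', B', hx2, hR2, hxR2⟩ := exists_cancel_mul x⁻¹ R
  simp only [FreeGroup.norm] at h1 h2
  rw [hxR1, hR1, List.length_append, List.length_append, invRev_length] at h1
  rw [hxR2, hR2, List.length_append, List.length_append, invRev_length] at h2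
  set L := x.toWord with hL
  have hL2 : L = invRev C' ++ invRev A' := by
    have : x = (x⁻¹)⁻¹ := by group
    rw [hL, this, toWord_inv, hx2, invRev_append]
  have hlen1 : L.length = A.length + C.length := by rw [hx1, List.length_append]
  have hlen2 : L.length = C'.length + A'.length := by
    rw [hL2, List.length_append, invRev_length, invRev_length]
  have hne : L ≠ [] := by
    intro h
    exact hx (toWord_eq_nil_iff.1 h)
  set h := (L.length + 1) / 2 with hh
  have hhC : h ≤ C.length := by omega
  have hhC' : h ≤ C'.length := by omega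
  apply half_ne L isReduced_toWord hne h (by omega)
  have e1 : L.take h = R.toWord.take h := by
    rw [hL2, hR2, List.take_append_of_le_length (by rw [invRev_length]; exact hhC'),
      List.take_append_of_le_length (by rw [invRev_length]; exact hhC')]
  have e2 : (invRev L).take h = R.toWord.take h := by
    rw [hx1, invRev_append, hR1,
      List.take_append_of_le_length (by rw [invRev_length]; exact hhC),
      List.take_append_of_le_length (by rw [invRev_length]; exact hhC)]
  rw [e1, e2]

/-- Unique product lemma for sets of the form `P⁻¹ Q` in a free group. -/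
theorem exists_unique_pair {ι : Type*} (I : Finset ι) (hI : I.Nonempty)
    (p q : ι → FreeGroup α) (hp : Set.InjOn p I) (hq : Set.InjOn q I) :
    ∃ i₀ ∈ I, ∃ j₀ ∈ I, ∀ i ∈ I, ∀ j ∈ I, (p i)⁻¹ * q j = (p i₀)⁻¹ * q j₀ → i = i₀ ∧ j = j₀ := by
  obtain ⟨⟨i₀, j₀⟩, hmem, hmax⟩ := Finset.exists_max_image (I ×ˢ I)
    (fun ij => ((p ij.1)⁻¹ * q ij.2).norm) (hI.product hI)
  rw [Finset.mem_product] at hmem
  refine ⟨i₀, hmem.1, j₀, hmem.2, ?_⟩
  intro i hi j hj hij
  by_contra hne
  set x := p i * (p i₀)⁻¹ with hx
  have hx2 : x = q j * (q j₀)⁻¹ := by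
    have h0 : p i * ((p i)⁻¹ * q j) = p i * ((p i₀)⁻¹ * q j₀) := by rw [hij]
    have h1 : q j = p i * (p i₀)⁻¹ * q j₀ := by
      rw [← mul_assoc, mul_inv_cancel, one_mul] at h0
      rw [h0, mul_assoc]
    rw [hx, h1]
    group
  have hx1 : x ≠ 1 := by
    intro h
    apply hne
    constructor
    · apply hp hi hmem.1
      exact mul_inv_eq_one.1 (hx ▸ h)
    · apply hq hj hmem.2
      exact mul_inv_eq_one.1 (hx2 ▸ h)
  -- conjugate of `x`
  set c := (p i₀)⁻¹ * x * p i₀ with hc
  have hc1 : c ≠ 1 := by
    intro h
    apply hx1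
    have h2 : x = p i₀ * c * (p i₀)⁻¹ := by rw [hc]; group
    rw [h2, h]
    group
  have e1 : c * ((p i₀)⁻¹ * q j₀) = (p i₀)⁻¹ * q j := by
    rw [hc, hx2]
    group
  have e2 : c⁻¹ * ((p i₀)⁻¹ * q j₀) = (p i)⁻¹ * q j₀ := by
    rw [hc, hx]
    group
  have m1 := hmax (i₀, j) (Finset.mem_product.2 ⟨hmem.1, hj⟩)
  have m2 := hmax (i, j₀) (Finset.mem_product.2 ⟨hi, hmem.2⟩)
  simp only at m1 m2
  rcases norm_lt_or hc1 ((p i₀)⁻¹ * q j₀) with h | h
  · rw [e1] at h
    omega
  · rw [e2] at h
    omega

end Norm

end Pool.Agent.Helper46
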