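import Mathlib

/-!
Generic real data along a well-order: sets `T1`, `T2` (sections of closures of countable sequences
of data points), countability of their edge / isolated points, the sign pattern lemma for generic
points, and existence of generic data.
-/

set_option autoImplicit false
set_option linter.unusedSectionVars false
set_option linter.unusedVariables false

namespace Pool.Agent.Helper46

open Set Topology

/-- Data of one letter: countably many reals and one point of the Cantor space. -/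
abbrev Dat : Type := (ℕ → ℝ) × (ℕ → Bool)

/-- First `n` digits. -/
def dig (δ : ℕ → Bool) (n : ℕ) : List Bool := (List.range n).map δ

@[simp] theorem dig_length (δ : ℕ → Bool) (n : ℕ) : (dig δ n).length = n := by simp [dig]

theorem dig_eq_iff {δ δ' : ℕ → Bool} {n : ℕ} : dig δ n = dig δ' n ↔ ∀ i < n, δ i = δ' i := by
  unfold dig
  rw [List.map_inj_left]
  simp

/-- Keep the entries below `J`. -/
def trunc (J : ℕ) (b : ℕ → ℝ) : ℕ → ℝ := fun j => if j < J then b j else 0

theorem continuous_trunc (J : ℕ) : Continuous (trunc J) := by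
  refine continuous_pi fun j => ?_
  unfold trunc
  by_cases h : j < J
  · simp only [h, if_true]; exact continuous_apply j
  · simp only [h, if_false]; exact continuous_const

theorem trunc_trunc_succ (J : ℕ) (b : ℕ → ℝ) : trunc J (trunc (J + 1) b) = trunc J b := by
  funext j
  unfold trunc
  by_cases h : j < J
  · have : j < J + 1 := by omega
    simp [h, this]
  · simp [h]

theorem trunc_succ_self (J : ℕ) (b : ℕ → ℝ) : trunc (J + 1) b J = b J := by
  simp [trunc]

/-- Points of `T` which are the maximum or the minimum of `T` in a rational interval. -/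
def Edge (T : Set ℝ) : Set ℝ :=
  {z | ∃ p q : ℚ, IsGreatest (T ∩ Ioo (p : ℝ) q) z ∨ IsLeast (T ∩ Ioo (p : ℝ) q) z}

theorem countable_edge (T : Set ℝ) : (Edge T).Countable := by
  have : Edge T = ⋃ p : ℚ, ⋃ q : ℚ, ({z | IsGreatest (T ∩ Ioo (p : ℝ) q) z} ∪
      {z | IsLeast (T ∩ Ioo (p : ℝ) q) z}) := by
    ext z
    simp [Edge]
  rw [this]
  refine countable_iUnion fun p => countable_iUnion fun q => ?_
  refine Countable.union ?_ ?_
  · apply Set.Subsingleton.countable
    intro a ha b hb
    exact ha.unique hb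
  · apply Set.Subsingleton.countable
    intro a ha b hb
    exact ha.unique hb

theorem exists_lt_of_not_edge {T : Set ℝ} {z : ℝ} (hz : z ∈ T) (hE : z ∉ Edge T) :
    ∃ w ∈ T, w < z := by
  obtain ⟨p, hp⟩ := exists_rat_lt z
  obtain ⟨q, hq⟩ := exists_rat_gt z
  by_contra hcon
  push Not at hcon
  apply hE
  refine ⟨p, q, Or.inr ⟨⟨hz, hp, hq⟩, ?_⟩⟩
  intro w hw
  exact hcon w hw.1

theorem exists_gt_of_not_edge {T : Set ℝ} {z : ℝ} (hz : z ∈ T) (hE : z ∉ Edge T) :
    ∃ w ∈ T, z < w := by
  obtain ⟨p, hp⟩ := exists_rat_lt z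
  obtain ⟨q, hq⟩ := exists_rat_gt z
  by_contra hcon
  push Not at hcon
  apply hE
  refine ⟨p, q, Or.inl ⟨⟨hz, hp, hq⟩, ?_⟩⟩
  intro w hw
  exact hcon w hw.1

/-- Isolated points of a subset of the Cantor space. -/
def Iso (T : Set (ℕ → Bool)) : Set (ℕ → Bool) :=
  {y | y ∈ T ∧ ∃ N : ℕ, ∀ y' ∈ T, (∀ i < N, y' i = y i) → y' = y}

theorem countable_iso (T : Set (ℕ → Bool)) : (Iso T).Countable := by
  classical
  have h : ∀ y : Iso T, ∃ N : ℕ, ∀ y' ∈ T, (∀ i < N, y' i = y.1 i) → y' = y.1 :=
    fun y => y.2.2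
  choose N hN using h
  have hinj : Function.Injective (fun y : Iso T => dig y.1 (N y)) := by
    intro y y' hyy
    simp only at hyy
    have hl : N y = N y' := by
      have := congrArg List.length hyy
      simpa using this
    rw [← hl, dig_eq_iff] at hyy
    exact (Subtype.ext (hN y y'.1 y'.2.1 (fun i hi => (hyy i hi).symm))).symm
  exact hinj.countable

section Pattern

variable {X0 Q : Type*} [TopologicalSpace X0]

/-- Index sets. -/
def Eset (Y : ℕ → Dat) (pat : ℕ → Q) (q : Q) (τ : List Bool) (I : List (ℕ × ℚ × ℚ)) : Set ℕ :=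
  {n | pat n = q ∧ dig (Y n).2 τ.length = τ ∧
    ∀ i ∈ I, ((i.2.1 : ℚ) : ℝ) < (Y n).1 i.1 ∧ (Y n).1 i.1 < ((i.2.2 : ℚ) : ℝ)}

def T1 (X : ℕ → X0) (Y : ℕ → Dat) (x : X0) (E : Set ℕ) (J : ℕ) (pre : ℕ → ℝ) : Set ℝ :=
  {z | (x, pre, z) ∈ closure ((fun n => (X n, trunc J (Y n).1, (Y n).1 J)) '' E)}

def T2 (X : ℕ → X0) (Y : ℕ → Dat) (x : X0) (E : Set ℕ) (b : ℕ → ℝ) : Set (ℕ → Bool) :=
  {z | (x, b, z) ∈ closure ((fun n => (X n, (Y n).1, (Y n).2)) '' E)}

theorem closure_step {A B : Type*} [TopologicalSpace A] [TopologicalSpace B] (f : ℕ → A)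
    {E E' : Set ℕ} {p : A} (g : A → B) (hg : Continuous g) {O : Set A} (hO : O ∈ 𝓝 p)
    (hE : ∀ n ∈ E, f n ∈ O → n ∈ E') (hp : p ∈ closure (f '' E)) :
    g p ∈ closure ((fun n => g (f n)) '' E') := by
  rw [mem_closure_iff_nhds] at hp ⊢
  intro V hV
  obtain ⟨a, ⟨haO, haV⟩, n, hn, rfl⟩ := hp (O ∩ g ⁻¹' V)
    (Filter.inter_mem hO (hg.continuousAt hV))
  exact ⟨g (f n), haV, n, hE n hn haO, rfl⟩

variable (X : ℕ → X0) (Y : ℕ → Dat) (pat : ℕ → Q) (x : X0) (y : Dat) (q : Q)

theorem pattern_down (τ : List Bool)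
    (h1 : ∀ (I : List (ℕ × ℚ × ℚ)) (J : ℕ),
      y.1 J ∉ Edge (T1 X Y x (Eset Y pat q τ I) J (trunc J y.1))) (ε : ℕ → Bool) (J : ℕ) :
    ∀ I : List (ℕ × ℚ × ℚ),
      (x, trunc J y.1) ∈ closure ((fun n => (X n, trunc J (Y n).1)) '' Eset Y pat q τ I) →
      ∃ I' : List (ℕ × ℚ × ℚ), (∀ n ∈ Eset Y pat q τ I', n ∈ Eset Y pat q τ I) ∧
        (x, trunc 0 y.1) ∈ closure ((fun n => (X n, trunc 0 (Y n).1)) '' Eset Y pat q τ I') ∧
        ∀ n ∈ Eset Y pat q τ I', ∀ j < J,
          (ε j = true → (Y n).1 j < y.1 j) ∧ (ε j = false → y.1 j < (Y n).1 j) := by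
  induction J with
  | zero =>
    intro I hI
    exact ⟨I, fun n hn => hn, hI, fun n _ j hj => absurd hj (Nat.not_lt_zero _)⟩
  | succ J ih =>
    intro I hI
    -- `y.1 J` belongs to the section
    have hmem : y.1 J ∈ T1 X Y x (Eset Y pat q τ I) J (trunc J y.1) := by
      have := closure_step (fun n => (X n, trunc (J + 1) (Y n).1)) (E' := Eset Y pat q τ I)
        (fun a : X0 × (ℕ → ℝ) => (a.1, trunc J a.2, a.2 J))
        (by
          refine continuous_fst.prodMk (Continuous.prodMk ?_ ?_)
          · exact (continuous_trunc J).comp continuous_snd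
          · exact (continuous_apply J).comp continuous_snd)
        (O := univ) Filter.univ_mem (fun n hn _ => hn) hI
      simp only [trunc_trunc_succ, trunc_succ_self] at this
      exact this
    have hopen : ∀ (z : ℝ) (a b : ℚ), (a : ℝ) < z → z < b →
        z ∈ T1 X Y x (Eset Y pat q τ I) J (trunc J y.1) →
        (x, trunc J y.1) ∈
          closure ((fun n => (X n, trunc J (Y n).1)) '' Eset Y pat q τ ((J, a, b) :: I)) := by
      intro z a b haz hzb hz
      have := closure_step (fun n => (X n, trunc J (Y n).1, (Y n).1 J))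
        (E' := Eset Y pat q τ ((J, a, b) :: I))
        (fun a : X0 × (ℕ → ℝ) × ℝ => (a.1, a.2.1))
        (continuous_fst.prodMk (continuous_fst.comp continuous_snd))
        (O := {c : X0 × (ℕ → ℝ) × ℝ | (a : ℝ) < c.2.2 ∧ c.2.2 < b})
        (by
          apply IsOpen.mem_nhds
          · exact (isOpen_lt continuous_const (continuous_snd.comp continuous_snd)).inter
              (isOpen_lt (continuous_snd.comp continuous_snd) continuous_const)
          · exact ⟨haz, hzb⟩)
        (by
          intro n hn hO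
          refine ⟨hn.1, hn.2.1, ?_⟩
          intro i hi
          rw [List.mem_cons] at hi
          rcases hi with rfl | hi
          · exact hO
          · exact hn.2.2 i hi) hz
      exact this
    have hsub : ∀ (a b : ℚ), ∀ n ∈ Eset Y pat q τ ((J, a, b) :: I), n ∈ Eset Y pat q τ I :=
      fun a b n hn => ⟨hn.1, hn.2.1, fun i hi => hn.2.2 i (List.mem_cons_of_mem _ hi)⟩
    obtain ⟨a, b, hC, hside⟩ : ∃ a b : ℚ,
        (x, trunc J y.1) ∈
          closure ((fun n => (X n, trunc J (Y n).1)) '' Eset Y pat q τ ((J, a, b) :: I)) ∧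
        ∀ n ∈ Eset Y pat q τ ((J, a, b) :: I),
          (ε J = true → (Y n).1 J < y.1 J) ∧ (ε J = false → y.1 J < (Y n).1 J) := by
      cases hε : ε J with
      | true =>
        obtain ⟨z, hz, hlt⟩ := exists_lt_of_not_edge hmem (h1 I J)
        obtain ⟨a, ha⟩ := exists_rat_lt z
        obtain ⟨b, hzb, hb⟩ := exists_rat_btwn hlt
        refine ⟨a, b, hopen z a b ha hzb hz, fun n hn => ⟨fun _ => ?_, fun h => by simp at h⟩⟩
        have := (hn.2.2 (J, a, b) (by simp)).2
        exact lt_trans this hb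
      | false =>
        obtain ⟨z, hz, hlt⟩ := exists_gt_of_not_edge hmem (h1 I J)
        obtain ⟨b, hb⟩ := exists_rat_gt z
        obtain ⟨a, ha, haz⟩ := exists_rat_btwn hlt
        refine ⟨a, b, hopen z a b haz hb hz, fun n hn => ⟨fun h => by simp at h, fun _ => ?_⟩⟩
        have := (hn.2.2 (J, a, b) (by simp)).1
        exact lt_trans ha this
    obtain ⟨I', hI1, hI2, hI3⟩ := ih ((J, a, b) :: I) hC
    refine ⟨I', fun n hn => hsub a b n (hI1 n hn), hI2, ?_⟩
    intro n hn j hj
    rcases Nat.lt_succ_iff_lt_or_eq.1 hj with h | h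
    · exact hI3 n hn j h
    · subst h
      exact hside n (hI1 n hn)

theorem pattern_lemma
    (h1 : ∀ (τ : List Bool) (I : List (ℕ × ℚ × ℚ)) (J : ℕ),
      y.1 J ∉ Edge (T1 X Y x (Eset Y pat q τ I) J (trunc J y.1)))
    (h2 : y.2 ∉ Iso (T2 X Y x (Eset Y pat q [] []) y.1))
    (hcl : (x, y) ∈ closure ((fun n => (X n, Y n)) '' {n | pat n = q})) (N0 : ℕ) :
    ∃ N ≥ N0, ∀ (J : ℕ) (ε : ℕ → Bool), ∀ U ∈ 𝓝 x, ∃ n, pat n = q ∧ X n ∈ U ∧
      (∀ i < N, (Y n).2 i = y.2 i) ∧ (Y n).2 N ≠ y.2 N ∧
      ∀ j < J, (ε j = true → (Y n).1 j < y.1 j) ∧ (ε j = false → y.1 j < (Y n).1 j) := by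
  classical
  have hmem : y.2 ∈ T2 X Y x (Eset Y pat q [] []) y.1 := by
    have := closure_step (fun n => (X n, Y n)) (E' := Eset Y pat q [] [])
      (fun a : X0 × Dat => (a.1, a.2.1, a.2.2))
      (by fun_prop) (O := univ) Filter.univ_mem
      (fun n hn _ => ⟨hn, by simp [dig], by simp⟩) hcl
    exact this
  have h3 : ∀ N : ℕ, ∃ y' ∈ T2 X Y x (Eset Y pat q [] []) y.1,
      (∀ i < N, y' i = y.2 i) ∧ y' ≠ y.2 := by
    intro N
    by_contra hcon
    push Not at hcon
    exact h2 ⟨hmem, N, hcon⟩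
  obtain ⟨z, hz, hzN, hne⟩ := h3 N0
  have hex : ∃ i, z i ≠ y.2 i := by
    by_contra hcon
    push Not at hcon
    exact hne (funext hcon)
  set N := Nat.find hex with hN
  have hN1 : z N ≠ y.2 N := Nat.find_spec hex
  have hN2 : ∀ i < N, z i = y.2 i := fun i hi => by
    have := Nat.find_min hex hi
    push Not at this
    exact this
  have hNN0 : N0 ≤ N := by
    by_contra hcon
    push Not at hcon
    exact hN1 (hzN N hcon)
  refine ⟨N, hNN0, ?_⟩
  intro J ε U hU
  set τ := dig z (N + 1) with hτ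
  have hstart : (x, y.1) ∈ closure ((fun n => (X n, (Y n).1)) '' Eset Y pat q τ []) := by
    have := closure_step (fun n => (X n, (Y n).1, (Y n).2)) (E' := Eset Y pat q τ [])
      (fun a : X0 × (ℕ → ℝ) × (ℕ → Bool) => (a.1, a.2.1))
      (by fun_prop)
      (O := {c : X0 × (ℕ → ℝ) × (ℕ → Bool) | ∀ i ∈ Finset.range (N + 1), c.2.2 i = z i})
      (by
        apply IsOpen.mem_nhds
        · have : {c : X0 × (ℕ → ℝ) × (ℕ → Bool) | ∀ i ∈ Finset.range (N + 1), c.2.2 i = z i} =
              ⋂ i ∈ Finset.range (N + 1), {c | c.2.2 i = z i} := by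
            ext c; simp
          rw [this]
          apply isOpen_biInter_finset
          intro i _
          have hc : Continuous (fun c : X0 × (ℕ → ℝ) × (ℕ → Bool) => c.2.2 i) :=
            (continuous_apply i).comp (continuous_snd.comp continuous_snd)
          exact (isOpen_discrete {z i}).preimage hc
        · intro i _
          rfl)
      (by
        intro n hn hO
        refine ⟨hn.1, ?_, by simp⟩
        rw [hτ, dig_length, dig_eq_iff]
        intro i hi
        exact hO i (Finset.mem_range.2 hi)) hz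
    exact this
  have hJ : (x, trunc J y.1) ∈
      closure ((fun n => (X n, trunc J (Y n).1)) '' Eset Y pat q τ []) := by
    have := closure_step (fun n => (X n, (Y n).1)) (E' := Eset Y pat q τ [])
      (fun a : X0 × (ℕ → ℝ) => (a.1, trunc J a.2))
      (continuous_fst.prodMk ((continuous_trunc J).comp continuous_snd))
      (O := univ) Filter.univ_mem (fun n hn _ => hn) hstart
    exact this
  obtain ⟨I', hI1, hI2, hI3⟩ := pattern_down X Y pat x y q τ (h1 τ) ε J [] hJ
  rw [mem_closure_iff_nhds] at hI2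
  obtain ⟨c, hc, n, hn, rfl⟩ := hI2 (U ×ˢ univ) (prod_mem_nhds hU Filter.univ_mem)
  have hn2 : ∀ i < N + 1, (Y n).2 i = z i := by
    have := hn.2.1
    rw [hτ, dig_length, dig_eq_iff] at this
    exact this
  refine ⟨n, hn.1, hc.1, ?_, ?_, hI3 n hn⟩
  · intro i hi
    rw [hn2 i (by omega), hN2 i hi]
  · rw [hn2 N (by omega)]
    exact hN1

end Pattern

section Generic

variable {S : Type*} [LinearOrder S] [WellFoundedLT S]

/-- Data restricted to the letters below `t`. -/
noncomputable def cut (t : S) (d : S → Dat) : S → Dat := fun x => if x < t then d x else default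

theorem exists_bits (c : ℕ → (ℕ → ℝ) → ℝ) : ∃ b : ℕ → ℝ, ∀ J, b J = c J (trunc J b) := by
  let pre : ℕ → (ℕ → ℝ) := fun n =>
    Nat.rec (fun _ => 0) (fun J p => Function.update p J (c J p)) n
  have h0 : pre 0 = fun _ => 0 := rfl
  have hs : ∀ J, pre (J + 1) = Function.update (pre J) J (c J (pre J)) := fun J => rfl
  let b : ℕ → ℝ := fun j => pre (j + 1) j
  have key : ∀ J, pre J = trunc J b := by
    intro J
    induction J with
    | zero =>
      funext j
      simp [h0, trunc]
    | succ J ih =>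
      funext j
      by_cases hj : j = J
      · subst hj
        rw [trunc_succ_self]
      · rw [hs J, Function.update_of_ne hj, ih]
        unfold trunc
        by_cases h1 : j < J
        · have : j < J + 1 := by omega
          simp [h1, this]
        · have : ¬ j < J + 1 := by omega
          simp [h1, this]
  refine ⟨b, fun J => ?_⟩
  show pre (J + 1) J = _
  rw [hs J, Function.update_self, key]

theorem exists_generic (Bad1 : S → (S → Dat) → ℕ → (ℕ → ℝ) → Set ℝ)
    (Bad2 : S → (S → Dat) → (ℕ → ℝ) → Set (ℕ → Bool))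
    (h1 : ∀ t c J b, Bad1 t c J b ≠ univ) (h2 : ∀ t c b, Bad2 t c b ≠ univ) :
    ∃ d : S → Dat, ∀ t, (∀ J, (d t).1 J ∉ Bad1 t (cut t d) J (trunc J (d t).1)) ∧
      (d t).2 ∉ Bad2 t (cut t d) (d t).1 := by
  classical
  have h1' : ∀ t c J b, ∃ z, z ∉ Bad1 t c J b := by
    intro t c J b
    by_contra hcon
    push Not at hcon
    exact h1 t c J b (eq_univ_of_forall hcon)
  have h2' : ∀ t c b, ∃ z, z ∉ Bad2 t c b := by
    intro t c b
    by_contra hcon
    push Not at hcon
    exact h2 t c b (eq_univ_of_forall hcon)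
  choose c1 hc1 using h1'
  choose c2 hc2 using h2'
  have hb : ∀ t c, ∃ b : ℕ → ℝ, ∀ J, b J = c1 t c J (trunc J b) :=
    fun t c => exists_bits (c1 t c)
  choose bits hbits using hb
  let F : (t : S) → ((x : S) → x < t → Dat) → Dat := fun t r =>
    let c : S → Dat := fun x => if h : x < t then r x h else default
    (bits t c, c2 t c (bits t c))
  let d : S → Dat := (wellFounded_lt (α := S)).fix F
  have hd : ∀ t, d t = (bits t (cut t d), c2 t (cut t d) (bits t (cut t d))) := by
    intro t
    have h := (wellFounded_lt (α := S)).fix_eq F t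
    have hcut : (fun x => if h : x < t then d x else default) = cut t d := by
      funext x
      unfold cut
      by_cases hx : x < t <;> simp [hx]
    calc d t = F t (fun x _ => d x) := h
      _ = (bits t (fun x => if h : x < t then d x else default),
            c2 t (fun x => if h : x < t then d x else default)
              (bits t (fun x => if h : x < t then d x else default))) := rfl
      _ = _ := by rw [hcut]
  refine ⟨d, fun t => ⟨fun J => ?_, ?_⟩⟩
  · have e : (d t).1 = bits t (cut t d) := by rw [hd t]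
    rw [e]
    have h3 := hc1 t (cut t d) J (trunc J (bits t (cut t d)))
    rw [← hbits t (cut t d) J] at h3
    exact h3
  · have e : (d t).1 = bits t (cut t d) := by rw [hd t]
    have e2 : (d t).2 = c2 t (cut t d) (bits t (cut t d)) := by rw [hd t]
    rw [e, e2]
    exact hc2 _ _ _

end Generic

end Pool.Agent.Helper46
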