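import Mathlib
import Pool.Agent.Helper46.FreeWords
import Pool.Agent.Helper46.GenericData

/-!
The bilinear form attached to a function on a group, and the function `phi` on a free group with
generic data.
-/

set_option autoImplicit false
set_option linter.unusedSectionVars false
set_option linter.unusedVariables false

namespace Pool.Agent.Helper46

open FreeGroup

section Form

variable {Γ : Type*} [Group Γ]

/-- `Bf F v w = ∑ v_g w_h F (g⁻¹ h)`. -/
noncomputable def Bf (F : Γ → ZMod 3) (v w : Γ →₀ ZMod 3) : ZMod 3 :=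
  v.sum fun g a => w.sum fun h b => a * b * F (g⁻¹ * h)

theorem Bf_add_left (F : Γ → ZMod 3) (v v' w : Γ →₀ ZMod 3) :
    Bf F (v + v') w = Bf F v w + Bf F v' w := by
  unfold Bf
  rw [Finsupp.sum_add_index']
  · intro g; simp
  · intro g a b
    simp only [add_mul]
    exact Finsupp.sum_add

theorem Bf_add_right (F : Γ → ZMod 3) (v w w' : Γ →₀ ZMod 3) :
    Bf F v (w + w') = Bf F v w + Bf F v w' := by
  unfold Bf
  rw [← Finsupp.sum_add]
  congr 1
  funext g a
  rw [Finsupp.sum_add_index']
  · intro h; simp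
  · intro h b c
    ring

@[simp] theorem Bf_zero_left (F : Γ → ZMod 3) (w : Γ →₀ ZMod 3) : Bf F 0 w = 0 := by
  simp [Bf]

@[simp] theorem Bf_zero_right (F : Γ → ZMod 3) (v : Γ →₀ ZMod 3) : Bf F v 0 = 0 := by
  simp [Bf]

theorem Bf_neg_left (F : Γ → ZMod 3) (v w : Γ →₀ ZMod 3) : Bf F (-v) w = - Bf F v w := by
  have := Bf_add_left F (-v) v w
  rw [neg_add_cancel, Bf_zero_left] at this
  exact (neg_eq_of_add_eq_zero_left this.symm).symm

theorem Bf_neg_right (F : Γ → ZMod 3) (v w : Γ →₀ ZMod 3) : Bf F v (-w) = - Bf F v w := by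
  have := Bf_add_right F v (-w) w
  rw [neg_add_cancel, Bf_zero_right] at this
  exact (neg_eq_of_add_eq_zero_left this.symm).symm

theorem Bf_mapDomain (F : Γ → ZMod 3) {A B : Type*} (p : A → Γ) (q : B → Γ) (v : A →₀ ZMod 3)
    (w : B →₀ ZMod 3) : Bf F (Finsupp.mapDomain p v) (Finsupp.mapDomain q w) =
      v.sum fun g a => w.sum fun h b => a * b * F ((p g)⁻¹ * q h) := by
  unfold Bf
  rw [Finsupp.sum_mapDomain_index]
  · congr 1
    funext g a
    rw [Finsupp.sum_mapDomain_index]
    · intro h; simp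
    · intro h b c
      ring
  · intro g; simp
  · intro g a b
    simp only [add_mul]
    exact Finsupp.sum_add

theorem Bf_mapDomain_mul (F : Γ → ZMod 3) (γ : Γ) (v w : Γ →₀ ZMod 3) :
    Bf F (Finsupp.mapDomain (fun g => γ * g) v) (Finsupp.mapDomain (fun g => γ * g) w) =
      Bf F v w := by
  rw [Bf_mapDomain]
  unfold Bf
  congr 1
  funext g a
  congr 1
  funext h b
  congr 2
  group

theorem Bf_swap (F : Γ → ZMod 3) (v w : Γ →₀ ZMod 3) :
    Bf (fun g => F g - F g⁻¹) v w = Bf F v w - Bf F w v := by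
  unfold Bf
  rw [Finsupp.sum_comm w v, ← Finsupp.sum_sub]
  congr 1
  funext g a
  rw [← Finsupp.sum_sub]
  congr 1
  funext h b
  have : (g⁻¹ * h)⁻¹ = h⁻¹ * g := by group
  show a * b * (F (g⁻¹ * h) - F (g⁻¹ * h)⁻¹) = _
  rw [this]
  ring

theorem Bf_single (F : Γ → ZMod 3) (g h : Γ) (a b : ZMod 3) :
    Bf F (Finsupp.single g a) (Finsupp.single h b) = a * b * F (g⁻¹ * h) := by
  simp [Bf]

end Form

instance countable_freeGroup {α : Type*} [Countable α] : Countable (FreeGroup α) := by
  classical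
  exact (toWord_injective (α := α)).countable

/-- An injective code. -/
noncomputable def code : FreeGroup (List Bool) → ℕ :=
  (exists_injective_nat (FreeGroup (List Bool))).choose

theorem code_injective : Function.Injective code :=
  (exists_injective_nat (FreeGroup (List Bool))).choose_spec

/-- First difference. -/
noncomputable def fd (δ δ' : ℕ → Bool) : ℕ := PiNat.firstDiff (E := fun _ => Bool) δ δ'

theorem fd_ne {δ δ' : ℕ → Bool} (h : δ ≠ δ') : δ (fd δ δ') ≠ δ' (fd δ δ') :=
  PiNat.apply_firstDiff_ne (E := fun _ => Bool) h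

theorem eq_of_lt_fd {δ δ' : ℕ → Bool} {n : ℕ} (h : n < fd δ δ') : δ n = δ' n :=
  PiNat.apply_eq_of_lt_firstDiff (E := fun _ => Bool) h

theorem fd_eq_of {δ δ' : ℕ → Bool} {n : ℕ} (h1 : ∀ i < n, δ i = δ' i) (h2 : δ n ≠ δ' n) :
    fd δ δ' = n := by
  have hne : δ ≠ δ' := fun h => h2 (by rw [h])
  rcases lt_trichotomy (fd δ δ') n with h | h | h
  · exact absurd (h1 _ h) (fd_ne hne)
  · exact h
  · exact absurd (eq_of_lt_fd h) h2

section Phi

variable {S : Type*} [LinearOrder S]

/-- Key of a letter `s` relative to `t` for the word `g`. -/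
noncomputable def kk (d : S → Dat) (s t : S) (g : FreeGroup S) : ℕ :=
  code (FreeGroup.map (fun x => dig (d x).2 (fd (d s).2 (d t).2 + 1)) g)

noncomputable def phiAt (d : S → Dat) (t : S) (g : FreeGroup S) : ZMod 3 := by
  classical
  exact ∑ s ∈ hbAt t g, if (d s).1 (kk d s t g) < (d t).1 (kk d s t g) then 1 else 0

noncomputable def phi (d : S → Dat) (g : FreeGroup S) : ZMod 3 := by
  classical
  exact if h : (letters g).Nonempty then phiAt d ((letters g).max' h) g else 0

theorem phi_eq_phiAt (d : S → Dat) {g : FreeGroup S} {t : S} (ht : t ∈ letters g)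
    (hmax : ∀ x ∈ letters g, x ≤ t) : phi d g = phiAt d t g := by
  have h : (letters g).Nonempty := ⟨t, ht⟩
  unfold phi
  rw [dif_pos h]
  congr 1
  apply le_antisymm
  · exact Finset.max'_le _ _ _ hmax
  · exact Finset.le_max' _ _ ht

theorem phiAt_congr {d d' : S → Dat} {g : FreeGroup S} {t : S} (ht : t ∈ letters g)
    (h : ∀ x ∈ letters g, d x = d' x) : phiAt d t g = phiAt d' t g := by
  unfold phiAt
  apply Finset.sum_congr rfl
  intro s hs
  have hs' := hbAt_subset _ _ hs
  have hk : kk d s t g = kk d' s t g := by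
    unfold kk
    rw [h s hs', h t ht]
    congr 1
    apply map_congr_letters
    intro x hx
    rw [h x hx]
  rw [hk, h s hs', h t ht]

theorem phi_congr {d d' : S → Dat} {g : FreeGroup S}
    (h : ∀ x ∈ letters g, d x = d' x) : phi d g = phi d' g := by
  unfold phi
  by_cases hne : (letters g).Nonempty
  · rw [dif_pos hne, dif_pos hne]
    exact phiAt_congr (Finset.max'_mem _ _) h
  · rw [dif_neg hne, dif_neg hne]

/-- The antisymmetrised function. -/
noncomputable def ff (d : S → Dat) (g : FreeGroup S) : ZMod 3 := phi d g - phi d g⁻¹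

theorem ff_congr {d d' : S → Dat} {g : FreeGroup S}
    (h : ∀ x ∈ letters g, d x = d' x) : ff d g = ff d' g := by
  unfold ff
  rw [phi_congr h, phi_congr (d := d) (d' := d') (g := g⁻¹) (by rw [letters_inv]; exact h)]

end Phi

end Pool.Agent.Helper46
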