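import Mathlib
import Pool.Agent.Helper46.Form

/-!
The value of `phi` on words in letters `b i` (below the top letter) and `a i`, when the data of
`b i` is close to the data of `a i`.
-/

set_option autoImplicit false
set_option linter.unusedSectionVars false
set_option linter.unusedVariables false

namespace Pool.Agent.Helper46

open FreeGroup

/-- Abstract letters: `inl i` stands for `b i`, `inr i` stands for `a i`. -/
abbrev Let (m : ℕ) : Type := Fin (m + 1) ⊕ Fin (m + 1)

def idx {m : ℕ} : Let m → Fin (m + 1) := Sum.elim id id

/-- The abstract top letter. -/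
abbrev topL (m : ℕ) : Let m := Sum.inr (Fin.last m)

/-- The abstract critical letter. -/
abbrev yL (m : ℕ) : Let m := Sum.inl (Fin.last m)

/-- The allowed abstract letters. -/
def Allowed (m : ℕ) (σ : Finset (Fin m)) : Set (Let m) :=
  {x | ∀ l : Fin m, l ∈ σ → x ≠ Sum.inl l.castSucc}

section

variable {S : Type*} [LinearOrder S] (d : S → Dat) {m : ℕ} (a b : Fin (m + 1) → S)

/-- Universal keys. -/
noncomputable def kap (x : Let m) (G : FreeGroup (Let m)) : ℕ :=
  code (FreeGroup.map (fun x' => dig (d (a (idx x'))).2
    (fd (d (a (idx x))).2 (d (a (Fin.last m))).2 + 1)) G)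

noncomputable def CC (G : FreeGroup (Let m)) : ZMod 3 := by
  classical
  exact ∑ x ∈ (hbAt (topL m) G).erase (yL m),
    if (d (a (idx x))).1 (kap d a x G) < (d (a (Fin.last m))).1 (kap d a x G) then 1 else 0

noncomputable def eta (N : ℕ) (x : Let m) : List Bool := by
  classical
  exact if x = yL m then dig (d (a (Fin.last m))).2 N ++ [!(d (a (Fin.last m))).2 N]
    else dig (d (a (idx x))).2 (N + 1)

noncomputable def KK (N : ℕ) (G : FreeGroup (Let m)) : ℕ :=
  code (FreeGroup.map (eta d a N) G)

/-- Realisation of abstract letters. -/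
def lam : Let m → S := Sum.elim b a

variable {d a b}

theorem phi_lam (N J : ℕ) (σ : Finset (Fin m))
    (ha : StrictMono a) (hb : StrictMono b) (hbt : ∀ i, b i < a (Fin.last m))
    (hne : ∀ i j : Fin (m + 1), i ≠ j → (d (a i)).2 ≠ (d (a j)).2)
    (hsep : ∀ i j : Fin (m + 1), i ≠ j → ∃ k < N, (d (a i)).2 k ≠ (d (a j)).2 k)
    (hagree : ∀ i : Fin (m + 1), ∀ k < N, (d (b i)).2 k = (d (a i)).2 k)
    (hagree' : ∀ l : Fin m, (d (b l.castSucc)).2 N = (d (a l.castSucc)).2 N)
    (hdiff : (d (b (Fin.last m))).2 N ≠ (d (a (Fin.last m))).2 N)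
    (hσ : ∀ l : Fin m, b l.castSucc = a l.castSucc ↔ l ∈ σ)
    (hbits : ∀ l : Fin m, ∀ k < J, ((d (b l.castSucc)).1 k < (d (a (Fin.last m))).1 k ↔
      (d (a l.castSucc)).1 k < (d (a (Fin.last m))).1 k))
    (G : FreeGroup (Let m)) (hG : ∀ x ∈ letters G, x ∈ Allowed m σ) (hT : topL m ∈ letters G)
    (hJ : ∀ x ∈ letters G, kap d a x G < J) :
    phi d (FreeGroup.map (lam a b) G) = CC d a G +
      (if yL m ∈ hbAt (topL m) G ∧
        (d (b (Fin.last m))).1 (KK d a N G) < (d (a (Fin.last m))).1 (KK d a N G)
        then 1 else 0) := by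
  classical
  set t := a (Fin.last m) with ht
  -- injectivity on allowed letters
  have hba : ∀ i j : Fin (m + 1), b i = a j → i = j := by
    intro i j hij
    by_contra hij2
    obtain ⟨k, hk, hne2⟩ := hsep i j hij2
    apply hne2
    rw [← hagree i k hk, hij]
  have hinj : Set.InjOn (lam a b) (Allowed m σ) := by
    have key : ∀ i j : Fin (m + 1), Sum.inl i ∈ Allowed m σ → b i = a j → False := by
      intro i j hi hij
      have := hba i j hij
      subst this
      induction i using Fin.lastCases with
      | last => exact absurd hij (hbt _).ne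
      | cast l =>
        have := (hσ l).1 hij
        exact hi l this rfl
    rintro (i | i) hi (j | j) hj hij
    · exact congrArg Sum.inl (hb.injective hij)
    · exact (key i j hi hij).elim
    · exact (key j i hj hij.symm).elim
    · exact congrArg Sum.inr (ha.injective hij)
  have hinjG : Set.InjOn (lam a b) (letters G) := hinj.mono (fun x hx => hG x hx)
  have hlet : letters (FreeGroup.map (lam a b) G) = (letters G).image (lam a b) :=
    letters_map_of_injOn hinjG
  have htmem : t ∈ letters (FreeGroup.map (lam a b) G) := by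
    rw [hlet]
    exact Finset.mem_image.2 ⟨topL m, hT, rfl⟩
  have hmax : ∀ x ∈ letters (FreeGroup.map (lam a b) G), x ≤ t := by
    intro x hx
    rw [hlet, Finset.mem_image] at hx
    obtain ⟨y, hy, rfl⟩ := hx
    rcases y with i | i
    · exact (hbt i).le
    · exact ha.monotone (Fin.le_last i)
  rw [phi_eq_phiAt d htmem hmax]
  unfold phiAt
  have hhb : hbAt t (FreeGroup.map (lam a b) G) = (hbAt (topL m) G).image (lam a b) :=
    hbAt_map_of_injOn hinjG hT
  rw [hhb, Finset.sum_image (fun x hx y hy h => hinjG (hbAt_subset _ _ hx) (hbAt_subset _ _ hy) h)]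
  -- digits
  have hlen : ∀ (x' : Let m) (n : ℕ), n ≤ N →
      dig (d (lam a b x')).2 n = dig (d (a (idx x'))).2 n := by
    intro x' n hn
    rw [dig_eq_iff]
    intro k hk
    rcases x' with i | i
    · exact hagree i k (lt_of_lt_of_le hk hn)
    · rfl
  -- terms other than the critical letter
  have hterm : ∀ x ∈ (hbAt (topL m) G).erase (yL m),
      (if (d (lam a b x)).1 (kk d (lam a b x) t (FreeGroup.map (lam a b) G)) <
          (d t).1 (kk d (lam a b x) t (FreeGroup.map (lam a b) G)) then (1 : ZMod 3) else 0) =
      if (d (a (idx x))).1 (kap d a x G) < (d t).1 (kap d a x G) then 1 else 0 := by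
    intro x hx
    rw [Finset.mem_erase] at hx
    obtain ⟨hxy, hxh⟩ := hx
    have hxG := hbAt_subset _ _ hxh
    have hxT : x ≠ topL m := fun h => not_mem_hbAt _ _ (h ▸ hxh)
    -- `idx x` is not the last index
    have hidx : idx x ≠ Fin.last m := by
      rcases x with i | i
      · intro h
        exact hxy (congrArg Sum.inl h)
      · intro h
        exact hxT (congrArg Sum.inr h)
    obtain ⟨k0, hk0, hk0ne⟩ := hsep _ _ hidx
    have hfdN : fd (d (a (idx x))).2 (d t).2 < N := by
      by_contra hcon
      push Not at hcon
      exact hk0ne (eq_of_lt_fd (lt_of_lt_of_le hk0 hcon))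
    have hfd : fd (d (lam a b x)).2 (d t).2 = fd (d (a (idx x))).2 (d t).2 := by
      apply fd_eq_of
      · intro i hi
        have h1 : (d (a (idx x))).2 i = (d t).2 i := eq_of_lt_fd hi
        rw [← h1]
        have := (dig_eq_iff.1 (hlen x N le_rfl)) i (by omega)
        exact this
      · have h1 : (d (a (idx x))).2 (fd (d (a (idx x))).2 (d t).2) ≠
            (d t).2 (fd (d (a (idx x))).2 (d t).2) := fd_ne (hne _ _ hidx)
        have := (dig_eq_iff.1 (hlen x N le_rfl)) (fd (d (a (idx x))).2 (d t).2) hfdN
        rw [this]
        exact h1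
    have hkk : kk d (lam a b x) t (FreeGroup.map (lam a b) G) = kap d a x G := by
      unfold kk kap
      rw [hfd, map.comp]
      congr 1
      apply map_congr_letters
      intro x' hx'
      exact hlen x' _ (by omega)
    rw [hkk]
    rcases x with i | i
    · -- `x = inl i`
      have hi : i ≠ Fin.last m := hidx
      obtain ⟨l, rfl⟩ := Fin.exists_castSucc_eq.2 hi
      have h2 := hbits l (kap d a (Sum.inl l.castSucc) G) (hJ _ hxG)
      have h3 : (d (lam a b (Sum.inl l.castSucc))) = d (b l.castSucc) := rfl
      have h4 : a (idx (Sum.inl l.castSucc : Let m)) = a l.castSucc := rfl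
      rw [h3, h4]
      simp only [h2]
    · rfl
  by_cases hy : yL m ∈ hbAt (topL m) G
  · rw [← Finset.sum_erase_add _ _ hy, Finset.sum_congr rfl hterm]
    have hfd : fd (d (b (Fin.last m))).2 (d t).2 = N := by
      apply fd_eq_of
      · intro i hi
        exact hagree _ i hi
      · exact hdiff
    have hkk : kk d (lam a b (yL m)) t (FreeGroup.map (lam a b) G) = KK d a N G := by
      unfold kk KK
      have h3 : lam a b (yL m) = b (Fin.last m) := rfl
      rw [h3, hfd, map.comp]
      congr 1
      apply map_congr_letters
      intro x' hx'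
      unfold eta
      simp only [Function.comp_apply]
      split_ifs with hx'y
      · subst hx'y
        rw [h3]
        unfold dig
        rw [List.range_succ, List.map_append]
        congr 1
        · rw [List.map_inj_left]
          intro k hk
          rw [List.mem_range] at hk
          exact hagree _ k hk
        · simp only [List.map_cons, List.map_nil, List.cons.injEq, and_true]
          cases h5 : (d (b (Fin.last m))).2 N <;> cases h6 : (d (a (Fin.last m))).2 N <;>
            simp_all
      · rw [dig_eq_iff]
        intro k hk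
        rcases x' with i | i
        · have hi : i ≠ Fin.last m := fun h => hx'y (congrArg Sum.inl h)
          obtain ⟨l, rfl⟩ := Fin.exists_castSucc_eq.2 hi
          rcases Nat.lt_succ_iff_lt_or_eq.1 hk with h | h
          · exact hagree _ k h
          · subst h
            exact hagree' l
        · rfl
    rw [hkk]
    unfold CC
    congr 1
    have h3 : lam a b (yL m) = b (Fin.last m) := rfl
    rw [h3]
    simp only [hy, true_and]
  · have h1 : (hbAt (topL m) G).erase (yL m) = hbAt (topL m) G := Finset.erase_eq_of_notMem hy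
    rw [if_neg (fun h => hy h.1), add_zero]
    unfold CC
    rw [h1]
    rw [h1] at hterm
    exact Finset.sum_congr rfl hterm

end

end Pool.Agent.Helper46
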