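import Mathlib
import Pool.Agent.Helper46.LocalFormula

/-!
The core contradiction: the value of the form on two vectors of the same type, with prescribed
sign patterns, cannot be constant.
-/

set_option autoImplicit false
set_option linter.unusedSectionVars false
set_option linter.unusedVariables false

namespace Pool.Agent.Helper46

open FreeGroup

section

variable {m : ℕ}

noncomputable def eY (σ : Finset (Fin m)) (i : Fin (m + 1)) : Let m := by
  classical
  exact if ∃ l ∈ σ, i = l.castSucc then Sum.inr i else Sum.inl i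

theorem idx_eY (σ : Finset (Fin m)) (i : Fin (m + 1)) : idx (eY σ i) = i := by
  unfold eY
  split_ifs <;> rfl

theorem eY_injective (σ : Finset (Fin m)) : Function.Injective (eY σ) := by
  intro i j h
  rw [← idx_eY σ i, ← idx_eY σ j, h]

theorem eY_last (σ : Finset (Fin m)) : eY σ (Fin.last m) = yL m := by
  classical
  unfold eY
  rw [if_neg]
  rintro ⟨l, _, h⟩
  exact (Fin.castSucc_lt_last l).ne h.symm

theorem eY_ne_top (σ : Finset (Fin m)) (i : Fin (m + 1)) : eY σ i ≠ topL m := by
  classical
  unfold eY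
  split_ifs with h
  · obtain ⟨l, _, rfl⟩ := h
    intro h2
    exact (Fin.castSucc_lt_last l).ne (Sum.inr_injective h2)
  · intro h2
    cases h2

theorem eY_allowed (σ : Finset (Fin m)) (i : Fin (m + 1)) : eY σ i ∈ Allowed m σ := by
  classical
  intro l hl
  unfold eY
  split_ifs with h
  · intro h2; cases h2
  · intro h2
    apply h
    exact ⟨l, hl, Sum.inl_injective h2⟩

theorem inr_allowed (σ : Finset (Fin m)) (i : Fin (m + 1)) :
    (Sum.inr i : Let m) ∈ Allowed m σ := by
  intro l hl h2
  cases h2

noncomputable def GG (σ : Finset (Fin m)) (u u' : FreeGroup (Fin (m + 1))) : FreeGroup (Let m) :=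
  (FreeGroup.map (eY σ) u)⁻¹ * FreeGroup.map Sum.inr u'

theorem top_not_mem_eY (σ : Finset (Fin m)) (u : FreeGroup (Fin (m + 1))) :
    topL m ∉ letters (FreeGroup.map (eY σ) u) := by
  intro h
  have := letters_map_subset _ _ h
  rw [Finset.mem_image] at this
  obtain ⟨i, _, hi⟩ := this
  exact eY_ne_top σ i hi

theorem y_not_mem_inr (u : FreeGroup (Fin (m + 1))) :
    yL m ∉ letters (FreeGroup.map (Sum.inr : Fin (m + 1) → Let m) u) := by
  intro h
  have := letters_map_subset _ _ h
  rw [Finset.mem_image] at this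
  obtain ⟨i, _, hi⟩ := this
  cases hi

theorem top_mem_inr {u : FreeGroup (Fin (m + 1))} (hu : Fin.last m ∈ letters u) :
    topL m ∈ letters (FreeGroup.map (Sum.inr : Fin (m + 1) → Let m) u) := by
  rw [letters_map_of_injOn Sum.inr_injective.injOn]
  exact Finset.mem_image_of_mem _ hu

theorem top_mem_GG (σ : Finset (Fin m)) (u : FreeGroup (Fin (m + 1)))
    {u' : FreeGroup (Fin (m + 1))} (hu' : Fin.last m ∈ letters u') :
    topL m ∈ letters (GG σ u u') := by
  have h1 : FreeGroup.map (Sum.inr : Fin (m + 1) → Let m) u' =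
      FreeGroup.map (eY σ) u * GG σ u u' := by
    unfold GG
    group
  have h2 := top_mem_inr hu'
  rw [h1] at h2
  have := letters_mul_subset _ _ h2
  rw [Finset.mem_union] at this
  rcases this with h | h
  · exact absurd h (top_not_mem_eY σ u)
  · exact h

theorem GG_allowed (σ : Finset (Fin m)) (u u' : FreeGroup (Fin (m + 1))) :
    ∀ x ∈ letters (GG σ u u'), x ∈ Allowed m σ := by
  intro x hx
  have := letters_mul_subset _ _ hx
  rw [Finset.mem_union, letters_inv] at this
  rcases this with h | h
  · have := letters_map_subset _ _ h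
    rw [Finset.mem_image] at this
    obtain ⟨i, _, rfl⟩ := this
    exact eY_allowed σ i
  · have := letters_map_subset _ _ h
    rw [Finset.mem_image] at this
    obtain ⟨i, _, rfl⟩ := this
    exact inr_allowed σ i

theorem y_mem_hb_GG (σ : Finset (Fin m)) (u : FreeGroup (Fin (m + 1)))
    {u' : FreeGroup (Fin (m + 1))} (hu' : Fin.last m ∈ letters u') :
    yL m ∈ hbAt (topL m) (GG σ u u') ↔ Fin.last m ∈ letters u := by
  constructor
  · intro h
    rcases mem_letters_of_mem_hbAt_mul h with h | h
    · rw [letters_inv] at h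
      have := letters_map_subset _ _ h
      rw [Finset.mem_image] at this
      obtain ⟨i, hi, hi2⟩ := this
      have h3 : i = Fin.last m := by
        rw [← idx_eY σ i, hi2]
        rfl
      exact h3 ▸ hi
    · exact absurd h (y_not_mem_inr u')
  · intro h
    unfold GG
    apply mem_hbAt_mul_left
    · rw [letters_inv]; exact top_not_mem_eY σ u
    · exact top_mem_inr hu'
    · rw [letters_inv, letters_map_of_injOn (eY_injective σ).injOn, ← eY_last σ]
      exact Finset.mem_image_of_mem _ h
    · exact y_not_mem_inr u'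

theorem y_not_mem_hb_GG_inv (σ : Finset (Fin m)) (u : FreeGroup (Fin (m + 1)))
    {u' : FreeGroup (Fin (m + 1))} (hu' : Fin.last m ∈ letters u') :
    yL m ∉ hbAt (topL m) (GG σ u u')⁻¹ := by
  have h1 : (GG σ u u')⁻¹ = (FreeGroup.map Sum.inr u')⁻¹ * FreeGroup.map (eY σ) u := by
    unfold GG
    group
  rw [h1]
  intro h
  have h2 := hbAt_mul_right (top_not_mem_eY σ u) (by rw [letters_inv]; exact top_mem_inr hu') h
  rw [letters_inv] at h2
  exact y_not_mem_inr u' h2

end

theorem dig_take (δ : ℕ → Bool) (N : ℕ) : (dig δ (N + 1)).take N = dig δ N := by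
  unfold dig
  rw [← List.map_take, List.take_range]
  simp

section

variable {S : Type*} [LinearOrder S] (d : S → Dat) {m : ℕ} (a b : Fin (m + 1) → S)

/-- `b` is close to `a` (apart from the top letters, which have the same digits below `N` and
different `N`-th digit). -/
structure Good (N J : ℕ) (σ : Finset (Fin m)) : Prop where
  hb : StrictMono b
  hbt : ∀ i, b i < a (Fin.last m)
  hagree : ∀ i : Fin (m + 1), ∀ k < N, (d (b i)).2 k = (d (a i)).2 k
  hagree' : ∀ l : Fin m, (d (b l.castSucc)).2 N = (d (a l.castSucc)).2 N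
  hdiff : (d (b (Fin.last m))).2 N ≠ (d (a (Fin.last m))).2 N
  hσ : ∀ l : Fin m, b l.castSucc = a l.castSucc ↔ l ∈ σ
  hbits : ∀ l : Fin m, ∀ k < J, ((d (b l.castSucc)).1 k < (d (a (Fin.last m))).1 k ↔
      (d (a l.castSucc)).1 k < (d (a (Fin.last m))).1 k)

variable {d a b}

theorem pair_formula (N J : ℕ) (σ : Finset (Fin m))
    (ha : StrictMono a)
    (hne : ∀ i j : Fin (m + 1), i ≠ j → (d (a i)).2 ≠ (d (a j)).2)
    (hsep : ∀ i j : Fin (m + 1), i ≠ j → ∃ k < N, (d (a i)).2 k ≠ (d (a j)).2 k)
    (hgood : Good d a b N J σ)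
    (u : FreeGroup (Fin (m + 1))) {u' : FreeGroup (Fin (m + 1))} (hu' : Fin.last m ∈ letters u')
    (hJ1 : ∀ x ∈ letters (GG σ u u'), kap d a x (GG σ u u') < J)
    (hJ2 : ∀ x ∈ letters (GG σ u u'), kap d a x (GG σ u u')⁻¹ < J) :
    ff d ((FreeGroup.map b u)⁻¹ * FreeGroup.map a u') =
      (CC d a (GG σ u u') - CC d a (GG σ u u')⁻¹) +
      (if Fin.last m ∈ letters u ∧ (d (b (Fin.last m))).1 (KK d a N (GG σ u u')) <
        (d (a (Fin.last m))).1 (KK d a N (GG σ u u')) then 1 else 0) := by
  classical
  have hlam : (FreeGroup.map b u)⁻¹ * FreeGroup.map a u' =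
      FreeGroup.map (lam a b) (GG σ u u') := by
    unfold GG
    rw [_root_.map_mul, _root_.map_inv, map.comp, map.comp]
    congr 2
    congr 1
    congr 1
    funext i
    simp only [Function.comp_apply]
    unfold eY
    split_ifs with h
    · obtain ⟨l, hl, rfl⟩ := h
      exact (hgood.hσ l).2 hl
    · rfl
  have h1 := phi_lam (d := d) (a := a) (b := b) N J σ ha hgood.hb hgood.hbt hne hsep hgood.hagree
    hgood.hagree' hgood.hdiff hgood.hσ hgood.hbits (GG σ u u') (GG_allowed σ u u')
    (top_mem_GG σ u hu') hJ1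
  have h2 := phi_lam (d := d) (a := a) (b := b) N J σ ha hgood.hb hgood.hbt hne hsep hgood.hagree
    hgood.hagree' hgood.hdiff hgood.hσ hgood.hbits (GG σ u u')⁻¹
    (by rw [letters_inv]; exact GG_allowed σ u u')
    (by rw [letters_inv]; exact top_mem_GG σ u hu') (by rw [letters_inv]; exact hJ2)
  rw [if_neg (fun h => y_not_mem_hb_GG_inv σ u hu' h.1), add_zero] at h2
  unfold ff
  rw [hlam, ← _root_.map_inv, h1, h2]
  simp only [y_mem_hb_GG σ u hu']
  ring

theorem core (N : ℕ) (σ : Finset (Fin m)) (ha : StrictMono a)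
    (hne : ∀ i j : Fin (m + 1), i ≠ j → (d (a i)).2 ≠ (d (a j)).2)
    (hsep : ∀ i j : Fin (m + 1), i ≠ j → ∃ k < N, (d (a i)).2 k ≠ (d (a j)).2 k)
    (v0 : FreeGroup (Fin (m + 1)) →₀ ZMod 3) (q1 : ZMod 3)
    (hv0 : ∃ u ∈ v0.support, Fin.last m ∈ letters u)
    (H : ∀ (J : ℕ) (ε : ℕ → Bool), ∃ b : Fin (m + 1) → S, Good d a b N J σ ∧
      (∀ j < J, (ε j = true → (d (b (Fin.last m))).1 j < (d (a (Fin.last m))).1 j) ∧
        (ε j = false → (d (a (Fin.last m))).1 j < (d (b (Fin.last m))).1 j)) ∧
      ∑ u ∈ v0.support, ∑ u' ∈ v0.support.filter (fun u => Fin.last m ∈ letters u),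
        v0 u * v0 u' * ff d ((FreeGroup.map b u)⁻¹ * FreeGroup.map a u') = q1) : False := by
  classical
  set I := v0.support.filter (fun u => Fin.last m ∈ letters u) with hI
  have hIne : I.Nonempty := by
    obtain ⟨u, hu, hu2⟩ := hv0
    exact ⟨u, Finset.mem_filter.2 ⟨hu, hu2⟩⟩
  -- injectivity of the two letter codings
  have hη2 : Function.Injective (fun i : Fin (m + 1) => eta d a N (Sum.inr i)) := by
    intro i j hij
    by_contra hij2
    obtain ⟨k, hk, hk2⟩ := hsep i j hij2
    simp only [eta] at hij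
    rw [if_neg (by intro h; cases h), if_neg (by intro h; cases h), dig_eq_iff] at hij
    exact hk2 (hij k (by omega))
  have hηtake : ∀ x : Let m, (eta d a N x).take N = dig (d (a (idx x))).2 N := by
    intro x
    unfold eta
    split_ifs with h
    · subst h
      rw [List.take_append_of_le_length (by simp)]
      rw [List.take_of_length_le (by simp)]
      rfl
    · exact dig_take _ _
  have hη1 : Function.Injective (fun i : Fin (m + 1) => eta d a N (eY σ i)) := by
    intro i j hij
    by_contra hij2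
    obtain ⟨k, hk, hk2⟩ := hsep i j hij2
    have h := congrArg (List.take N) hij
    simp only [hηtake, idx_eY] at h
    rw [dig_eq_iff] at h
    exact hk2 (h k hk)
  -- the key of a pair
  have hKK : ∀ u u', KK d a N (GG σ u u') =
      code ((FreeGroup.map (fun i => eta d a N (eY σ i)) u)⁻¹ *
        FreeGroup.map (fun i => eta d a N (Sum.inr i)) u') := by
    intro u u'
    unfold KK GG
    rw [_root_.map_mul, _root_.map_inv, map.comp, map.comp]
    rfl
  obtain ⟨u0, hu0, u0', hu0', huniq⟩ := exists_unique_pair I hIne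
    (fun u => FreeGroup.map (fun i => eta d a N (eY σ i)) u)
    (fun u => FreeGroup.map (fun i => eta d a N (Sum.inr i)) u)
    (map_injective hη1).injOn (map_injective hη2).injOn
  set κ0 := KK d a N (GG σ u0 u0') with hκ0
  -- a bound for all keys
  obtain ⟨J, hJ⟩ : ∃ J : ℕ, ∀ u ∈ v0.support, ∀ u' ∈ v0.support,
      (∀ x ∈ letters (GG σ u u'), kap d a x (GG σ u u') < J ∧ kap d a x (GG σ u u')⁻¹ < J) ∧
      KK d a N (GG σ u u') < J := by
    let F1 : Finset ℕ := (v0.support ×ˢ v0.support).biUnion (fun uu =>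
      ((letters (GG σ uu.1 uu.2)).image (fun x => kap d a x (GG σ uu.1 uu.2))) ∪
      ((letters (GG σ uu.1 uu.2)).image (fun x => kap d a x (GG σ uu.1 uu.2)⁻¹)) ∪
      {KK d a N (GG σ uu.1 uu.2)})
    refine ⟨F1.sup id + 1, ?_⟩
    intro u hu u' hu'
    have hsub : ∀ k, k ∈ ((letters (GG σ u u')).image (fun x => kap d a x (GG σ u u'))) ∪
      ((letters (GG σ u u')).image (fun x => kap d a x (GG σ u u')⁻¹)) ∪
      {KK d a N (GG σ u u')} → k < F1.sup id + 1 := by
      intro k hk
      have : k ∈ F1 := Finset.mem_biUnion.2 ⟨(u, u'), Finset.mem_product.2 ⟨hu, hu'⟩, hk⟩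
      exact Nat.lt_succ_of_le (Finset.le_sup (f := id) this)
    refine ⟨fun x hx => ⟨?_, ?_⟩, ?_⟩
    · apply hsub
      rw [Finset.mem_union, Finset.mem_union]
      exact Or.inl (Or.inl (Finset.mem_image_of_mem _ hx))
    · apply hsub
      rw [Finset.mem_union, Finset.mem_union]
      exact Or.inl (Or.inr (Finset.mem_image.2 ⟨x, hx, rfl⟩))
    · apply hsub
      rw [Finset.mem_union]
      exact Or.inr (Finset.mem_singleton_self _)
  -- the value of the sum for a given pattern
  have hval : ∀ ε : ℕ → Bool,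
      ∑ u ∈ v0.support, ∑ u' ∈ I, v0 u * v0 u' *
        (CC d a (GG σ u u') - CC d a (GG σ u u')⁻¹) +
      ∑ u ∈ I, ∑ u' ∈ I, v0 u * v0 u' * (if ε (KK d a N (GG σ u u')) = true then 1 else 0) =
        q1 := by
    intro ε
    obtain ⟨b, hb, hpat, hsum⟩ := H J ε
    rw [← hsum, hI, Finset.sum_filter (s := v0.support), ← Finset.sum_add_distrib]
    apply Finset.sum_congr rfl
    intro u hu
    have h1 : (if Fin.last m ∈ letters u then ∑ u' ∈ Finset.filter
        (fun u => Fin.last m ∈ letters u) v0.support, v0 u * v0 u' *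
          (if ε (KK d a N (GG σ u u')) = true then (1 : ZMod 3) else 0) else 0) =
        ∑ u' ∈ Finset.filter (fun u => Fin.last m ∈ letters u) v0.support, v0 u * v0 u' *
          (if Fin.last m ∈ letters u ∧ ε (KK d a N (GG σ u u')) = true then (1 : ZMod 3)
            else 0) := by
      by_cases h : Fin.last m ∈ letters u
      · simp only [h, if_true, true_and]
      · simp only [h, if_false, false_and]
        simp
    rw [h1, ← Finset.sum_add_distrib]
    apply Finset.sum_congr rfl
    intro u' hu'
    rw [Finset.mem_filter] at hu'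
    have hJJ := hJ u hu u' hu'.1
    have h2 := pair_formula (d := d) (a := a) (b := b) N J σ ha hne hsep hb u hu'.2
      (fun x hx => (hJJ.1 x hx).1) (fun x hx => (hJJ.1 x hx).2)
    rw [h2]
    have h3 : (d (b (Fin.last m))).1 (KK d a N (GG σ u u')) <
        (d (a (Fin.last m))).1 (KK d a N (GG σ u u')) ↔ ε (KK d a N (GG σ u u')) = true := by
      have h4 := hpat _ hJJ.2
      cases h5 : ε (KK d a N (GG σ u u')) with
      | true => simp only [iff_true]; exact h4.1 h5
      | false =>
        simp only [Bool.false_eq_true, iff_false, not_lt]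
        exact (h4.2 h5).le
    simp only [h3]
    ring
  have e1 := hval (fun _ => false)
  have e2 := hval (fun k => decide (k = κ0))
  have e3 : ∑ u ∈ I, ∑ u' ∈ I, v0 u * v0 u' *
      (if (fun _ : ℕ => false) (KK d a N (GG σ u u')) = true then (1 : ZMod 3) else 0) = 0 := by
    apply Finset.sum_eq_zero
    intro u _
    apply Finset.sum_eq_zero
    intro u' _
    simp
  have e4 : ∑ u ∈ I, ∑ u' ∈ I, v0 u * v0 u' *
      (if (fun k => decide (k = κ0)) (KK d a N (GG σ u u')) = true then (1 : ZMod 3) else 0) =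
      v0 u0 * v0 u0' := by
    rw [Finset.sum_eq_single u0, Finset.sum_eq_single u0']
    · simp [hκ0]
    · intro u' hu' hne'
      have : KK d a N (GG σ u0 u') ≠ κ0 := by
        intro h
        rw [hκ0, hKK, hKK] at h
        exact hne' (huniq u0 hu0 u' hu' (code_injective h)).2
      simp [this]
    · intro h
      exact absurd hu0' h
    · intro u hu hne'
      apply Finset.sum_eq_zero
      intro u' hu'
      have : KK d a N (GG σ u u') ≠ κ0 := by
        intro h
        rw [hκ0, hKK, hKK] at h
        exact hne' (huniq u hu u' hu' (code_injective h)).1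
      simp [this]
    · intro h
      exact absurd hu0 h
  rw [e3, add_zero] at e1
  rw [e4, e1] at e2
  have e5 : v0 u0 * v0 u0' = 0 := by
    have := e2
    exact left_eq_add.1 this.symm
  rcases mul_eq_zero.1 e5 with h | h
  · exact (Finsupp.mem_support_iff.1 (Finset.mem_filter.1 hu0).1) h
  · exact (Finsupp.mem_support_iff.1 (Finset.mem_filter.1 hu0').1) h

end

end Pool.Agent.Helper46
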