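import Mathlib
import Pool.Agent.Helper46.Core

/-!
Theorem A: on the group ring `F_3[Free(S)]` there is an invariant form all of whose isotropic sets
are bounded.
-/

set_option autoImplicit false
set_option linter.unusedSectionVars false
set_option linter.unusedVariables false

namespace Pool.Agent.Helper46

open FreeGroup Cardinal Set Topology

theorem small_iUnion {ι α : Type} {κ : Cardinal} (hκ : ℵ₀ ≤ κ) (A : ι → Set α) (hι : #ι ≤ κ)
    (hA : ∀ i, #(A i) ≤ κ) : #(⋃ i, A i : Set α) ≤ κ := by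
  refine (mk_iUnion_le_sum_mk).trans ?_
  refine (Cardinal.sum_le_sum _ (fun _ => κ) hA).trans ?_
  rw [Cardinal.sum_const']
  calc #ι * κ ≤ κ * κ := mul_le_mul_left hι κ
    _ = κ := mul_eq_self hκ

theorem small_of_countable {α : Type} {κ : Cardinal} (hκ : ℵ₀ ≤ κ) {A : Set α}
    (hA : A.Countable) : #A ≤ κ := by
  have := hA.to_subtype
  exact (Cardinal.mk_le_aleph0).trans hκ

theorem small_union {α : Type} {κ : Cardinal} (hκ : ℵ₀ ≤ κ) {A B : Set α}
    (hA : #A ≤ κ) (hB : #B ≤ κ) : #(A ∪ B : Set α) ≤ κ :=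
  (mk_union_le A B).trans ((add_le_add hA hB).trans (add_eq_self hκ).le)

theorem small_type {ι : Type} [Countable ι] {κ : Cardinal} (hκ : ℵ₀ ≤ κ) : #ι ≤ κ :=
  (Cardinal.mk_le_aleph0).trans hκ

section

variable {S : Type} [LinearOrder S]

/-- The vector with shape `v0` and letters `a`. -/
noncomputable def vec {m : ℕ} (a : Fin (m + 1) → S) (v0 : FreeGroup (Fin (m + 1)) →₀ ZMod 3) :
    FreeGroup S →₀ ZMod 3 := Finsupp.mapDomain (FreeGroup.map a) v0

theorem Bf_vec (F : FreeGroup S → ZMod 3) {m : ℕ} (a b : Fin (m + 1) → S)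
    (v0 : FreeGroup (Fin (m + 1)) →₀ ZMod 3) :
    Bf F (vec b v0) (vec a v0) = ∑ u ∈ v0.support, ∑ u' ∈ v0.support,
      v0 u * v0 u' * F ((FreeGroup.map b u)⁻¹ * FreeGroup.map a u') := by
  unfold vec
  rw [Bf_mapDomain]
  rfl

/-- Every vector with letters is of the form `vec a v0`. -/
theorem exists_vec (v : FreeGroup S →₀ ZMod 3) {g : FreeGroup S} (hg : g ∈ v.support)
    {x : S} (hx : x ∈ letters g) : ∃ (m : ℕ) (v0 : FreeGroup (Fin (m + 1)) →₀ ZMod 3)
      (a : Fin (m + 1) → S), StrictMono a ∧ vec a v0 = v ∧ x ≤ a (Fin.last m) ∧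
      ∃ u ∈ v0.support, Fin.last m ∈ letters u := by
  classical
  set L : Finset S := v.support.biUnion letters with hL
  have hxL : x ∈ L := Finset.mem_biUnion.2 ⟨g, hg, hx⟩
  have hcard : 0 < L.card := Finset.card_pos.2 ⟨x, hxL⟩
  obtain ⟨m, hm⟩ : ∃ m, L.card = m + 1 := ⟨L.card - 1, by omega⟩
  obtain ⟨a, hmono, hrange⟩ : ∃ a : Fin (m + 1) → S, StrictMono a ∧ Set.range a = L :=
    ⟨fun i => L.orderEmbOfFin hm i, (L.orderEmbOfFin hm).strictMono,
      Finset.range_orderEmbOfFin L hm⟩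
  set r : S → Fin (m + 1) := Function.invFun a with hr
  have hra : ∀ i, r (a i) = i := Function.leftInverse_invFun hmono.injective
  have har : ∀ y ∈ L, a (r y) = y := by
    intro y hy
    have : y ∈ Set.range a := by rw [hrange]; exact hy
    obtain ⟨i, rfl⟩ := this
    rw [hra]
  set v0 := Finsupp.mapDomain (FreeGroup.map r) v with hv0
  have hvec : vec a v0 = v := by
    unfold vec
    rw [hv0, ← Finsupp.mapDomain_comp]
    conv_rhs => rw [← Finsupp.mapDomain_id (v := v)]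
    apply Finsupp.mapDomain_congr
    intro h hh
    simp only [Function.comp_apply, id]
    rw [map.comp]
    have h1 : FreeGroup.map (a ∘ r) h = FreeGroup.map _root_.id h := by
      apply map_congr_letters
      intro y hy
      exact har y (Finset.mem_biUnion.2 ⟨h, hh, hy⟩)
    rw [h1, map.id]
  refine ⟨m, v0, a, hmono, hvec, ?_, ?_⟩
  · have : x ∈ Set.range a := by rw [hrange]; exact hxL
    obtain ⟨i, rfl⟩ := this
    exact hmono.monotone (Fin.le_last i)
  · have hlast : a (Fin.last m) ∈ L := by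
      have : a (Fin.last m) ∈ (L : Set S) := by rw [← hrange]; exact ⟨_, rfl⟩
      exact this
    rw [hL, Finset.mem_biUnion] at hlast
    obtain ⟨h, hh, hh2⟩ := hlast
    rw [← hvec] at hh
    have h1 := Finsupp.mapDomain_support hh
    rw [Finset.mem_image] at h1
    obtain ⟨u, hu, rfl⟩ := h1
    refine ⟨u, hu, ?_⟩
    have h2 := letters_map_subset _ _ hh2
    rw [Finset.mem_image] at h2
    obtain ⟨i, hi, hi2⟩ := h2
    have := hmono.injective hi2
    exact this ▸ hi

variable (S) in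
/-- The parameters: sequences of letter tuples etc. -/
def toSeq (e : S → ℕ → ℕ → S) (ζ : S) (m : ℕ) : ℕ → Fin (m + 1) → S :=
  fun n i => e ζ n i

/-- The letters `α` followed by `t`. -/
def sn {m : ℕ} (t : S) (α : Fin m → Set.Iio t) : Fin (m + 1) → S :=
  Fin.snoc (α := fun _ => S) (fun l => (α l : S)) t

/-- Lower data. -/
def Xf {m : ℕ} (c : S → Dat) (D : ℕ → Fin (m + 1) → S) : ℕ → (Fin m → Dat) :=
  fun n l => c (D n l.castSucc)

/-- Top data. -/
def Yf {m : ℕ} (c : S → Dat) (D : ℕ → Fin (m + 1) → S) : ℕ → Dat :=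
  fun n => c (D n (Fin.last m))

noncomputable def patf {m : ℕ} (c : S → Dat) (t : S) (v0 : FreeGroup (Fin (m + 1)) →₀ ZMod 3)
    (D : ℕ → Fin (m + 1) → S) (α : Fin m → Set.Iio t) (n : ℕ) : ZMod 3 × Finset (Fin m) := by
  classical
  exact (∑ u ∈ v0.support, ∑ u' ∈ v0.support.filter (fun u => ¬ Fin.last m ∈ letters u),
    v0 u * v0 u' * ff c ((FreeGroup.map (D n) u)⁻¹ * FreeGroup.map (sn t α) u'),
    Finset.univ.filter (fun l => D n l.castSucc = α l))

/-- Genericity at `t`. -/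
def GenAt (e : S → ℕ → ℕ → S) (d : S → Dat) (t : S) : Prop :=
  (∀ (m : ℕ) (v0 : FreeGroup (Fin (m + 1)) →₀ ZMod 3) (ζ : Set.Iio t) (α : Fin m → Set.Iio t)
    (q : ZMod 3 × Finset (Fin m)),
    (∀ (τ : List Bool) (I : List (ℕ × ℚ × ℚ)) (J : ℕ),
      (d t).1 J ∉ Edge (T1 (Xf (cut t d) (toSeq S e ζ m)) (Yf (cut t d) (toSeq S e ζ m))
        (fun l => cut t d (α l))
        (Eset (Yf (cut t d) (toSeq S e ζ m)) (patf (cut t d) t v0 (toSeq S e ζ m) α) q τ I)
        J (trunc J (d t).1))) ∧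
    (d t).2 ∉ Iso (T2 (Xf (cut t d) (toSeq S e ζ m)) (Yf (cut t d) (toSeq S e ζ m))
        (fun l => cut t d (α l))
        (Eset (Yf (cut t d) (toSeq S e ζ m)) (patf (cut t d) t v0 (toSeq S e ζ m) α) q [] [])
        (d t).1)) ∧
  (∀ x < t, (∀ J, (d x).1 J ≠ (d t).1 J) ∧ (d x).2 ≠ (d t).2)

theorem exists_genAt [WellFoundedLT S] (hcard : ∀ t : S, #(Set.Iio t) < 𝔠)
    (e : S → ℕ → ℕ → S) : ∃ d : S → Dat, ∀ t, GenAt e d t := by
  classical
  let Bad1 : S → (S → Dat) → ℕ → (ℕ → ℝ) → Set ℝ := fun t c J b =>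
    (⋃ (m : ℕ), ⋃ (v0 : FreeGroup (Fin (m + 1)) →₀ ZMod 3), ⋃ (ζ : Set.Iio t),
      ⋃ (α : Fin m → Set.Iio t), ⋃ (q : ZMod 3 × Finset (Fin m)), ⋃ (τ : List Bool),
      ⋃ (I : List (ℕ × ℚ × ℚ)),
      Edge (T1 (Xf c (toSeq S e ζ m)) (Yf c (toSeq S e ζ m)) (fun l => c (α l))
        (Eset (Yf c (toSeq S e ζ m)) (patf c t v0 (toSeq S e ζ m) α) q τ I) J b)) ∪
    ⋃ (x : Set.Iio t), {(c x).1 J}
  let Bad2 : S → (S → Dat) → (ℕ → ℝ) → Set (ℕ → Bool) := fun t c b =>
    (⋃ (m : ℕ), ⋃ (v0 : FreeGroup (Fin (m + 1)) →₀ ZMod 3), ⋃ (ζ : Set.Iio t),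
      ⋃ (α : Fin m → Set.Iio t), ⋃ (q : ZMod 3 × Finset (Fin m)),
      Iso (T2 (Xf c (toSeq S e ζ m)) (Yf c (toSeq S e ζ m)) (fun l => c (α l))
        (Eset (Yf c (toSeq S e ζ m)) (patf c t v0 (toSeq S e ζ m) α) q [] []) b)) ∪
    ⋃ (x : Set.Iio t), {(c x).2}
  have hpow : ∀ (t : S) (m : ℕ), #(Fin m → Set.Iio t) ≤ max ℵ₀ #(Set.Iio t) := by
    intro t m
    have h1 : #(Fin m → Set.Iio t) = #(Set.Iio t) ^ (m : Cardinal) := by
      simp
    rw [h1]
    exact (power_nat_le_max).trans (by rw [max_comm])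
  have hB1 : ∀ t c J b, Bad1 t c J b ≠ Set.univ := by
    intro t c J b hun
    have hκ : ℵ₀ ≤ max ℵ₀ #(Set.Iio t) := le_max_left _ _
    have hκ2 : max ℵ₀ #(Set.Iio t) < 𝔠 := max_lt aleph0_lt_continuum (hcard t)
    have hle : #(Bad1 t c J b) ≤ max ℵ₀ #(Set.Iio t) := by
      refine small_union hκ ?_ ?_
      · refine small_iUnion hκ _ (small_type hκ) fun m => ?_
        refine small_iUnion hκ _ (small_type hκ) fun v0 => ?_
        refine small_iUnion hκ _ (le_max_right _ _) fun ζ => ?_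
        refine small_iUnion hκ _ (hpow t m) fun α => ?_
        refine small_iUnion hκ _ (small_type hκ) fun q => ?_
        refine small_iUnion hκ _ (small_type hκ) fun τ => ?_
        refine small_iUnion hκ _ (small_type hκ) fun I => ?_
        exact small_of_countable hκ (countable_edge _)
      · refine small_iUnion hκ _ (le_max_right _ _) fun x => ?_
        exact small_of_countable hκ (countable_singleton _)
    rw [hun, mk_univ, mk_real] at hle
    exact absurd hle (not_le.2 hκ2)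
  have hB2 : ∀ t c b, Bad2 t c b ≠ Set.univ := by
    intro t c b hun
    have hκ : ℵ₀ ≤ max ℵ₀ #(Set.Iio t) := le_max_left _ _
    have hκ2 : max ℵ₀ #(Set.Iio t) < 𝔠 := max_lt aleph0_lt_continuum (hcard t)
    have hle : #(Bad2 t c b) ≤ max ℵ₀ #(Set.Iio t) := by
      refine small_union hκ ?_ ?_
      · refine small_iUnion hκ _ (small_type hκ) fun m => ?_
        refine small_iUnion hκ _ (small_type hκ) fun v0 => ?_
        refine small_iUnion hκ _ (le_max_right _ _) fun ζ => ?_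
        refine small_iUnion hκ _ (hpow t m) fun α => ?_
        refine small_iUnion hκ _ (small_type hκ) fun q => ?_
        exact small_of_countable hκ (countable_iso _)
      · refine small_iUnion hκ _ (le_max_right _ _) fun x => ?_
        exact small_of_countable hκ (countable_singleton _)
    have hcb : #(ℕ → Bool) = 𝔠 := by
      simp
    rw [hun, mk_univ, hcb] at hle
    exact absurd hle (not_le.2 hκ2)
  obtain ⟨d, hd⟩ := exists_generic Bad1 Bad2 hB1 hB2
  refine ⟨d, fun t => ?_⟩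
  obtain ⟨h1, h2⟩ := hd t
  refine ⟨?_, ?_⟩
  · intro m v0 ζ α q
    refine ⟨?_, ?_⟩
    · intro τ I J hcon
      apply h1 J
      refine Or.inl ?_
      simp only [mem_iUnion]
      exact ⟨m, v0, ζ, α, q, τ, I, hcon⟩
    · intro hcon
      apply h2
      refine Or.inl ?_
      simp only [mem_iUnion]
      exact ⟨m, v0, ζ, α, q, hcon⟩
  · intro x hx
    refine ⟨?_, ?_⟩
    · intro J hcon
      apply h1 J
      refine Or.inr ?_
      simp only [mem_iUnion]
      refine ⟨⟨x, hx⟩, ?_⟩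
      simp only [mem_singleton_iff, cut, hx, if_true]
      exact hcon.symm
    · intro hcon
      apply h2
      refine Or.inr ?_
      simp only [mem_iUnion]
      refine ⟨⟨x, hx⟩, ?_⟩
      simp only [mem_singleton_iff, cut, hx, if_true]
      exact hcon.symm

end

end Pool.Agent.Helper46
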