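import Mathlib
import Pool.Agent.Helper46.TheoremA

/-!
Theorem A, final form: isotropic sets are bounded.
-/

set_option autoImplicit false
set_option linter.unusedSectionVars false
set_option linter.unusedVariables false

namespace Pool.Agent.Helper46

open FreeGroup Cardinal Set Topology

section

variable {S : Type} [LinearOrder S]

theorem isotropic_bounded [WellFoundedLT S] [Nonempty S] (hcard : ∀ t : S, #(Set.Iio t) < 𝔠)
    (hbdd : ∀ A : Set S, A.Countable → ∃ t, ∀ x ∈ A, x < t)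
    (e : S → ℕ → ℕ → S) (he : Function.Surjective e) :
    ∃ F : FreeGroup S → ZMod 3, ∀ V : Set (FreeGroup S →₀ ZMod 3),
      (∀ v ∈ V, ∀ w ∈ V, Bf F v w = Bf F w v) →
      ∃ t0 : S, ∀ v ∈ V, ∀ g ∈ v.support, ∀ x ∈ letters g, x < t0 := by
  classical
  obtain ⟨d, hd⟩ := exists_genAt hcard e
  refine ⟨phi d, ?_⟩
  intro V hV
  by_contra hcon
  push Not at hcon
  -- an unbounded type
  obtain ⟨m, v0, hv0, hunb⟩ : ∃ (m : ℕ) (v0 : FreeGroup (Fin (m + 1)) →₀ ZMod 3),
      (∃ u ∈ v0.support, Fin.last m ∈ letters u) ∧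
      ∀ t0 : S, ∃ a : Fin (m + 1) → S, StrictMono a ∧ vec a v0 ∈ V ∧ t0 ≤ a (Fin.last m) := by
    by_contra hcon2
    push Not at hcon2
    have h1 : ∀ p : (Σ m : ℕ, FreeGroup (Fin (m + 1)) →₀ ZMod 3), ∃ t0 : S,
        (∃ u ∈ p.2.support, Fin.last p.1 ∈ letters u) →
          ∀ a : Fin (p.1 + 1) → S, StrictMono a → vec a p.2 ∈ V → a (Fin.last p.1) < t0 := by
      rintro ⟨m, v0⟩
      by_cases h : ∃ u ∈ v0.support, Fin.last m ∈ letters u
      · obtain ⟨t0, ht0⟩ := hcon2 m v0 h
        exact ⟨t0, fun _ => ht0⟩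
      · exact ⟨Classical.arbitrary S, fun h' => absurd h' h⟩
    choose T hT using h1
    obtain ⟨ts, hts⟩ := hbdd (range T) (countable_range T)
    obtain ⟨v, hv, g, hg, x, hx, hle⟩ := hcon ts
    obtain ⟨m, v0, a, ha, hvec, hxa, hu⟩ := exists_vec v hg hx
    have h2 := hT ⟨m, v0⟩ hu a ha (by rw [hvec]; exact hv)
    have h3 := hts (T ⟨m, v0⟩) ⟨_, rfl⟩
    exact absurd (lt_of_lt_of_le (lt_trans h2 h3) (hle.trans hxa)) (lt_irrefl _)
  -- a data-dense sequence
  set Φ : (Fin (m + 1) → S) → (Fin m → Dat) × Dat :=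
    fun a => (fun l => d (a l.castSucc), d (a (Fin.last m))) with hΦ
  set 𝒜 : Set (Fin (m + 1) → S) := {a | StrictMono a ∧ vec a v0 ∈ V} with h𝒜
  obtain ⟨a0, ha0⟩ : ∃ a0, a0 ∈ 𝒜 := by
    obtain ⟨a, h1, h2, _⟩ := hunb (Classical.arbitrary S)
    exact ⟨a, h1, h2⟩
  obtain ⟨D, hD, hDdense⟩ : ∃ D : ℕ → Fin (m + 1) → S, (∀ n, D n ∈ 𝒜) ∧
      ∀ a ∈ 𝒜, Φ a ∈ closure (range (fun n => Φ (D n))) := by
    have : Nonempty (Φ '' 𝒜) := ⟨⟨Φ a0, a0, ha0, rfl⟩⟩
    obtain ⟨w, hw⟩ := TopologicalSpace.exists_dense_seq (Φ '' 𝒜)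
    have h1 : ∀ n, ∃ a ∈ 𝒜, Φ a = (w n : (Fin m → Dat) × Dat) := fun n => (w n).2
    choose D hD1 hD2 using h1
    refine ⟨D, hD1, fun a ha => ?_⟩
    have h2 : (⟨Φ a, a, ha, rfl⟩ : Φ '' 𝒜) ∈ closure (range w) := hw _
    have h3 := map_mem_closure continuous_subtype_val h2
      (t := range (fun n => Φ (D n))) (by
        rintro _ ⟨n, rfl⟩
        exact ⟨n, hD2 n⟩)
    exact h3
  obtain ⟨ζ, hζ⟩ := he (fun n i => if h : i < m + 1 then D n ⟨i, h⟩ else D n 0)
  have hseq : toSeq S e ζ m = D := by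
    funext n i
    unfold toSeq
    rw [hζ]
    show (if h : (i : ℕ) < m + 1 then D n ⟨i, h⟩ else D n 0) = D n i
    rw [dif_pos i.2]
  obtain ⟨ts, hts⟩ := hbdd ({ζ} ∪ ⋃ n, range (D n))
    ((countable_singleton ζ).union (countable_iUnion fun n => countable_range _))
  obtain ⟨a, ha, haV, hale⟩ := hunb ts
  set t := a (Fin.last m) with ht
  have hζt : ζ < t := lt_of_lt_of_le (hts ζ (Or.inl rfl)) hale
  have hDt : ∀ n i, D n i < t := fun n i =>
    lt_of_lt_of_le (hts _ (Or.inr (mem_iUnion.2 ⟨n, i, rfl⟩))) hale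
  have hat : ∀ l : Fin m, a l.castSucc < t := fun l => ha (Fin.castSucc_lt_last l)
  set α : Fin m → Set.Iio t := fun l => ⟨a l.castSucc, hat l⟩ with hα
  have hsn : sn t α = a := by
    funext i
    unfold sn
    induction i using Fin.lastCases with
    | last => rw [Fin.snoc_last]
    | cast l => rw [Fin.snoc_castSucc]
  have hcut : ∀ x < t, cut t d x = d x := fun x hx => by simp [cut, hx]
  have hXY : (fun n => (Xf (cut t d) D n, Yf (cut t d) D n)) = fun n => Φ (D n) := by
    funext n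
    refine Prod.ext ?_ ?_
    · funext l
      exact hcut _ (hDt n _)
    · exact hcut _ (hDt n _)
  have hx0 : (fun l : Fin m => cut t d (α l)) = fun l => d (a l.castSucc) := by
    funext l
    exact hcut _ (hat l)
  -- the pattern of `a`
  obtain ⟨q, hq⟩ : ∃ q, ((fun l : Fin m => cut t d (α l)), d t) ∈
      closure ((fun n => (Xf (cut t d) D n, Yf (cut t d) D n)) ''
        {n | patf (cut t d) t v0 D α n = q}) := by
    have h1 := hDdense a ⟨ha, haV⟩
    have h2 : range (fun n => Φ (D n)) = ⋃ q : ZMod 3 × Finset (Fin m),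
        (fun n => Φ (D n)) '' {n | patf (cut t d) t v0 D α n = q} := by
      ext z
      simp only [mem_range, mem_iUnion, mem_image, mem_ofPred_eq]
      constructor
      · rintro ⟨n, rfl⟩
        exact ⟨_, n, rfl, rfl⟩
      · rintro ⟨q, n, _, rfl⟩
        exact ⟨n, rfl⟩
    rw [h2, closure_iUnion_of_finite, mem_iUnion] at h1
    obtain ⟨q, hq⟩ := h1
    refine ⟨q, ?_⟩
    rw [hXY, hx0]
    exact hq
  -- distinct data
  have hne : ∀ i j : Fin (m + 1), i ≠ j → (d (a i)).2 ≠ (d (a j)).2 := by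
    intro i j hij
    rcases lt_or_gt_of_ne hij with h | h
    · exact ((hd (a j)).2 (a i) (ha h)).2
    · exact ((hd (a i)).2 (a j) (ha h)).2.symm
  set N0 := (Finset.univ.sup (fun ij : Fin (m + 1) × Fin (m + 1) =>
    fd (d (a ij.1)).2 (d (a ij.2)).2)) + 1 with hN0
  have hN0' : ∀ i j : Fin (m + 1), fd (d (a i)).2 (d (a j)).2 < N0 := by
    intro i j
    exact Nat.lt_succ_of_le (Finset.le_sup (f := fun ij : Fin (m + 1) × Fin (m + 1) =>
      fd (d (a ij.1)).2 (d (a ij.2)).2) (Finset.mem_univ (i, j)))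
  have hgen := (hd t).1 m v0 ⟨ζ, hζt⟩ α q
  simp only [hseq] at hgen
  obtain ⟨N, hNN0, hN⟩ := pattern_lemma (Xf (cut t d) D) (Yf (cut t d) D)
    (patf (cut t d) t v0 D α) (fun l => cut t d (α l)) (d t) q hgen.1 hgen.2 hq N0
  have hsep : ∀ i j : Fin (m + 1), i ≠ j → ∃ k < N, (d (a i)).2 k ≠ (d (a j)).2 k :=
    fun i j hij => ⟨_, lt_of_lt_of_le (hN0' i j) hNN0, fd_ne (hne i j hij)⟩
  refine core (d := d) (a := a) N q.2 ha hne hsep v0 (-q.1) hv0 ?_
  intro J ε
  -- the neighbourhood
  have hU : {X : Fin m → Dat | ∀ l : Fin m,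
      (∀ k ∈ Finset.range (N + 1), (X l).2 k = (d (a l.castSucc)).2 k) ∧
      (∀ k ∈ Finset.range J, ((X l).1 k < (d t).1 k ↔ (d (a l.castSucc)).1 k < (d t).1 k))} ∈
      𝓝 (fun l : Fin m => cut t d (α l)) := by
    rw [hx0]
    show ∀ᶠ X : Fin m → Dat in 𝓝 (fun l : Fin m => d (a l.castSucc)), ∀ l : Fin m,
      (∀ k ∈ Finset.range (N + 1), (X l).2 k = (d (a l.castSucc)).2 k) ∧
      (∀ k ∈ Finset.range J, ((X l).1 k < (d t).1 k ↔ (d (a l.castSucc)).1 k < (d t).1 k))
    rw [Filter.eventually_all]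
    intro l
    refine Filter.Eventually.and ?_ ?_
    · rw [Filter.eventually_all_finset]
      intro k _
      have hc : Continuous (fun X : Fin m → Dat => (X l).2 k) :=
        (continuous_apply k).comp (continuous_snd.comp (continuous_apply l))
      have ho : IsOpen {X : Fin m → Dat | (X l).2 k = (d (a l.castSucc)).2 k} :=
        (isOpen_discrete {(d (a l.castSucc)).2 k}).preimage hc
      exact ho.mem_nhds rfl
    · rw [Filter.eventually_all_finset]
      intro k _
      have hc : Continuous (fun X : Fin m → Dat => (X l).1 k) :=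
        (continuous_apply k).comp (continuous_fst.comp (continuous_apply l))
      have hkne : (d (a l.castSucc)).1 k ≠ (d t).1 k := ((hd t).2 _ (hat l)).1 k
      rcases lt_or_gt_of_ne hkne with h | h
      · have ho : IsOpen {X : Fin m → Dat | (X l).1 k < (d t).1 k} :=
          isOpen_lt hc continuous_const
        filter_upwards [ho.mem_nhds h] with X hX
        exact ⟨fun _ => h, fun _ => hX⟩
      · have ho : IsOpen {X : Fin m → Dat | (d t).1 k < (X l).1 k} :=
          isOpen_lt continuous_const hc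
        filter_upwards [ho.mem_nhds h] with X hX
        exact ⟨fun h' => absurd h' (lt_asymm hX), fun h' => absurd h' (lt_asymm h)⟩
  obtain ⟨n, hpat, hXn, hagr, hdif, hsign⟩ := hN J ε _ hU
  have hY : Yf (cut t d) D n = d (D n (Fin.last m)) := hcut _ (hDt n _)
  have hXl : ∀ l, Xf (cut t d) D n l = d (D n l.castSucc) := fun l => hcut _ (hDt n _)
  rw [hY] at hagr hdif hsign
  simp only [mem_ofPred_eq, hXl] at hXn
  have hq2 : ∀ l : Fin m, D n l.castSucc = a l.castSucc ↔ l ∈ q.2 := by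
    intro l
    rw [← hpat]
    unfold patf
    simp [hα]
  refine ⟨D n, ⟨(hD n).1, fun i => hDt n i, ?_, ?_, hdif, hq2, ?_⟩, hsign, ?_⟩
  · intro i k hk
    induction i using Fin.lastCases with
    | last => exact hagr k hk
    | cast l => exact (hXn l).1 k (Finset.mem_range.2 (by omega))
  · intro l
    exact (hXn l).1 N (Finset.mem_range.2 (by omega))
  · intro l k hk
    exact (hXn l).2 k (Finset.mem_range.2 hk)
  · -- the isotropy relation
    have hiso : Bf (ff d) (vec (D n) v0) (vec a v0) = 0 := by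
      have h1 := Bf_swap (phi d) (vec (D n) v0) (vec a v0)
      have h2 : (fun g => phi d g - phi d g⁻¹) = ff d := rfl
      rw [h2] at h1
      rw [h1, hV _ (hD n).2 _ haV, sub_self]
    have hq1 : q.1 = ∑ u ∈ v0.support,
        ∑ u' ∈ v0.support.filter (fun u => ¬ Fin.last m ∈ letters u),
        v0 u * v0 u' * ff d ((FreeGroup.map (D n) u)⁻¹ * FreeGroup.map a u') := by
      rw [← hpat]
      unfold patf
      simp only [hsn]
      apply Finset.sum_congr rfl
      intro u _
      apply Finset.sum_congr rfl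
      intro u' hu'
      congr 1
      apply ff_congr
      intro x hx
      apply hcut
      have h1 := letters_mul_subset _ _ hx
      rw [Finset.mem_union, letters_inv] at h1
      rcases h1 with h | h
      · have h2 := letters_map_subset _ _ h
        rw [Finset.mem_image] at h2
        obtain ⟨i, _, rfl⟩ := h2
        exact hDt n i
      · have h2 := letters_map_subset _ _ h
        rw [Finset.mem_image] at h2
        obtain ⟨i, hi, rfl⟩ := h2
        have h3 : i ≠ Fin.last m := by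
          rintro rfl
          exact (Finset.mem_filter.1 hu').2 hi
        exact ha (Fin.lt_last_iff_ne_last.2 h3)
    rw [Bf_vec] at hiso
    have hsplit : ∑ u ∈ v0.support, ∑ u' ∈ v0.support,
        v0 u * v0 u' * ff d ((FreeGroup.map (D n) u)⁻¹ * FreeGroup.map a u') =
        (∑ u ∈ v0.support, ∑ u' ∈ v0.support.filter (fun u => Fin.last m ∈ letters u),
          v0 u * v0 u' * ff d ((FreeGroup.map (D n) u)⁻¹ * FreeGroup.map a u')) +
        ∑ u ∈ v0.support, ∑ u' ∈ v0.support.filter (fun u => ¬ Fin.last m ∈ letters u),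
          v0 u * v0 u' * ff d ((FreeGroup.map (D n) u)⁻¹ * FreeGroup.map a u') := by
      rw [← Finset.sum_add_distrib]
      apply Finset.sum_congr rfl
      intro u _
      rw [Finset.sum_filter_add_sum_filter_not]
    rw [hsplit, ← hq1] at hiso
    exact eq_neg_of_add_eq_zero_left hiso

end

end Pool.Agent.Helper46
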