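import Mathlib
import Pool.Agent.Helper46.Bogolyubov

/-!
Hausdorff group topologies on the countable vector space `ℕ →₀ ZMod 2` for which all linear
automorphisms are continuous: the discrete one and the one given by the subspaces of finite
codimension.
-/

set_option autoImplicit false
set_option linter.unusedSectionVars false
set_option linter.unusedVariables false

namespace Pool.Agent.Helper46

open Topology Filter

abbrev BB : Type := ℕ →₀ ZMod 2

/-- The filter generated by the kernels of linear functionals. -/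
noncomputable def fcF : Filter BB := ⨅ c : ℕ → ZMod 2, 𝓟 {b | fun2 c b = 0}

theorem bb_add_self (b : BB) : b + b = 0 := by
  ext i
  rw [Finsupp.add_apply, Finsupp.zero_apply]
  generalize b i = a
  revert a
  decide

/-- `1 + N` is a unit when `N² = 0`. -/
theorem exists_unit (N : BB →ₗ[ZMod 2] BB) (hN : ∀ b, N (N b) = 0) :
    ∃ u : (Module.End (ZMod 2) BB)ˣ, ∀ b, (u : Module.End (ZMod 2) BB) b = b + N b := by
  have h : ((LinearMap.id + N) * (LinearMap.id + N) : Module.End (ZMod 2) BB) = 1 := by
    refine LinearMap.ext fun b => ?_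
    show (b + N b) + N (b + N b) = b
    rw [map_add, hN, add_zero, add_assoc, bb_add_self, add_zero]
  exact ⟨⟨LinearMap.id + N, LinearMap.id + N, h, h⟩, fun b => rfl⟩

section

variable [TopologicalSpace BB] [IsTopologicalAddGroup BB]

theorem continuous_of_sq_zero
    (hc : ∀ u : (Module.End (ZMod 2) BB)ˣ, Continuous (fun b => (u : Module.End (ZMod 2) BB) b))
    (N : BB →ₗ[ZMod 2] BB) (hN : ∀ b, N (N b) = 0) : Continuous N := by
  obtain ⟨u, hu⟩ := exists_unit N hN
  have : (N : BB → BB) = fun b => (u : Module.End (ZMod 2) BB) b + b := by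
    funext b
    rw [hu b, add_comm b, add_assoc, bb_add_self, add_zero]
  rw [this]
  exact (hc u).add continuous_id

theorem ker_mem_nhds [T2Space BB]
    (hc : ∀ u : (Module.End (ZMod 2) BB)ˣ, Continuous (fun b => (u : Module.End (ZMod 2) BB) b))
    (c : ℕ → ZMod 2) : {b | fun2 c b = 0} ∈ 𝓝 (0 : BB) := by
  obtain ⟨e, he, hce⟩ : ∃ e : BB, e ≠ 0 ∧ fun2 c e = 0 := by
    by_cases h0 : fun2 c (Finsupp.single 0 1) = 0
    · exact ⟨Finsupp.single 0 1, by simp, h0⟩
    · by_cases h1 : fun2 c (Finsupp.single 1 1) = 0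
      · exact ⟨Finsupp.single 1 1, by simp, h1⟩
      · refine ⟨Finsupp.single 0 1 + Finsupp.single 1 1, ?_, ?_⟩
        · intro h
          have := DFunLike.congr_fun h 0
          simp at this
        · rw [map_add]
          revert h0 h1
          generalize fun2 c (Finsupp.single 0 1) = a
          generalize fun2 c (Finsupp.single 1 1) = b
          revert a b
          decide
  set N : BB →ₗ[ZMod 2] BB := (fun2 c).smulRight e with hN
  have hN2 : ∀ b, N (N b) = 0 := by
    intro b
    simp [hN, LinearMap.smulRight_apply, hce]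
  have hcont := continuous_of_sq_zero hc N hN2
  have h1 : {b : BB | b ≠ e} ∈ 𝓝 (N 0) := by
    rw [map_zero]
    exact isOpen_ne.mem_nhds (Ne.symm he)
  filter_upwards [hcont.continuousAt h1] with b hb
  by_contra h
  apply hb
  have h2 : fun2 c b = 1 := by
    revert h
    show ¬ fun2 c b = 0 → _
    generalize fun2 c b = a
    revert a
    decide
  show fun2 c b • e = e
  rw [h2, one_smul]

/-- If some neighbourhood of `0` is not syndetic, the topology is discrete. -/
theorem discrete_of_not_syndetic
    (hc : ∀ u : (Module.End (ZMod 2) BB)ˣ, Continuous (fun b => (u : Module.End (ZMod 2) BB) b))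
    (V : Set BB) (hV : V ∈ 𝓝 (0 : BB))
    (hns : ∀ F : Finset BB, ∃ b, ∀ u ∈ V, ∀ f ∈ F, b ≠ u + f) : ({0} : Set BB) ∈ 𝓝 (0 : BB) := by
  classical
  have hns' : ∀ P : Finset BB, ∃ b, ∀ u ∈ V, ∀ f ∈ Submodule.span (ZMod 2) (P : Set BB),
      b ≠ u + f := by
    intro P
    have : Finite (Submodule.span (ZMod 2) (P : Set BB)) :=
      Module.finite_of_finite (ZMod 2)
    have hfin : ((Submodule.span (ZMod 2) (P : Set BB) : Submodule (ZMod 2) BB) : Set BB).Finite :=
      this
    obtain ⟨b, hb⟩ := hns hfin.toFinset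
    exact ⟨b, fun u hu f hf => hb u hu f (hfin.mem_toFinset.2 hf)⟩
  choose nxt hnxt using hns'
  obtain ⟨P, hP0, hPs⟩ : ∃ P : ℕ → Finset BB, P 0 = ∅ ∧
      ∀ n, P (n + 1) = insert (nxt (P n)) (P n) :=
    ⟨fun n => Nat.rec ∅ (fun _ p => insert (nxt p) p) n, rfl, fun n => rfl⟩
  set x : ℕ → BB := fun n => nxt (P n) with hx
  have hxP : ∀ n, ∀ i < n, x i ∈ P n := by
    intro n
    induction n with
    | zero => intro i hi; exact absurd hi (Nat.not_lt_zero _)
    | succ n ih =>
      intro i hi
      rw [hPs]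
      rcases Nat.lt_succ_iff_lt_or_eq.1 hi with h | h
      · exact Finset.mem_insert_of_mem (ih i h)
      · subst h
        exact Finset.mem_insert_self _ _
  set T : BB →ₗ[ZMod 2] BB := Finsupp.linearCombination (ZMod 2) x with hT
  have hTV : ∀ a : BB, T a ∈ V → a = 0 := by
    intro a ha
    by_contra hne
    have hsupp : a.support.Nonempty := Finsupp.support_nonempty_iff.2 hne
    set n := a.support.max' hsupp with hn
    have hnmem : n ∈ a.support := Finset.max'_mem _ _
    have han : a n = 1 := by
      have := Finsupp.mem_support_iff.1 hnmem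
      revert this
      generalize a n = z
      revert z
      decide
    have hsum : T a = ∑ i ∈ a.support.erase n, a i • x i + x n := by
      rw [hT, Finsupp.linearCombination_apply, Finsupp.sum, ← Finset.sum_erase_add _ _ hnmem, han,
        one_smul]
    have hspan : ∑ i ∈ a.support.erase n, a i • x i ∈
        Submodule.span (ZMod 2) ((P n : Finset BB) : Set BB) := by
      apply Submodule.sum_mem
      intro i hi
      apply Submodule.smul_mem
      apply Submodule.subset_span
      rw [Finset.mem_erase] at hi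
      have h1 : i ≤ n := Finset.le_max' _ _ hi.2
      exact hxP n i (lt_of_le_of_ne h1 hi.1)
    apply hnxt (P n) (T a) ha _ hspan
    show x n = _
    rw [hsum, add_comm _ (x n), add_assoc, bb_add_self, add_zero]
  -- a complement of the range
  obtain ⟨M, hM⟩ := Submodule.exists_isCompl (LinearMap.range T)
  set pr : BB →ₗ[ZMod 2] M := M.projectionOnto (LinearMap.range T) hM.symm with hpr
  set N : BB →ₗ[ZMod 2] BB := T ∘ₗ M.subtype ∘ₗ pr with hN
  have hNrange : ∀ b, N b ∈ LinearMap.range T := fun b => ⟨_, rfl⟩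
  have hprT : ∀ b ∈ LinearMap.range T, pr b = 0 := fun b hb =>
    (Submodule.projectionOnto_apply_eq_zero_iff hM.symm).2 hb
  have hN2 : ∀ b, N (N b) = 0 := by
    intro b
    have h1 : pr (N b) = 0 := hprT _ (hNrange b)
    show T (M.subtype (pr (N b))) = 0
    rw [h1]
    simp
  have hcont := continuous_of_sq_zero hc N hN2
  have h1 : {b | N b ∈ V} ∈ 𝓝 (0 : BB) := by
    have := hcont.continuousAt (x := (0 : BB))
    unfold ContinuousAt at this
    rw [map_zero] at this
    exact this hV
  filter_upwards [h1, hV] with b hb hbV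
  have h2 : M.subtype (pr b) = 0 := hTV _ hb
  have h3 : pr b = 0 := by
    apply Subtype.ext
    exact h2
  have h4 : b ∈ LinearMap.range T :=
    (Submodule.projectionOnto_apply_eq_zero_iff hM.symm).1 h3
  obtain ⟨a, rfl⟩ := h4
  have := hTV a hbV
  rw [this]
  simp

theorem nhds_dichotomy [T2Space BB]
    (hc : ∀ u : (Module.End (ZMod 2) BB)ˣ, Continuous (fun b => (u : Module.End (ZMod 2) BB) b)) :
    𝓝 (0 : BB) = pure 0 ∨ 𝓝 (0 : BB) = fcF := by
  classical
  by_cases h : ∃ V ∈ 𝓝 (0 : BB), ∀ F : Finset BB, ∃ b, ∀ u ∈ V, ∀ f ∈ F, b ≠ u + f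
  · left
    obtain ⟨V, hV, hns⟩ := h
    have h1 := discrete_of_not_syndetic hc V hV hns
    apply le_antisymm
    · rw [Filter.le_pure_iff]
      exact h1
    · exact pure_le_nhds 0
  · right
    push Not at h
    apply le_antisymm
    · exact le_iInf fun c => le_principal_iff.2 (ker_mem_nhds hc c)
    · intro V hV
      -- `4 U ⊆ V`
      obtain ⟨V', hV', hVV⟩ := exists_nhds_zero_half hV
      obtain ⟨U, hUmem, hUV⟩ := exists_nhds_zero_half hV'
      obtain ⟨F, hF⟩ := h U hUmem
      obtain ⟨R, c, hRc⟩ := bogolyubov U F (fun b => by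
        obtain ⟨u, hu, f, hf, hb⟩ := hF b
        exact ⟨u, hu, f, hf, hb⟩)
      have h2 : (⋂ i : Fin R, {b : BB | fun2 (c i) b = 0}) ∈ fcF := by
        rw [Filter.iInter_mem]
        intro i
        exact Filter.mem_iInf_of_mem (c i) (Filter.mem_principal_self _)
      apply Filter.mem_of_superset h2
      intro b hb
      obtain ⟨u1, h1, u2, h2, u3, h3, u4, h4, rfl⟩ := hRc b (fun i => Set.mem_iInter.1 hb i)
      exact hVV _ (hUV _ h1 _ h2) _ (hUV _ h3 _ h4)

end

end Pool.Agent.Helper46
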