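import Mathlib
import Pool.Agent.Helper46.Form
import Pool.Agent.Helper46.LinTop

/-!
The group `(B × H) ⋊ Γ` where `B = ℕ →₀ ZMod 2`, `H` is the Heisenberg type group over `F_3[Γ]`
with the cocycle `Bf F`, and `Γ` acts on `B` through `ρ`; its Hausdorff group topologies.
-/

set_option autoImplicit false
set_option linter.unusedSectionVars false
set_option linter.unusedVariables false

namespace Pool.Agent.Helper46

open Topology Filter

section Group

variable {Γ : Type} [Group Γ]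

/-- Left translation on the group ring. -/
noncomputable def act (γ : Γ) (w : Γ →₀ ZMod 3) : Γ →₀ ZMod 3 :=
  Finsupp.mapDomain (fun g => γ * g) w

theorem act_one (w : Γ →₀ ZMod 3) : act 1 w = w := by
  unfold act
  simp only [one_mul]
  exact Finsupp.mapDomain_id

theorem act_mul (γ γ' : Γ) (w : Γ →₀ ZMod 3) : act (γ * γ') w = act γ (act γ' w) := by
  unfold act
  rw [← Finsupp.mapDomain_comp]
  congr 1
  funext g
  simp [mul_assoc]

theorem act_add (γ : Γ) (w w' : Γ →₀ ZMod 3) : act γ (w + w') = act γ w + act γ w' :=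
  Finsupp.mapDomain_add

@[simp] theorem act_zero (γ : Γ) : act γ (0 : Γ →₀ ZMod 3) = 0 :=
  Finsupp.mapDomain_zero

theorem act_neg (γ : Γ) (w : Γ →₀ ZMod 3) : act γ (-w) = - act γ w := by
  have := act_add γ w (-w)
  rw [add_neg_cancel, act_zero] at this
  exact (neg_eq_of_add_eq_zero_right this.symm).symm

theorem Bf_act (F : Γ → ZMod 3) (γ : Γ) (v w : Γ →₀ ZMod 3) :
    Bf F (act γ v) (act γ w) = Bf F v w := Bf_mapDomain_mul F γ v w

/-- The group. -/
@[ext] structure Mon (ρ : Γ →* (Module.End (ZMod 2) BB)ˣ) (F : Γ → ZMod 3) where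
  b : BB
  w : Γ →₀ ZMod 3
  z : ZMod 3
  g : Γ

variable {ρ : Γ →* (Module.End (ZMod 2) BB)ˣ} {F : Γ → ZMod 3}

/-- action on `B`. -/
noncomputable def ra (ρ : Γ →* (Module.End (ZMod 2) BB)ˣ) (γ : Γ) (b : BB) : BB :=
  (ρ γ : Module.End (ZMod 2) BB) b

theorem ra_one (b : BB) : ra ρ 1 b = b := by
  simp [ra]

theorem ra_mul (γ γ' : Γ) (b : BB) : ra ρ (γ * γ') b = ra ρ γ (ra ρ γ' b) := by
  simp [ra]

theorem ra_add (γ : Γ) (b b' : BB) : ra ρ γ (b + b') = ra ρ γ b + ra ρ γ b' := by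
  simp [ra]

@[simp] theorem ra_zero (γ : Γ) : ra ρ γ 0 = 0 := by
  simp [ra]

theorem ra_neg (γ : Γ) (b : BB) : ra ρ γ (-b) = - ra ρ γ b := by
  simp [ra]

noncomputable instance : Mul (Mon ρ F) :=
  ⟨fun x y => ⟨x.b + ra ρ x.g y.b, x.w + act x.g y.w, x.z + y.z + Bf F x.w (act x.g y.w),
    x.g * y.g⟩⟩

noncomputable instance : One (Mon ρ F) := ⟨⟨0, 0, 0, 1⟩⟩

noncomputable instance : Inv (Mon ρ F) :=
  ⟨fun x => ⟨-(ra ρ x.g⁻¹ x.b), -(act x.g⁻¹ x.w), -x.z + Bf F x.w x.w, x.g⁻¹⟩⟩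

@[simp] theorem mul_b (x y : Mon ρ F) : (x * y).b = x.b + ra ρ x.g y.b := rfl
@[simp] theorem mul_w (x y : Mon ρ F) : (x * y).w = x.w + act x.g y.w := rfl
@[simp] theorem mul_z (x y : Mon ρ F) :
    (x * y).z = x.z + y.z + Bf F x.w (act x.g y.w) := rfl
@[simp] theorem mul_g (x y : Mon ρ F) : (x * y).g = x.g * y.g := rfl
@[simp] theorem one_b : (1 : Mon ρ F).b = 0 := rfl
@[simp] theorem one_w : (1 : Mon ρ F).w = 0 := rfl
@[simp] theorem one_z : (1 : Mon ρ F).z = 0 := rfl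
@[simp] theorem one_g : (1 : Mon ρ F).g = 1 := rfl
@[simp] theorem inv_b (x : Mon ρ F) : (x⁻¹).b = -(ra ρ x.g⁻¹ x.b) := rfl
@[simp] theorem inv_w (x : Mon ρ F) : (x⁻¹).w = -(act x.g⁻¹ x.w) := rfl
@[simp] theorem inv_z (x : Mon ρ F) : (x⁻¹).z = -x.z + Bf F x.w x.w := rfl
@[simp] theorem inv_g (x : Mon ρ F) : (x⁻¹).g = x.g⁻¹ := rfl

noncomputable instance : Group (Mon ρ F) := Group.ofLeftAxioms
  (by
    intro x y z
    ext1
    · simp only [mul_b, mul_g, ra_add, ra_mul, add_assoc]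
    · simp only [mul_w, mul_g, act_add, act_mul, add_assoc]
    · simp only [mul_z, mul_w, mul_g, act_add, act_mul, Bf_add_left, Bf_add_right, Bf_act]
      ring
    · simp only [mul_g, mul_assoc])
  (by
    intro x
    ext1
    · simp only [mul_b, one_b, one_g, ra_one, zero_add]
    · simp only [mul_w, one_w, one_g, act_one, zero_add]
    · simp only [mul_z, one_w, one_z, Bf_zero_left, zero_add, add_zero]
    · simp only [mul_g, one_g, one_mul])
  (by
    intro x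
    ext1
    · simp only [mul_b, inv_b, inv_g, one_b, neg_add_cancel]
    · simp only [mul_w, inv_w, inv_g, one_w, neg_add_cancel]
    · simp only [mul_z, inv_z, inv_w, inv_g, one_z, Bf_neg_left, Bf_act]
      ring
    · simp only [mul_g, inv_g, one_g, inv_mul_cancel])

/-- The subgroup `B`. -/
def iB (ρ : Γ →* (Module.End (ZMod 2) BB)ˣ) (F : Γ → ZMod 3) (b : BB) : Mon ρ F := ⟨b, 0, 0, 1⟩

/-- The subgroup `H`. -/
def iH (ρ : Γ →* (Module.End (ZMod 2) BB)ˣ) (F : Γ → ZMod 3) (w : Γ →₀ ZMod 3) (z : ZMod 3) :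
    Mon ρ F := ⟨0, w, z, 1⟩

/-- The subgroup `Γ`. -/
def iG (ρ : Γ →* (Module.End (ZMod 2) BB)ˣ) (F : Γ → ZMod 3) (γ : Γ) : Mon ρ F := ⟨0, 0, 0, γ⟩

theorem iB_injective : Function.Injective (iB ρ F) := fun b b' h => congrArg Mon.b h

theorem iB_add (b b' : BB) : iB ρ F (b + b') = iB ρ F b * iB ρ F b' := by
  ext1 <;> simp [iB, ra_one]

theorem iB_zero : iB ρ F 0 = 1 := rfl

theorem iB_neg (b : BB) : iB ρ F (-b) = (iB ρ F b)⁻¹ := by
  ext1 <;> simp [iB, ra_one]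

theorem conj_iB (x : Mon ρ F) (b : BB) : x * iB ρ F b * x⁻¹ = iB ρ F (ra ρ x.g b) := by
  rw [mul_inv_eq_iff_eq_mul]
  ext1
  · simp only [iB, mul_b, ra_one, add_comm]
  · simp [iB, act_one]
  · simp [iB, act_one]
  · simp [iB]

theorem conj_iH (γ : Γ) (w : Γ →₀ ZMod 3) (z : ZMod 3) :
    iG ρ F γ * iH ρ F w z * (iG ρ F γ)⁻¹ = iH ρ F (act γ w) z := by
  rw [mul_inv_eq_iff_eq_mul]
  ext1 <;> simp [iH, iG]

theorem comm_iH (w w' : Γ →₀ ZMod 3) (z z' : ZMod 3) :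
    iH ρ F w z * iH ρ F w' z' * (iH ρ F w z)⁻¹ * (iH ρ F w' z')⁻¹ =
      iH ρ F 0 (Bf F w w' - Bf F w' w) := by
  rw [mul_inv_eq_iff_eq_mul, mul_inv_eq_iff_eq_mul]
  ext1
  · simp [iH]
  · simp [iH, act_one, add_comm]
  · simp [iH, act_one]
    ring
  · simp [iH]

theorem comm_e (x : Mon ρ F) : ∃ z : ZMod 3,
    x * iH ρ F (Finsupp.single 1 1) 0 * x⁻¹ * (iH ρ F (Finsupp.single 1 1) 0)⁻¹ =
      iH ρ F (Finsupp.single x.g 1 - Finsupp.single 1 1) z := by
  refine ⟨_, Mon.ext ?_ ?_ rfl ?_⟩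
  · simp only [iH, mul_b, mul_g, inv_b, inv_g, ra_zero, add_zero, mul_one, ra_neg, neg_zero]
    rw [← ra_mul, mul_inv_cancel, ra_one]
    simp
  · simp only [iH, mul_w, mul_g, inv_w, inv_g, mul_one, inv_one, act_one, act_neg]
    rw [← act_mul, mul_inv_cancel, act_one, act_one]
    have h : act x.g (Finsupp.single (1 : Γ) (1 : ZMod 3)) = Finsupp.single x.g 1 := by
      unfold act
      rw [Finsupp.mapDomain_single, mul_one]
    rw [h]
    abel
  · simp [iH]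

end Group

end Pool.Agent.Helper46
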