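import Mathlib
import Pool.Agent.Helper46.GroupG

/-!
Hausdorff group topologies on the group `Mon ρ F`: exactly two.
-/

set_option autoImplicit false
set_option linter.unusedSectionVars false
set_option linter.unusedVariables false

namespace Pool.Agent.Helper46

open Topology Filter

section Abstract

variable {G : Type*} [Group G] [TopologicalSpace G] [IsTopologicalGroup G]

theorem abs_comm : Tendsto (fun p : G × G => p.1 * p.2 * p.1⁻¹ * p.2⁻¹)
    (𝓝 1 ×ˢ 𝓝 1) (𝓝 1) := by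
  have hc : Continuous (fun p : G × G => p.1 * p.2 * p.1⁻¹ * p.2⁻¹) := by
    fun_prop
  have := hc.tendsto (1, 1)
  rw [nhds_prod_eq] at this
  simpa using this

theorem abs_comm_nhds {O : Set G} (hO : O ∈ 𝓝 (1 : G)) : ∃ V ∈ 𝓝 (1 : G), ∀ x ∈ V, ∀ y ∈ V,
    x * y * x⁻¹ * y⁻¹ ∈ O := by
  obtain ⟨V1, hV1, hVV⟩ := Filter.mem_prod_self_iff.1 (abs_comm (G := G) hO)
  exact ⟨V1, hV1, fun x hx y hy => hVV (show (x, y) ∈ V1 ×ˢ V1 from ⟨hx, hy⟩)⟩

theorem abs_conj (a : G) : Tendsto (fun x : G => a * x * a⁻¹) (𝓝 1) (𝓝 1) := by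
  have hc : Continuous (fun x : G => a * x * a⁻¹) := by fun_prop
  have := hc.tendsto 1
  simpa using this

theorem abs_comm' (e : G) : Tendsto (fun x : G => x * e * x⁻¹ * e⁻¹) (𝓝 1) (𝓝 1) := by
  have hc : Continuous (fun x : G => x * e * x⁻¹ * e⁻¹) := by fun_prop
  have := hc.tendsto 1
  simpa using this

theorem abs_sq : Tendsto (fun x : G => x * x) (𝓝 1) (𝓝 1) := by
  have hc : Continuous (fun x : G => x * x) := by fun_prop
  have := hc.tendsto 1
  simpa using this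

theorem abs_conj_nhds (a : G) {O : Set G} (hO : O ∈ 𝓝 (1 : G)) :
    {x | a * x * a⁻¹ ∈ O} ∈ 𝓝 (1 : G) := abs_conj a hO

theorem abs_comm'_nhds (a : G) {O : Set G} (hO : O ∈ 𝓝 (1 : G)) :
    {x | x * a * x⁻¹ * a⁻¹ ∈ O} ∈ 𝓝 (1 : G) := abs_comm' a hO

theorem abs_sq_nhds {O : Set G} (hO : O ∈ 𝓝 (1 : G)) :
    {x | x * x ∈ O} ∈ 𝓝 (1 : G) := abs_sq hO

theorem abs_two_ne [T2Space G] {a b : G} (ha : a ≠ 1) (hb : b ≠ 1) :
    {x : G | x ≠ a ∧ x ≠ b} ∈ 𝓝 (1 : G) :=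
  Filter.inter_mem (isOpen_ne.mem_nhds (Ne.symm ha)) (isOpen_ne.mem_nhds (Ne.symm hb))

end Abstract

variable {Γ : Type} [Group Γ] {ρ : Γ →* (Module.End (ZMod 2) BB)ˣ} {F : Γ → ZMod 3}

theorem zmod3_cases (z : ZMod 3) (h1 : z ≠ 1) (h2 : z ≠ 2) : z = 0 := by
  revert h1 h2
  revert z
  decide

theorem zmod3_two (z : ZMod 3) (h : z + z = 0) : z = 0 := by
  revert h
  revert z
  decide

section

variable [TopologicalSpace (Mon ρ F)] [IsTopologicalGroup (Mon ρ F)] [T2Space (Mon ρ F)]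

/-- Some neighbourhood of `1` meets `H` trivially. -/
theorem exists_nhds_H
    (hiso : ∀ V : Set (Γ →₀ ZMod 3), (∀ v ∈ V, ∀ w ∈ V, Bf F v w = Bf F w v) →
      ∃ γ : Γ, ∀ v ∈ V, act γ v ∈ V → v = 0) :
    ∃ V ∈ 𝓝 (1 : Mon ρ F), ∀ w z, iH ρ F w z ∈ V → w = 0 ∧ z = 0 := by
  have hne1 : iH ρ F 0 1 ≠ 1 := by
    intro h
    have := congrArg Mon.z h
    simp [iH] at this
  have hne2 : iH ρ F 0 2 ≠ 1 := by
    intro h
    have := congrArg Mon.z h
    simp only [iH, one_z] at this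
    exact absurd this (by decide)
  obtain ⟨O, h1O, hO⟩ : ∃ O ∈ 𝓝 (1 : Mon ρ F), ∀ x ∈ O, x ≠ iH ρ F 0 1 ∧ x ≠ iH ρ F 0 2 :=
    ⟨_, abs_two_ne hne1 hne2, fun x hx => hx⟩
  obtain ⟨V1, hV1, hVV⟩ := abs_comm_nhds h1O
  obtain ⟨V2, hV2m, hV2⟩ : ∃ V2 ∈ 𝓝 (1 : Mon ρ F), ∀ x ∈ V2, x ∈ V1 ∧ x ∈ O :=
    ⟨V1 ∩ O, Filter.inter_mem hV1 h1O, fun x hx => hx⟩
  obtain ⟨γ, hγ⟩ := hiso {w | ∃ z, iH ρ F w z ∈ V2} (by
    rintro v ⟨z, hz⟩ w ⟨z', hz'⟩
    have h3 := hO _ (hVV _ (hV2 _ hz).1 _ (hV2 _ hz').1)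
    rw [comm_iH] at h3
    have h4 : Bf F v w - Bf F w v = 0 := by
      apply zmod3_cases
      · intro h
        exact h3.1 (by rw [h])
      · intro h
        exact h3.2 (by rw [h])
    exact sub_eq_zero.1 h4)
  refine ⟨V2 ∩ {x | iG ρ F γ * x * (iG ρ F γ)⁻¹ ∈ V2},
    Filter.inter_mem hV2m (abs_conj_nhds _ hV2m), ?_⟩
  rintro w z ⟨hz1, hz2⟩
  have hz2' : iG ρ F γ * iH ρ F w z * (iG ρ F γ)⁻¹ ∈ V2 := hz2
  rw [conj_iH] at hz2'
  have hw : w = 0 := hγ w ⟨z, hz1⟩ ⟨z, hz2'⟩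
  refine ⟨hw, ?_⟩
  have h5 := hO _ (hV2 _ hz1).2
  rw [hw] at h5
  apply zmod3_cases
  · intro h
    exact h5.1 (by rw [h])
  · intro h
    exact h5.2 (by rw [h])

/-- `B` is open. -/
theorem range_iB_mem_nhds
    (hiso : ∀ V : Set (Γ →₀ ZMod 3), (∀ v ∈ V, ∀ w ∈ V, Bf F v w = Bf F w v) →
      ∃ γ : Γ, ∀ v ∈ V, act γ v ∈ V → v = 0) :
    Set.range (iB ρ F) ∈ 𝓝 (1 : Mon ρ F) := by
  obtain ⟨V, hV, hVH⟩ := exists_nhds_H (ρ := ρ) hiso
  set e := iH ρ F (Finsupp.single 1 1) 0 with he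
  classical
  filter_upwards [abs_comm'_nhds e hV, abs_sq_nhds hV] with x hx1 hx2
  have hg : x.g = 1 := by
    obtain ⟨z, hz⟩ := comm_e x
    have hx1' : x * e * x⁻¹ * e⁻¹ ∈ V := hx1
    rw [he, hz] at hx1'
    have h3 := (hVH _ _ hx1').1
    by_contra hne
    have h4 := DFunLike.congr_fun h3 1
    rw [Finsupp.sub_apply, Finsupp.single_apply, Finsupp.single_apply, if_neg hne, if_pos rfl]
      at h4
    simp at h4
  have hx2' : x * x ∈ V := hx2
  have hsq : x * x = iH ρ F (x.w + x.w) (x.z + x.z + Bf F x.w x.w) := by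
    ext1
    · rw [mul_b, hg, ra_one, bb_add_self]
      rfl
    · rw [mul_w, hg, act_one]
      rfl
    · rw [mul_z, hg, act_one]
      rfl
    · rw [mul_g, hg, mul_one]
      rfl
  rw [hsq] at hx2'
  obtain ⟨h5, h6⟩ := hVH _ _ hx2'
  have hw : x.w = 0 := by
    ext g
    have := DFunLike.congr_fun h5 g
    rw [Finsupp.add_apply] at this
    exact zmod3_two _ this
  have hz : x.z = 0 := by
    rw [hw, Bf_zero_left, add_zero] at h6
    exact zmod3_two _ h6
  refine ⟨x.b, ?_⟩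
  ext1
  · rfl
  · exact hw.symm
  · exact hz.symm
  · exact hg.symm

theorem nhds_one_dichotomy (hρ : Function.Surjective ρ)
    (hiso : ∀ V : Set (Γ →₀ ZMod 3), (∀ v ∈ V, ∀ w ∈ V, Bf F v w = Bf F w v) →
      ∃ γ : Γ, ∀ v ∈ V, act γ v ∈ V → v = 0) :
    𝓝 (1 : Mon ρ F) = pure 1 ∨ 𝓝 (1 : Mon ρ F) = map (iB ρ F) fcF := by
  let t : TopologicalSpace BB := TopologicalSpace.induced (iB ρ F) inferInstance
  have hind : IsInducing (iB ρ F) := ⟨rfl⟩
  have hadd : IsTopologicalAddGroup BB := by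
    refine { continuous_add := ?_, continuous_neg := ?_ }
    · rw [hind.continuous_iff]
      have : (iB ρ F) ∘ (fun p : BB × BB => p.1 + p.2) =
          fun p : BB × BB => iB ρ F p.1 * iB ρ F p.2 := by
        funext p
        exact iB_add _ _
      rw [this]
      exact (hind.continuous.comp continuous_fst).mul (hind.continuous.comp continuous_snd)
    · rw [hind.continuous_iff]
      have : (iB ρ F) ∘ (fun p : BB => -p) = fun p : BB => (iB ρ F p)⁻¹ := by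
        funext p
        exact iB_neg _
      rw [this]
      exact hind.continuous.inv
  have hT2 : T2Space BB := (IsEmbedding.mk hind iB_injective).t2Space
  have hc : ∀ u : (Module.End (ZMod 2) BB)ˣ,
      Continuous (fun b => (u : Module.End (ZMod 2) BB) b) := by
    intro u
    obtain ⟨γ, rfl⟩ := hρ u
    rw [hind.continuous_iff]
    have : (iB ρ F) ∘ (fun b : BB => (ρ γ : Module.End (ZMod 2) BB) b) =
        fun b : BB => iG ρ F γ * iB ρ F b * (iG ρ F γ)⁻¹ := by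
      funext b
      rw [conj_iB]
      rfl
    rw [this]
    exact (continuous_const.mul hind.continuous).mul continuous_const
  have hmem := range_iB_mem_nhds (ρ := ρ) hiso
  have hmap : 𝓝 (1 : Mon ρ F) = map (iB ρ F) (𝓝 (0 : BB)) := by
    rw [hind.nhds_eq_comap, iB_zero, map_comap_of_mem hmem]
  rcases nhds_dichotomy hc with h | h
  · left
    rw [hmap, h, map_pure, iB_zero]
  · right
    rw [hmap, h]

end

/-! ### Existence of the nondiscrete topology -/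

theorem tendsto_fcF (u : Module.End (ZMod 2) BB) : Tendsto (fun b => u b) fcF fcF := by
  unfold fcF
  rw [tendsto_iInf]
  intro c
  rw [tendsto_principal]
  have hfun : ∀ b : BB, fun2 c (u b) = fun2 (fun j => fun2 c (u (Finsupp.single j 1))) b := by
    intro b
    have h1 : (fun2 c).comp u = fun2 (fun j => fun2 c (u (Finsupp.single j 1))) := by
      apply Finsupp.lhom_ext'
      intro j
      apply LinearMap.ext_ring
      show fun2 c (u (Finsupp.single j 1)) = fun2 _ (Finsupp.single j 1)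
      have h3 : ∀ c' : ℕ → ZMod 2, fun2 c' (Finsupp.single j 1) = c' j := by
        intro c'
        unfold fun2
        rw [Finsupp.linearCombination_single, one_smul]
      rw [h3]
    exact LinearMap.congr_fun h1 b
  have h2 : {b : BB | fun2 (fun j => fun2 c (u (Finsupp.single j 1))) b = 0} ∈
      (⨅ c : ℕ → ZMod 2, 𝓟 {b : BB | fun2 c b = 0}) :=
    mem_iInf_of_mem _ (mem_principal_self _)
  filter_upwards [h2] with b hb
  show fun2 c (u b) = 0
  rw [hfun]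
  exact hb

/-- Sets of `fcF` contain nonzero vectors. -/
theorem not_singleton_mem_fcF : ({0} : Set BB) ∉ fcF := by
  intro h
  unfold fcF at h
  rw [mem_iInf] at h
  obtain ⟨I, hI, V, hV, hVeq⟩ := h
  have : Finite I := hI
  have hker : ∀ b : BB, (∀ i : I, fun2 (i : ℕ → ZMod 2) b = 0) → b = 0 := by
    intro b hb
    have : b ∈ ⋂ i, V i := Set.mem_iInter.2 fun i => (mem_principal.1 (hV i)) (hb i)
    rw [← hVeq] at this
    exact this
  have hinj : Function.Injective (fun b : BB => fun i : I => fun2 (i : ℕ → ZMod 2) b) := by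
    intro b b' hbb
    have h1 : b - b' = 0 := by
      apply hker
      intro i
      rw [map_sub]
      have := congrFun hbb i
      exact sub_eq_zero.2 this
    exact sub_eq_zero.1 h1
  have hfin : Finite BB := Finite.of_injective _ hinj
  exact not_finite BB

/-- The submodules in `fcF`. -/
@[reducible] noncomputable def fcBasis (ρ : Γ →* (Module.End (ZMod 2) BB)ˣ) (F : Γ → ZMod 3) :
    GroupFilterBasis (Mon ρ F) where
  sets := {U | ∃ K : Submodule (ZMod 2) BB, (K : Set BB) ∈ fcF ∧ U = iB ρ F '' K}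
  nonempty := ⟨_, ⊤, by simp, rfl⟩
  inter_sets := by
    rintro _ _ ⟨K, hK, rfl⟩ ⟨K', hK', rfl⟩
    refine ⟨_, ⟨K ⊓ K', ?_, rfl⟩, ?_⟩
    · rw [Submodule.coe_inf]
      exact inter_mem hK hK'
    · rintro _ ⟨b, hb, rfl⟩
      exact ⟨⟨b, hb.1, rfl⟩, ⟨b, hb.2, rfl⟩⟩
  one' := by
    rintro _ ⟨K, hK, rfl⟩
    exact ⟨0, K.zero_mem, rfl⟩
  mul' := by
    rintro _ ⟨K, hK, rfl⟩
    refine ⟨_, ⟨K, hK, rfl⟩, ?_⟩
    rintro _ ⟨_, ⟨b, hb, rfl⟩, _, ⟨b', hb', rfl⟩, rfl⟩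
    exact ⟨b + b', K.add_mem hb hb', iB_add _ _⟩
  inv' := by
    rintro _ ⟨K, hK, rfl⟩
    refine ⟨_, ⟨K, hK, rfl⟩, ?_⟩
    rintro _ ⟨b, hb, rfl⟩
    exact ⟨-b, K.neg_mem hb, iB_neg _⟩
  conj' := by
    rintro x _ ⟨K, hK, rfl⟩
    refine ⟨_, ⟨K.comap (ρ x.g : Module.End (ZMod 2) BB), ?_, rfl⟩, ?_⟩
    · exact tendsto_fcF _ hK
    · rintro _ ⟨b, hb, rfl⟩
      exact ⟨ra ρ x.g b, hb, (conj_iB x b).symm⟩

theorem ker_mem_fcBasis (c : ℕ → ZMod 2) :
    iB ρ F '' {b | fun2 c b = 0} ∈ (fcBasis ρ F).sets := by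
  refine ⟨LinearMap.ker (fun2 c), ?_, ?_⟩
  · exact mem_iInf_of_mem c (mem_principal_self _)
  · rfl

/-- There is a nondiscrete Hausdorff group topology. -/
theorem exists_nondiscrete (ρ : Γ →* (Module.End (ZMod 2) BB)ˣ) (F : Γ → ZMod 3) :
    ∃ t : GroupTopology (Mon ρ F), @T2Space _ t.toTopologicalSpace ∧
      t.toTopologicalSpace ≠ ⊥ := by
  let t : TopologicalSpace (Mon ρ F) := (fcBasis ρ F).topology
  have ht : IsTopologicalGroup (Mon ρ F) := (fcBasis ρ F).isTopologicalGroup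
  refine ⟨⟨t, ht⟩, ?_, ?_⟩
  · refine IsTopologicalGroup.t2Space_of_one_sep ?_
    intro x hx
    by_cases hr : x ∈ Set.range (iB ρ F)
    · obtain ⟨b, rfl⟩ := hr
      have hb : b ≠ 0 := by
        rintro rfl
        exact hx iB_zero
      obtain ⟨j, hj⟩ : ∃ j, b j ≠ 0 := by
        by_contra h
        push Not at h
        exact hb (Finsupp.ext h)
      refine ⟨iB ρ F '' {b | fun2 (Pi.single j 1) b = 0},
        (fcBasis ρ F).mem_nhds_one (ker_mem_fcBasis _), ?_⟩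
      rintro ⟨b', hb', hbb⟩
      have := iB_injective hbb
      subst this
      apply hj
      have h1 : fun2 (Pi.single j 1) b' = b' j := by
        rw [fun2_apply]
        rw [Finset.sum_eq_single j]
        · simp
        · intro i _ hi
          rw [Pi.single_eq_of_ne hi, mul_zero]
        · intro h
          rw [Finsupp.notMem_support_iff.1 h, zero_mul]
      rw [← h1]
      exact hb'
    · refine ⟨iB ρ F '' {b | fun2 0 b = 0},
        (fcBasis ρ F).mem_nhds_one (ker_mem_fcBasis _), ?_⟩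
      rintro ⟨b', _, hbb⟩
      exact hr ⟨b', hbb⟩
  · intro hbot
    have h1 : ({1} : Set (Mon ρ F)) ∈ 𝓝 (1 : Mon ρ F) := by
      have h2 : DiscreteTopology (Mon ρ F) := ⟨hbot⟩
      exact (isOpen_discrete _).mem_nhds rfl
    obtain ⟨_, ⟨K, hK, rfl⟩, hsub⟩ := (fcBasis ρ F).nhds_one_hasBasis.mem_iff.1 h1
    apply not_singleton_mem_fcF
    refine mem_of_superset hK ?_
    intro b hb
    have h3 : iB ρ F b ∈ ({1} : Set (Mon ρ F)) := hsub ⟨b, hb, rfl⟩
    exact iB_injective (h3.trans iB_zero.symm)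

end Pool.Agent.Helper46
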