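import Mathlib
import Pool.Agent.Helper46.Isotropic
import Pool.Agent.Helper46.TopG

/-!
A group with exactly two Hausdorff group topologies.
-/

set_option autoImplicit false
set_option linter.unusedSectionVars false
set_option linter.unusedVariables false

namespace Pool.Agent.Helper46

open Cardinal Topology

theorem exists_letters : ∃ (S : Type) (_ : LinearOrder S) (_ : WellFoundedLT S) (_ : Nonempty S),
    #S = 𝔠 ∧ (∀ t : S, #(Set.Iio t) < 𝔠) ∧
    (∀ A : Set S, A.Countable → ∃ t, ∀ x ∈ A, x < t) ∧
    ∃ e : S → ℕ → ℕ → S, Function.Surjective e := by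
  have hmk : #(Cardinal.continuum.{0}).ord.ToType = 𝔠 := Cardinal.mk_ord_toType _
  have hord : Cardinal.ord #(Cardinal.continuum.{0}).ord.ToType =
      Ordinal.type (α := (Cardinal.continuum.{0}).ord.ToType) (· < ·) := by
    rw [hmk, Ordinal.type_toType]
  have hne : Nonempty (Cardinal.continuum.{0}).ord.ToType := by
    rw [← Cardinal.mk_ne_zero_iff, hmk]
    exact continuum_ne_zero
  refine ⟨(Cardinal.continuum.{0}).ord.ToType, inferInstance, inferInstance, hne, hmk,
    ?_, ?_, ?_⟩
  · intro t
    have := Cardinal.mk_Iio_lt t hord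
    rwa [hmk] at this
  · intro A hA
    by_contra hcon
    have hcof : IsCofinal A := by
      intro t
      by_contra h
      push Not at h
      exact hcon ⟨t, h⟩
    have h1 : Order.cof (Cardinal.continuum.{0}).ord.ToType ≤ #A := Order.cof_le hcof
    rw [Ordinal.cof_toType] at h1
    have h2 : ℵ₀ < (Cardinal.continuum.{0}).ord.cof := by
      have := Cardinal.lt_cof_ord_power (a := ℵ₀) (b := 2) le_rfl Cardinal.one_lt_two
      rwa [Cardinal.two_power_aleph0] at this
    have h3 : #A ≤ ℵ₀ := by
      have := hA.to_subtype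
      exact Cardinal.mk_le_aleph0
    exact absurd (h1.trans h3) (not_le.2 h2)
  · have h : #(Cardinal.continuum.{0}).ord.ToType =
        #(ℕ → ℕ → (Cardinal.continuum.{0}).ord.ToType) := by
      simp only [← Cardinal.power_def, hmk, Cardinal.mk_nat]
      rw [Cardinal.continuum_power_aleph0, Cardinal.continuum_power_aleph0]
    obtain ⟨E⟩ := Cardinal.eq.1 h
    exact ⟨E, E.surjective⟩

theorem exists_rho (S : Type) (hS : #S = 𝔠) : ∃ ρ : FreeGroup S →* (Module.End (ZMod 2) BB)ˣ,
    Function.Surjective ρ := by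
  have hBB : #BB ≤ ℵ₀ := Cardinal.mk_le_aleph0
  have h1 : #(Module.End (ZMod 2) BB)ˣ ≤ #S := by
    have h2 : Function.Injective (fun u : (Module.End (ZMod 2) BB)ˣ =>
        fun j : BB => (u : Module.End (ZMod 2) BB) j) := by
      intro u v huv
      apply Units.ext
      apply LinearMap.ext
      intro b
      exact congrFun huv b
    refine (Cardinal.mk_le_of_injective h2).trans ?_
    rw [hS]
    calc #(BB → BB) = #BB ^ #BB := by rw [← Cardinal.power_def]
      _ ≤ ℵ₀ ^ #BB := Cardinal.power_le_power_right hBB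
      _ ≤ ℵ₀ ^ ℵ₀ := Cardinal.power_le_power_left Cardinal.aleph0_ne_zero hBB
      _ = 𝔠 := Cardinal.aleph0_power_aleph0
  obtain ⟨E⟩ := Cardinal.le_def _ _ |>.1 h1
  refine ⟨FreeGroup.lift (Function.invFun E), ?_⟩
  apply FreeGroup.lift_surjective_of_surjective
  exact Function.invFun_surjective E.injective

theorem exists_group : ∃ (G : Type) (_ : Group G) (F0 : Filter G), Infinite G ∧
    (∃ t : GroupTopology G, @T2Space G t.toTopologicalSpace ∧ t.toTopologicalSpace ≠ ⊥) ∧
    ∀ t : GroupTopology G, @T2Space G t.toTopologicalSpace →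
      (@nhds G t.toTopologicalSpace 1 = pure 1 ∨ @nhds G t.toTopologicalSpace 1 = F0) := by
  classical
  obtain ⟨S, _, _, _, hmk, hcard, hbdd, e, he⟩ := exists_letters
  obtain ⟨ρ, hρ⟩ := exists_rho S hmk
  obtain ⟨F, hF⟩ := isotropic_bounded hcard hbdd e he
  refine ⟨Mon ρ F, inferInstance, Filter.map (iB ρ F) fcF, ?_, exists_nondiscrete ρ F, ?_⟩
  · exact Infinite.of_injective _ (iB_injective (ρ := ρ) (F := F))
  · intro t ht
    let := t.toTopologicalSpace
    have := t.toIsTopologicalGroup
    refine nhds_one_dichotomy hρ ?_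
    intro V hV
    obtain ⟨t0, ht0⟩ := hF V hV
    refine ⟨FreeGroup.of t0, ?_⟩
    intro v hv hv2
    by_contra hne
    obtain ⟨g, hg⟩ := Finsupp.support_nonempty_iff.2 hne
    have hinj : Function.Injective (fun g : FreeGroup S => FreeGroup.of t0 * g) :=
      mul_right_injective _
    have hg2 : FreeGroup.of t0 * g ∈ (act (FreeGroup.of t0) v).support := by
      unfold act
      rw [Finsupp.mapDomain_support_of_injective hinj]
      exact Finset.mem_image_of_mem _ hg
    have h1 : t0 ∈ letters (FreeGroup.of t0) := by rw [letters_of]; exact Finset.mem_singleton_self _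
    have h2 : FreeGroup.of t0 = (FreeGroup.of t0 * g) * g⁻¹ := by group
    rw [h2] at h1
    have h3 := letters_mul_subset _ _ h1
    rw [Finset.mem_union, letters_inv] at h3
    rcases h3 with h | h
    · exact absurd (ht0 _ hv2 _ hg2 _ h) (lt_irrefl _)
    · exact absurd (ht0 _ hv _ hg _ h) (lt_irrefl _)

end Pool.Agent.Helper46
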