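import Mathlib

set_option autoImplicit false

namespace Pool.Agent.Helper46.Glue

/-- A submonoid of `(ℕ, +)` is a numerical semigroup when its complement is finite. -/
def IsNumerical (S : AddSubmonoid ℕ) : Prop := ((S : Set ℕ)ᶜ).Finite

/-- The minimal generators of `S`: the nonzero elements which are not the sum of two nonzero
elements. -/
def minGens (S : AddSubmonoid ℕ) : Set ℕ :=
  {x | x ∈ S ∧ x ≠ 0 ∧ ∀ y ∈ S, ∀ z ∈ S, x = y + z → y = 0 ∨ z = 0}

/-- The embedding dimension. -/
noncomputable def embDim (S : AddSubmonoid ℕ) : ℕ := (minGens S).ncard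

/-- The multiplicity: the least nonzero element. -/
noncomputable def mult (S : AddSubmonoid ℕ) : ℕ := sInf {x | x ∈ S ∧ x ≠ 0}

/-- `S` is a gluing of `S₁` and `S₂`. -/
def IsGluing (S S₁ S₂ : AddSubmonoid ℕ) : Prop :=
  ∃ l m : ℕ, (l ∈ S₁ ∧ l ∉ minGens S₁) ∧ (m ∈ S₂ ∧ m ∉ minGens S₂) ∧ Nat.gcd l m = 1 ∧
    S = AddSubmonoid.closure
      ((fun x => m * x) '' minGens S₁ ∪ (fun x => l * x) '' minGens S₂)

/-- The least family containing the numerical semigroups of maximal embedding dimension and closed
under gluing. -/
inductive InG : AddSubmonoid ℕ → Prop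
  | med {S : AddSubmonoid ℕ} (hS : IsNumerical S) (h : embDim S = mult S) : InG S
  | glue {S S₁ S₂ : AddSubmonoid ℕ} (h₁ : InG S₁) (h₂ : InG S₂) (h : IsGluing S S₁ S₂) : InG S

/-- The element of `S` with the given factorization (a multiset of minimal generators). -/
def value (S : AddSubmonoid ℕ) (z : Multiset (minGens S)) : ℕ := (z.map (fun x => (x : ℕ))).sum

/-- `ρ` is a presentation of `S`: the congruence which it generates on the free commutative monoid
over the minimal generators relates exactly the pairs of factorizations of the same element. -/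
def IsPresentation (S : AddSubmonoid ℕ)
    (ρ : Set (Multiset (minGens S) × Multiset (minGens S))) : Prop :=
  ∀ z z' : Multiset (minGens S),
    addConGen (fun a b => (a, b) ∈ ρ) z z' ↔ value S z = value S z'

/-- The cardinality of a minimal presentation: the least cardinality of a presentation. -/
noncomputable def presNum (S : AddSubmonoid ℕ) : ℕ∞ :=
  ⨅ (ρ : Set (Multiset (minGens S) × Multiset (minGens S))) (_ : IsPresentation S ρ), ρ.encard

/-- `P` is a partition of the minimal generators of `S` into blocks `A` with
`min A = |A| * gcd A`. -/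
structure IsBlockPartition (S : AddSubmonoid ℕ) (P : Finset (Finset ℕ)) : Prop where
  disjoint : (P : Set (Finset ℕ)).PairwiseDisjoint id
  union : ∀ x, x ∈ minGens S ↔ ∃ A ∈ P, x ∈ A
  block : ∀ A ∈ P, ∃ h : A.Nonempty, A.min' h = A.card * A.gcd id

/-- `delta S` is the largest value of the sum of `binomial(|A| - 1, 2)` over the blocks `A` of a
block partition of the minimal generators of `S`. -/
noncomputable def delta (S : AddSubmonoid ℕ) : ℕ :=
  sSup {n | ∃ P, IsBlockPartition S P ∧ n = ∑ A ∈ P, (A.card - 1).choose 2}

end Pool.Agent.Helper46.Glue
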