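import Mathlib
import Pool.Agent.Helper46.GlueDefs

/-!
Congruences generated by a set of pairs as reachability, and the exchange lemma.
-/

set_option autoImplicit false
set_option linter.unusedSectionVars false
set_option linter.unusedVariables false

namespace Pool.Agent.Helper46.Glue

open Relation

section Step

variable {M : Type*} [AddCommMonoid M]

/-- One elementary move. -/
def Step (r : Set (M × M)) (x y : M) : Prop :=
  ∃ a b c, (a, b) ∈ r ∧ ((x = c + a ∧ y = c + b) ∨ (x = c + b ∧ y = c + a))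

theorem Step.symm {r : Set (M × M)} {x y : M} (h : Step r x y) : Step r y x := by
  obtain ⟨a, b, c, hab, h⟩ := h
  exact ⟨a, b, c, hab, h.symm.imp (fun h => ⟨h.2, h.1⟩) (fun h => ⟨h.2, h.1⟩)⟩

theorem Step.add {r : Set (M × M)} {x y : M} (h : Step r x y) (w : M) :
    Step r (w + x) (w + y) := by
  obtain ⟨a, b, c, hab, h⟩ := h
  refine ⟨a, b, w + c, hab, ?_⟩
  rcases h with ⟨rfl, rfl⟩ | ⟨rfl, rfl⟩
  · exact Or.inl ⟨by rw [add_assoc], by rw [add_assoc]⟩
  · exact Or.inr ⟨by rw [add_assoc], by rw [add_assoc]⟩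

theorem reach_symm {r : Set (M × M)} {x y : M} (h : ReflTransGen (Step r) x y) :
    ReflTransGen (Step r) y x := by
  induction h with
  | refl => exact ReflTransGen.refl
  | tail _ h ih => exact ReflTransGen.head h.symm ih

theorem reach_add {r : Set (M × M)} {x y : M} (h : ReflTransGen (Step r) x y) (w : M) :
    ReflTransGen (Step r) (w + x) (w + y) := by
  induction h with
  | refl => exact ReflTransGen.refl
  | tail _ h ih => exact ih.tail (h.add w)

theorem addConGen_iff (r : Set (M × M)) (x y : M) :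
    addConGen (fun a b => (a, b) ∈ r) x y ↔ ReflTransGen (Step r) x y := by
  constructor
  · intro h
    change AddConGen.Rel (fun a b => (a, b) ∈ r) x y at h
    induction h with
    | of a b hab =>
      exact ReflTransGen.single ⟨a, b, 0, hab, Or.inl ⟨by rw [zero_add], by rw [zero_add]⟩⟩
    | refl a => exact ReflTransGen.refl
    | symm _ ih => exact reach_symm ih
    | trans _ _ ih1 ih2 => exact ih1.trans ih2
    | add _ _ ih1 ih2 =>
      rename_i w x y z _ _
      have h1 := reach_add ih1 y
      have h2 := reach_add ih2 x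
      rw [add_comm y, add_comm y] at h1
      exact h1.trans h2
  · intro h
    induction h with
    | refl => exact AddConGen.Rel.refl _
    | tail _ h ih =>
      refine AddConGen.Rel.trans ih ?_
      obtain ⟨a, b, c, hab, h⟩ := h
      rcases h with ⟨rfl, rfl⟩ | ⟨rfl, rfl⟩
      · exact AddConGen.Rel.add (AddConGen.Rel.refl _) (AddConGen.Rel.of _ _ hab)
      · exact AddConGen.Rel.add (AddConGen.Rel.refl _)
          (AddConGen.Rel.symm (AddConGen.Rel.of _ _ hab))

theorem reach_mono {r r' : Set (M × M)} (h : ∀ a b, (a, b) ∈ r → ReflTransGen (Step r') a b)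
    {x y : M} (hxy : ReflTransGen (Step r) x y) : ReflTransGen (Step r') x y := by
  induction hxy with
  | refl => exact ReflTransGen.refl
  | tail _ hs ih =>
    refine ih.trans ?_
    obtain ⟨a, b, c, hab, hs⟩ := hs
    rcases hs with ⟨rfl, rfl⟩ | ⟨rfl, rfl⟩
    · exact reach_add (h a b hab) c
    · exact reach_add (reach_symm (h a b hab)) c

end Step

/-- Last exit decomposition. -/
theorem last_exit {V : Type*} {r : V → V → Prop} {a b : V} (h : ReflTransGen r a b)
    (hab : b ≠ a) :
    ∃ c, r a c ∧ c ≠ a ∧ ReflTransGen (fun x y => r x y ∧ x ≠ a ∧ y ≠ a) c b := by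
  induction h with
  | refl => exact absurd rfl hab
  | tail h1 h2 ih =>
    rename_i b' b
    by_cases hb : b' = a
    · subst hb
      exact ⟨b, h2, hab, ReflTransGen.refl⟩
    · obtain ⟨c, hc1, hc2, hc3⟩ := ih hb
      exact ⟨c, hc1, hc2, hc3.tail ⟨h2, hb, hab⟩⟩

section Exchange

variable {X : Type*} (φ : Multiset X →+ ℕ)

/-- `ρ` generates the kernel congruence of `φ`. -/
def Gens (ρ : Set (Multiset X × Multiset X)) : Prop :=
  ∀ z z', ReflTransGen (Step ρ) z z' ↔ φ z = φ z'

theorem Gens.eq_of_mem {ρ : Set (Multiset X × Multiset X)} (h : Gens φ ρ)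
    {a b : Multiset X} (hab : (a, b) ∈ ρ) : φ a = φ b :=
  (h a b).1 (ReflTransGen.single ⟨a, b, 0, hab, Or.inl ⟨by rw [zero_add], by rw [zero_add]⟩⟩)

/-- One exchange. -/
theorem exchange_one [DecidableEq X] (hpos : ∀ z, φ z = 0 → z = 0)
    (ρ : Finset (Multiset X × Multiset X)) (hρ : Gens φ ρ)
    (p y : Multiset X) (hpy : φ p = φ y) (hne : y ≠ p)
    (hiso : ∀ a, a ≤ p → ∀ b, φ a = φ b → a ≠ b → a = p) :
    ∃ r ∈ ρ, (r.1 = p ∨ r.2 = p) ∧ r.1 ≠ r.2 ∧
      Gens φ (↑(insert (p, y) (ρ.erase r)) : Set (Multiset X × Multiset X)) := by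
  have hreach := (hρ p y).2 hpy
  obtain ⟨q, hq1, hq2, hq3⟩ := last_exit hreach hne
  obtain ⟨a, b, c, hab, hcase⟩ := hq1
  -- the relation used is `{p, q}`
  have hφab : φ a = φ b := hρ.eq_of_mem φ hab
  have key : ∃ r ∈ ρ, (r = (p, q) ∨ r = (q, p)) := by
    rcases hcase with ⟨h1, h2⟩ | ⟨h1, h2⟩
    · have hap : a = p := by
        apply hiso a (by rw [h1]; exact Multiset.le_add_left a c) b hφab
        intro h
        exact hq2 (by rw [h2, ← h, ← h1])
      have hc : c = 0 := by
        rw [hap] at h1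
        exact (left_eq_add.1 (by rw [add_comm]; exact h1) : c = 0)
      refine ⟨(a, b), hab, Or.inl ?_⟩
      rw [hap, h2, hc, zero_add]
    · have hap : b = p := by
        apply hiso b (by rw [h1]; exact Multiset.le_add_left b c) a hφab.symm
        intro h
        exact hq2 (by rw [h2, ← h, ← h1])
      have hc : c = 0 := by
        rw [hap] at h1
        exact (left_eq_add.1 (by rw [add_comm]; exact h1) : c = 0)
      refine ⟨(a, b), hab, Or.inr ?_⟩
      rw [hap, h2, hc, zero_add]
  obtain ⟨r, hr, hrpq⟩ := key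
  have hrne : r.1 ≠ r.2 := by
    rcases hrpq with rfl | rfl
    · exact hq2.symm
    · exact hq2
  have hrp : r.1 = p ∨ r.2 = p := by
    rcases hrpq with rfl | rfl
    · exact Or.inl rfl
    · exact Or.inr rfl
  have hφpq : φ p = φ q := by
    rcases hrpq with rfl | rfl
    · exact hρ.eq_of_mem φ hr
    · exact (hρ.eq_of_mem φ hr).symm
  refine ⟨r, hr, hrp, hrne, ?_⟩
  set ρ1 : Set (Multiset X × Multiset X) := ↑(insert (p, y) (ρ.erase r)) with hρ1
  have hmem : ∀ s ∈ ρ, s ≠ r → s ∈ ρ1 := by
    intro s hs hsr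
    rw [hρ1, Finset.mem_coe, Finset.mem_insert, Finset.mem_erase]
    exact Or.inr ⟨hsr, hs⟩
  have hpy1 : (p, y) ∈ ρ1 := by
    rw [hρ1, Finset.mem_coe]
    exact Finset.mem_insert_self _ _
  -- from `q` to `y` avoiding `p`
  have hqy : ReflTransGen (Step ρ1) q y ∧ φ q = φ y := by
    clear hne hpy hreach hpy1 hρ1
    have hmem' : ∀ s ∈ ρ, s ≠ r → s ∈ ρ1 := hmem
    clear_value ρ1
    induction hq3 with
    | refl => exact ⟨ReflTransGen.refl, rfl⟩
    | tail _ hs ih =>
      obtain ⟨ih1, ih2⟩ := ih
      obtain ⟨⟨a', b', c', hab', hs⟩, hx, hy⟩ := hs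
      have hval : φ a' = φ b' := hρ.eq_of_mem φ hab'
      refine ⟨ih1.tail ⟨a', b', c', hmem' _ hab' ?_, hs⟩, ?_⟩
      · -- the move does not use `r`
        intro hrr
        have hcz : ∀ w, w = c' + p → φ w = φ p → w = p := by
          intro w hw hφw
          have : φ c' = 0 := by
            rw [hw, map_add] at hφw
            omega
          rw [hw, hpos c' this, zero_add]
        rcases hrpq with h | h
        · rw [h] at hrr
          have e1 : a' = p := congrArg Prod.fst hrr
          have e2 : b' = q := congrArg Prod.snd hrr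
          rcases hs with ⟨h1, h2⟩ | ⟨h1, h2⟩
          · rw [e1] at h1
            exact hx (hcz _ h1 (by rw [← ih2, ← hφpq]))
          · rw [e1] at h2
            refine hy (hcz _ h2 ?_)
            have : φ (c' + p) = φ (c' + q) := by rw [map_add, map_add, hφpq]
            rw [h2, this, ← e2, ← h1, ← ih2, ← hφpq]
        · rw [h] at hrr
          have e1 : a' = q := congrArg Prod.fst hrr
          have e2 : b' = p := congrArg Prod.snd hrr
          rcases hs with ⟨h1, h2⟩ | ⟨h1, h2⟩
          · rw [e2] at h2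
            refine hy (hcz _ h2 ?_)
            have : φ (c' + p) = φ (c' + q) := by rw [map_add, map_add, hφpq]
            rw [h2, this, ← e1, ← h1, ← ih2, ← hφpq]
          · rw [e2] at h1
            exact hx (hcz _ h1 (by rw [← ih2, ← hφpq]))
      · rw [ih2]
        rcases hs with ⟨h1, h2⟩ | ⟨h1, h2⟩
        · rw [h1, h2, map_add, map_add, hval]
        · rw [h1, h2, map_add, map_add, hval]
  intro z z'
  constructor
  · intro h
    rw [← hρ z z']
    refine reach_mono ?_ h
    intro a b hab
    rw [hρ1, Finset.mem_coe, Finset.mem_insert, Finset.mem_erase] at hab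
    rcases hab with hab | ⟨_, hab⟩
    · obtain ⟨rfl, rfl⟩ := Prod.mk.inj hab
      exact (hρ _ _).2 hpy
    · exact ReflTransGen.single ⟨a, b, 0, hab, Or.inl ⟨by rw [zero_add], by rw [zero_add]⟩⟩
  · intro h
    refine reach_mono ?_ ((hρ z z').2 h)
    intro a b hab
    by_cases hr2 : (a, b) = r
    · -- `p` and `q` are related
      have h1 : ReflTransGen (Step ρ1) p q :=
        (ReflTransGen.single ⟨p, y, 0, hpy1, Or.inl ⟨by rw [zero_add], by rw [zero_add]⟩⟩).trans
          (reach_symm hqy.1)
      rcases hrpq with h2 | h2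
      · rw [h2] at hr2
        obtain ⟨rfl, rfl⟩ := Prod.mk.inj hr2
        exact h1
      · rw [h2] at hr2
        obtain ⟨rfl, rfl⟩ := Prod.mk.inj hr2
        exact reach_symm h1
    · exact ReflTransGen.single ⟨a, b, 0, hmem _ hab hr2,
        Or.inl ⟨by rw [zero_add], by rw [zero_add]⟩⟩

/-- All special pairs can be put into the presentation without increasing its size. -/
theorem exchange_all [DecidableEq X] (hpos : ∀ z, φ z = 0 → z = 0)
    (ρ : Finset (Multiset X × Multiset X)) (hρ : Gens φ ρ)
    (P : Finset (Multiset X)) (y : Multiset X → Multiset X) (hpy : ∀ p ∈ P, φ p = φ (y p))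
    (hyP : ∀ p ∈ P, y p ∉ P)
    (hiso : ∀ p ∈ P, ∀ a, a ≤ p → ∀ b, φ a = φ b → a ≠ b → a = p) :
    ∃ ρ' : Finset (Multiset X × Multiset X), ρ'.card ≤ ρ.card ∧ Gens φ ρ' ∧
      ∀ p ∈ P, (p, y p) ∈ ρ' := by
  have key : ∀ Q : Finset (Multiset X), Q ⊆ P → ∃ ρ' : Finset (Multiset X × Multiset X),
      ρ'.card ≤ ρ.card ∧ Gens φ ρ' ∧ ∀ p ∈ Q, (p, y p) ∈ ρ' := by
    intro Q
    induction Q using Finset.induction_on with
    | empty => intro _; exact ⟨ρ, le_rfl, hρ, by simp⟩
    | insert p Q hpQ ih =>
      intro hsub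
      obtain ⟨ρ', h1, h2, h3⟩ := ih ((Finset.subset_insert _ _).trans hsub)
      have hpP : p ∈ P := hsub (Finset.mem_insert_self _ _)
      have hne : y p ≠ p := fun h => hyP p hpP (by rw [h]; exact hpP)
      obtain ⟨r, hr, hrp, hrne, hg⟩ := exchange_one φ hpos ρ' h2 p (y p) (hpy p hpP) hne
        (hiso p hpP)
      refine ⟨insert (p, y p) (ρ'.erase r), ?_, hg, ?_⟩
      · refine (Finset.card_insert_le _ _).trans ?_
        rw [Finset.card_erase_of_mem hr]
        have : 0 < ρ'.card := Finset.card_pos.2 ⟨r, hr⟩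
        omega
      · intro p' hp'
        rw [Finset.mem_insert] at hp' ⊢
        rcases hp' with rfl | hp'
        · exact Or.inl rfl
        · right
          rw [Finset.mem_erase]
          refine ⟨?_, h3 p' hp'⟩
          rintro rfl
          rcases hrp with h | h
          · have h' : p' = p := h
            exact hpQ (h' ▸ hp')
          · have h' : y p' = p := h
            have hp'P : p' ∈ P := hsub (Finset.mem_insert_of_mem hp')
            exact hyP p' hp'P (by rw [h']; exact hpP)
  exact key P (Finset.Subset.refl _)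

end Exchange

end Pool.Agent.Helper46.Glue
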