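import Mathlib
import Pool.Agent.Helper46.GlueStep

/-!
A product of submonoids of `ℕ` modulo few relations: merging two blocks.
-/

set_option autoImplicit false
set_option linter.unusedSectionVars false
set_option linter.unusedVariables false

namespace Pool.Agent.Helper46.Glue

open Relation

theorem reach_map {M N : Type*} [AddCommMonoid M] [AddCommMonoid N] (f : M →+ N)
    {r : Set (M × M)} {r' : Set (N × N)}
    (h : ∀ a b, (a, b) ∈ r → ReflTransGen (Step r') (f a) (f b))
    {x y : M} (hxy : ReflTransGen (Step r) x y) : ReflTransGen (Step r') (f x) (f y) := by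
  induction hxy with
  | refl => exact ReflTransGen.refl
  | tail _ hs ih =>
    refine ih.trans ?_
    obtain ⟨a, b, c, hab, hs⟩ := hs
    rcases hs with ⟨rfl, rfl⟩ | ⟨rfl, rfl⟩
    · rw [map_add, map_add]
      exact reach_add (h a b hab) _
    · rw [map_add, map_add]
      exact reach_add (reach_symm (h a b hab)) _

section

variable {κ : Type} [Fintype κ] [DecidableEq κ]

/-- The product of the submonoids `T l`. -/
def MT (T : κ → AddSubmonoid ℕ) : Set (κ → ℕ) := {x | ∀ l, x l ∈ T l}

/-- `ρ` generates the kernel of the sum map. -/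
structure GenT (T : κ → AddSubmonoid ℕ) (ρ : Finset ((κ → ℕ) × (κ → ℕ))) : Prop where
  mem : ∀ r ∈ ρ, r.1 ∈ MT T ∧ r.2 ∈ MT T ∧ ∑ l, r.1 l = ∑ l, r.2 l
  gen : ∀ x ∈ MT T, ∀ y ∈ MT T, ∑ l, x l = ∑ l, y l →
    ReflTransGen (Step (ρ : Set ((κ → ℕ) × (κ → ℕ)))) x y

theorem single_mem_MT (T : κ → AddSubmonoid ℕ) (v : κ) {t : ℕ} (ht : t ∈ T v) :
    (Pi.single v t : κ → ℕ) ∈ MT T := by
  intro l
  by_cases h : l = v
  · subst h; rw [Pi.single_eq_same]; exact ht
  · rw [Pi.single_eq_of_ne h]; exact (T l).zero_mem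

theorem sum_single (v : κ) (t : ℕ) : ∑ l, (Pi.single v t : κ → ℕ) l = t := by
  rw [Finset.sum_eq_single v]
  · rw [Pi.single_eq_same]
  · intro b _ hb; rw [Pi.single_eq_of_ne hb]
  · intro h; exact absurd (Finset.mem_univ v) h

theorem exists_side (T : κ → AddSubmonoid ℕ) (hT : ∀ l, ∃ t ∈ T l, t ≠ 0)
    (ρ : Finset ((κ → ℕ) × (κ → ℕ))) (hρ : GenT T ρ) (v v' : κ) (hvv : v ≠ v') :
    ∃ r ∈ ρ, ∃ α : ℕ, α ≠ 0 ∧ (r.1 = Pi.single v α ∨ r.2 = Pi.single v α) := by
  obtain ⟨t, ht, ht0⟩ := hT v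
  obtain ⟨t', ht', ht0'⟩ := hT v'
  have hx : (Pi.single v (t' * t) : κ → ℕ) ∈ MT T :=
    single_mem_MT T v (by rw [← smul_eq_mul]; exact (T v).nsmul_mem ht t')
  have hy : (Pi.single v' (t * t') : κ → ℕ) ∈ MT T :=
    single_mem_MT T v' (by rw [← smul_eq_mul]; exact (T v').nsmul_mem ht' t)
  have hreach := hρ.gen _ hx _ hy (by rw [sum_single, sum_single, mul_comm])
  have hne : (Pi.single v' (t * t') : κ → ℕ) ≠ Pi.single v (t' * t) := by
    intro h
    have := congrFun h v
    rw [Pi.single_eq_of_ne hvv, Pi.single_eq_same] at this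
    exact mul_ne_zero ht0' ht0 this.symm
  obtain ⟨c, hc1, hc2, _⟩ := last_exit hreach hne
  obtain ⟨a, b, e, hab, hcase⟩ := hc1
  have hsum := (hρ.mem _ hab).2.2
  simp only at hsum
  -- the used side
  have key : ∀ a b : κ → ℕ, ∑ l, a l = ∑ l, b l → (Pi.single v (t' * t) : κ → ℕ) = e + a →
      c = e + b → ∃ α : ℕ, α ≠ 0 ∧ a = Pi.single v α := by
    intro a b hsum h1 h2
    have hsupp : ∀ l, l ≠ v → a l = 0 := by
      intro l hl
      have := congrFun h1 l
      rw [Pi.single_eq_of_ne hl, Pi.add_apply] at this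
      omega
    have ha : a = Pi.single v (a v) := by
      funext l
      by_cases hl : l = v
      · subst hl; rw [Pi.single_eq_same]
      · rw [Pi.single_eq_of_ne hl]; exact hsupp l hl
    refine ⟨a v, ?_, ha⟩
    intro h0
    have ha0 : a = 0 := by rw [ha, h0, Pi.single_zero]
    have hb0 : b = 0 := by
      rw [ha0] at hsum
      simp only [Pi.zero_apply, Finset.sum_const_zero] at hsum
      have := (Finset.sum_eq_zero_iff.1 hsum.symm)
      funext l
      exact this l (Finset.mem_univ l)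
    exact hc2 (by rw [h2, h1, ha0, hb0])
  rcases hcase with ⟨h1, h2⟩ | ⟨h1, h2⟩
  · obtain ⟨α, hα, h⟩ := key a b hsum h1 h2
    exact ⟨(a, b), hab, α, hα, Or.inl h⟩
  · obtain ⟨α, hα, h⟩ := key b a hsum.symm h1 h2
    exact ⟨(a, b), hab, α, hα, Or.inr h⟩

theorem exists_pair (T : κ → AddSubmonoid ℕ) (hT : ∀ l, ∃ t ∈ T l, t ≠ 0)
    (ρ : Finset ((κ → ℕ) × (κ → ℕ))) (hρ : GenT T ρ) (hcard : ρ.card < Fintype.card κ)
    (h2 : 2 ≤ Fintype.card κ) :
    ∃ (p q : κ) (α : ℕ), p ≠ q ∧ α ≠ 0 ∧ (Pi.single p α, Pi.single q α) ∈ ρ := by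
  have hnt : Nontrivial κ := Fintype.one_lt_card_iff_nontrivial.1 h2
  have h : ∀ v : κ, ∃ r ∈ ρ, ∃ α : ℕ, α ≠ 0 ∧ (r.1 = Pi.single v α ∨ r.2 = Pi.single v α) := by
    intro v
    obtain ⟨v', hv'⟩ := exists_ne v
    exact exists_side T hT ρ hρ v v' hv'.symm
  choose f hf α hα hside using h
  obtain ⟨p, _, q, _, hpq, hfpq⟩ := Finset.exists_ne_map_eq_of_card_lt_of_maps_to
    (s := (Finset.univ : Finset κ)) (t := ρ) (by rw [Finset.card_univ]; exact hcard)
    (f := f) (fun v _ => hf v)
  have hsum := (hρ.mem _ (hf p)).2.2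
  have hsingle : ∀ (a : κ → ℕ) (x y : ℕ), x ≠ 0 → a = Pi.single p x → a = Pi.single q y →
      False := by
    intro a x y hx h1 h2
    have := congrFun (h1.symm.trans h2) p
    rw [Pi.single_eq_same, Pi.single_eq_of_ne hpq] at this
    exact hx this
  have hq := hside q
  rw [← hfpq] at hq
  rcases hside p with h1 | h1 <;> rcases hq with h3 | h3
  · exact (hsingle _ _ _ (hα p) h1 h3).elim
  · have hαα : α p = α q := by
      rw [h1, h3, sum_single, sum_single] at hsum
      exact hsum
    refine ⟨p, q, α p, hpq, hα p, ?_⟩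
    have : f p = (Pi.single p (α p), Pi.single q (α p)) := by
      refine Prod.ext h1 ?_
      rw [h3, hαα]
    rw [← this]
    exact hf p
  · have hαα : α q = α p := by
      rw [h1, h3, sum_single, sum_single] at hsum
      exact hsum
    refine ⟨q, p, α q, hpq.symm, hα q, ?_⟩
    have : f p = (Pi.single q (α q), Pi.single p (α q)) := by
      refine Prod.ext h3 ?_
      rw [h1, hαα]
    rw [← this]
    exact hf p
  · exact (hsingle _ _ _ (hα p) h1 h3).elim

/-- Merging the block `q` into the block `p`. -/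
def mg (p q : κ) : (κ → ℕ) →+ ({l : κ // l ≠ q} → ℕ) where
  toFun x l := if (l : κ) = p then x p + x q else x l
  map_zero' := by
    funext l
    simp
  map_add' x y := by
    funext l
    simp only [Pi.add_apply]
    split_ifs <;> ring

theorem sum_mg (p q : κ) (hpq : p ≠ q) (x : κ → ℕ) : ∑ l, mg p q x l = ∑ l, x l := by
  have h1 : ∑ l, x l = x q + ∑ l : {l : κ // l ≠ q}, x l :=
    Fintype.sum_eq_add_sum_subtype_ne x q
  rw [h1]
  have h2 : ∀ l : {l : κ // l ≠ q}, mg p q x l = x l + (if l = ⟨p, hpq⟩ then x q else 0) := by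
    intro l
    show (if (l : κ) = p then x p + x q else x l) = _
    by_cases h : (l : κ) = p
    · have : l = ⟨p, hpq⟩ := Subtype.ext h
      rw [if_pos h, if_pos this, h]
    · have : l ≠ ⟨p, hpq⟩ := fun h' => h (congrArg Subtype.val h')
      rw [if_neg h, if_neg this, add_zero]
  rw [Finset.sum_congr rfl (fun l _ => h2 l), Finset.sum_add_distrib, Finset.sum_ite_eq']
  simp [add_comm]

/-- The merged family. -/
def TM (T : κ → AddSubmonoid ℕ) (p q : κ) : {l : κ // l ≠ q} → AddSubmonoid ℕ :=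
  fun l => if (l : κ) = p then T p ⊔ T q else T l

theorem mg_mem (T : κ → AddSubmonoid ℕ) (p q : κ) {x : κ → ℕ} (hx : x ∈ MT T) :
    mg p q x ∈ MT (TM T p q) := by
  intro l
  show (if (l : κ) = p then x p + x q else x l) ∈ (if (l : κ) = p then T p ⊔ T q else T l)
  split_ifs with h
  · exact AddSubmonoid.add_mem_sup (hx p) (hx q)
  · exact hx l

theorem genT_merge (T : κ → AddSubmonoid ℕ) (ρ : Finset ((κ → ℕ) × (κ → ℕ))) (hρ : GenT T ρ)
    (p q : κ) (hpq : p ≠ q) (α : ℕ) (hmem : (Pi.single p α, Pi.single q α) ∈ ρ) :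
    GenT (TM T p q) ((ρ.erase (Pi.single p α, Pi.single q α)).image
      (Prod.map (mg p q) (mg p q))) := by
  refine ⟨?_, ?_⟩
  · intro r hr
    rw [Finset.mem_image] at hr
    obtain ⟨s, hs, rfl⟩ := hr
    obtain ⟨h1, h2, h3⟩ := hρ.mem s (Finset.mem_of_mem_erase hs)
    refine ⟨mg_mem T p q h1, mg_mem T p q h2, ?_⟩
    simp only [Prod.map_fst, Prod.map_snd]
    rw [sum_mg p q hpq, sum_mg p q hpq, h3]
  · -- lifting
    have hlift : ∀ x ∈ MT (TM T p q), ∃ y ∈ MT T, mg p q y = x := by
      intro x hx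
      have hp := hx ⟨p, hpq⟩
      simp only [TM, if_true] at hp
      obtain ⟨s, hs, t, ht, hst⟩ := AddSubmonoid.mem_sup.1 hp
      refine ⟨fun l => if h : l = q then t else if l = p then s else x ⟨l, h⟩, ?_, ?_⟩
      · intro l
        show (if h : l = q then t else if l = p then s else x ⟨l, h⟩) ∈ T l
        split_ifs with h1 h2
        · rw [h1]; exact ht
        · rw [h2]; exact hs
        · have := hx ⟨l, h1⟩
          simp only [TM, if_neg h2] at this
          exact this
      · funext l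
        show (if (l : κ) = p then (if h : p = q then t else if p = p then s else x ⟨p, h⟩) +
          (if h : q = q then t else if q = p then s else x ⟨q, h⟩) else
          (if h : (l : κ) = q then t else if (l : κ) = p then s else x ⟨l, h⟩)) = x l
        by_cases h : (l : κ) = p
        · rw [if_pos h, dif_neg hpq, if_pos rfl, dif_pos rfl, hst]
          congr 1
          exact Subtype.ext h.symm
        · rw [if_neg h, dif_neg l.2, if_neg h]
    intro x hx y hy hxy
    obtain ⟨x', hx', rfl⟩ := hlift x hx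
    obtain ⟨y', hy', rfl⟩ := hlift y hy
    rw [sum_mg p q hpq, sum_mg p q hpq] at hxy
    refine reach_map (mg p q) ?_ (hρ.gen x' hx' y' hy' hxy)
    intro a b hab
    by_cases h : (a, b) = (Pi.single p α, Pi.single q α)
    · obtain ⟨rfl, rfl⟩ := Prod.mk.inj h
      have : mg p q (Pi.single p α) = mg p q (Pi.single q α) := by
        funext l
        show (if (l : κ) = p then (Pi.single p α : κ → ℕ) p + (Pi.single p α : κ → ℕ) q
            else (Pi.single p α : κ → ℕ) l) =
          (if (l : κ) = p then (Pi.single q α : κ → ℕ) p + (Pi.single q α : κ → ℕ) q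
            else (Pi.single q α : κ → ℕ) l)
        by_cases h : (l : κ) = p
        · rw [if_pos h, if_pos h, Pi.single_eq_same, Pi.single_eq_same,
            Pi.single_eq_of_ne hpq.symm, Pi.single_eq_of_ne hpq, add_comm]
        · rw [if_neg h, if_neg h, Pi.single_eq_of_ne h, Pi.single_eq_of_ne l.2]
      rw [this]
    · refine ReflTransGen.single ⟨mg p q a, mg p q b, 0, ?_,
        Or.inl ⟨by rw [zero_add], by rw [zero_add]⟩⟩
      rw [Finset.mem_coe, Finset.mem_image]
      exact ⟨(a, b), Finset.mem_erase.2 ⟨h, hab⟩, rfl⟩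

end

/-- At least `|κ| - 1` relations are needed. -/
theorem card_le_of_genT (n : ℕ) : ∀ (κ : Type) [Fintype κ] [DecidableEq κ]
    (T : κ → AddSubmonoid ℕ) (ρ : Finset ((κ → ℕ) × (κ → ℕ))), Fintype.card κ = n →
    (∀ l, ∃ t ∈ T l, t ≠ 0) → GenT T ρ → Fintype.card κ ≤ ρ.card + 1 := by
  induction n with
  | zero => intro κ _ _ T ρ h _ _; omega
  | succ n ih =>
    intro κ _ _ T ρ hn hT hρ
    by_contra hcon
    push Not at hcon
    obtain ⟨p, q, α, hpq, hα, hmem⟩ := exists_pair T hT ρ hρ (by omega) (by omega)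
    have hρ' := genT_merge T ρ hρ p q hpq α hmem
    have hcard : Fintype.card {l : κ // l ≠ q} = n := by
      rw [Fintype.card_subtype_compl, Fintype.card_subtype_eq]
      omega
    have hT' : ∀ l, ∃ t ∈ TM T p q l, t ≠ 0 := by
      intro l
      unfold TM
      by_cases h : (l : κ) = p
      · rw [if_pos h]
        obtain ⟨t, ht, ht0⟩ := hT p
        exact ⟨t, AddSubmonoid.mem_sup_left ht, ht0⟩
      · rw [if_neg h]
        exact hT l
    have h1 := ih _ (TM T p q) _ hcard hT' hρ'
    have h2 : ((ρ.erase (Pi.single p α, Pi.single q α)).image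
        (Prod.map (mg p q) (mg p q))).card ≤ ρ.card - 1 := by
      refine Finset.card_image_le.trans ?_
      rw [Finset.card_erase_of_mem hmem]
    have h3 : 0 < ρ.card := Finset.card_pos.2 ⟨_, hmem⟩
    omega

end Pool.Agent.Helper46.Glue
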