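import Mathlib
import Pool.Agent.Helper46.GlueMerge

/-!
Basic facts on submonoids of `ℕ`, their minimal generators, scaling and gluing; the common value of
a two-block relation is the least common multiple.
-/

set_option autoImplicit false
set_option linter.unusedSectionVars false
set_option linter.unusedVariables false

namespace Pool.Agent.Helper46.Glue

open Relation

/-! ### minimal generators -/

/-- `x` is irreducible in `S`. -/
def Irr (S : AddSubmonoid ℕ) (x : ℕ) : Prop := ∀ y ∈ S, ∀ z ∈ S, x = y + z → y = 0 ∨ z = 0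

theorem mem_minGens {S : AddSubmonoid ℕ} {x : ℕ} : x ∈ minGens S ↔ x ∈ S ∧ x ≠ 0 ∧ Irr S x :=
  Iff.rfl

theorem closure_minGens (S : AddSubmonoid ℕ) : AddSubmonoid.closure (minGens S) = S := by
  apply le_antisymm
  · rw [AddSubmonoid.closure_le]
    intro x hx
    exact hx.1
  · intro x
    induction x using Nat.strong_induction_on with
    | _ x ih =>
      intro hx
      by_cases h0 : x = 0
      · rw [h0]; exact AddSubmonoid.zero_mem _
      by_cases hm : x ∈ minGens S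
      · exact AddSubmonoid.subset_closure hm
      · have : ∃ y ∈ S, ∃ z ∈ S, x = y + z ∧ y ≠ 0 ∧ z ≠ 0 := by
          by_contra hcon
          push Not at hcon
          apply hm
          refine ⟨hx, h0, fun y hy z hz hxyz => ?_⟩
          by_contra h
          push Not at h
          exact h.2 (hcon y hy z hz hxyz h.1)
        obtain ⟨y, hy, z, hz, rfl, hy0, hz0⟩ := this
        exact AddSubmonoid.add_mem _ (ih y (by omega) hy) (ih z (by omega) hz)

theorem mem_of_irr {S : AddSubmonoid ℕ} {A : Set ℕ} (hA : A ⊆ S) {x : ℕ}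
    (hx : x ∈ AddSubmonoid.closure A) (h0 : x ≠ 0) (hirr : Irr S x) : x ∈ A := by
  have hle : AddSubmonoid.closure A ≤ S := (AddSubmonoid.closure_le).2 hA
  have key : ∀ x ∈ AddSubmonoid.closure A, x = 0 ∨ x ∈ A ∨
      ∃ y ∈ AddSubmonoid.closure A, ∃ z ∈ AddSubmonoid.closure A, x = y + z ∧ y ≠ 0 ∧ z ≠ 0 := by
    intro x hx
    induction hx using AddSubmonoid.closure_induction with
    | mem x hx => exact Or.inr (Or.inl hx)
    | zero => exact Or.inl rfl
    | add x y hx hy ihx ihy =>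
      by_cases hx0 : x = 0
      · subst hx0; rw [zero_add]; exact ihy
      by_cases hy0 : y = 0
      · subst hy0; rw [add_zero]; exact ihx
      exact Or.inr (Or.inr ⟨x, hx, y, hy, rfl, hx0, hy0⟩)
  rcases key x hx with h | h | ⟨y, hy, z, hz, hxyz, hy0, hz0⟩
  · exact absurd h h0
  · exact h
  · rcases hirr y (hle hy) z (hle hz) hxyz with h | h
    · exact absurd h hy0
    · exact absurd h hz0

theorem minGens_subset {S : AddSubmonoid ℕ} {A : Set ℕ} (hA : AddSubmonoid.closure A = S) :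
    minGens S ⊆ A := by
  intro x hx
  refine mem_of_irr (S := S) ?_ (by rw [hA]; exact hx.1) hx.2.1 hx.2.2
  rw [← hA]
  exact AddSubmonoid.subset_closure

/-! ### scaling -/

/-- The submonoid `g • R`. -/
def scale (g : ℕ) (R : AddSubmonoid ℕ) : AddSubmonoid ℕ := R.map (AddMonoidHom.mulLeft g)

theorem mem_scale {g : ℕ} {R : AddSubmonoid ℕ} {x : ℕ} : x ∈ scale g R ↔ ∃ y ∈ R, g * y = x := by
  unfold scale
  rw [AddSubmonoid.mem_map]
  rfl

theorem scale_closure (g : ℕ) (A : Set ℕ) :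
    scale g (AddSubmonoid.closure A) = AddSubmonoid.closure ((fun x => g * x) '' A) := by
  unfold scale
  rw [AddMonoidHom.map_mclosure]
  rfl

theorem scale_scale (g h : ℕ) (R : AddSubmonoid ℕ) : scale g (scale h R) = scale (g * h) R := by
  ext x
  rw [mem_scale, mem_scale]
  constructor
  · rintro ⟨y, hy, rfl⟩
    obtain ⟨z, hz, rfl⟩ := mem_scale.1 hy
    exact ⟨z, hz, by ring⟩
  · rintro ⟨z, hz, rfl⟩
    exact ⟨h * z, mem_scale.2 ⟨z, hz, rfl⟩, by ring⟩

theorem scale_sup (g : ℕ) (R R' : AddSubmonoid ℕ) :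
    scale g (R ⊔ R') = scale g R ⊔ scale g R' := by
  unfold scale
  rw [AddSubmonoid.map_sup]

theorem scale_one (R : AddSubmonoid ℕ) : scale 1 R = R := by
  ext x
  rw [mem_scale]
  simp

/-! ### numerical semigroups -/

theorem IsNumerical.exists_ge {S : AddSubmonoid ℕ} (h : IsNumerical S) :
    ∃ N, ∀ x, N ≤ x → x ∈ S := by
  obtain ⟨N, hN⟩ := Set.Finite.bddAbove h
  refine ⟨N + 1, fun x hx => ?_⟩
  by_contra hcon
  have := hN (show x ∈ (S : Set ℕ)ᶜ from hcon)
  omega

theorem isNumerical_of_ge {S : AddSubmonoid ℕ} {N : ℕ} (h : ∀ x, N ≤ x → x ∈ S) :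
    IsNumerical S := by
  refine (Set.finite_lt_nat N).subset ?_
  intro x hx
  by_contra hcon
  exact hx (h x (not_lt.1 hcon))

/-- The gluing submonoid. -/
theorem glue_eq (l m : ℕ) (S₁ S₂ : AddSubmonoid ℕ) :
    AddSubmonoid.closure ((fun x => m * x) '' minGens S₁ ∪ (fun x => l * x) '' minGens S₂) =
      scale m S₁ ⊔ scale l S₂ := by
  rw [AddSubmonoid.closure_union, ← scale_closure, ← scale_closure, closure_minGens,
    closure_minGens]

theorem mem_glue {l m : ℕ} {S₁ S₂ : AddSubmonoid ℕ} {x : ℕ} :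
    x ∈ scale m S₁ ⊔ scale l S₂ ↔ ∃ a ∈ S₁, ∃ b ∈ S₂, m * a + l * b = x := by
  rw [AddSubmonoid.mem_sup]
  constructor
  · rintro ⟨y, hy, z, hz, rfl⟩
    obtain ⟨a, ha, rfl⟩ := mem_scale.1 hy
    obtain ⟨b, hb, rfl⟩ := mem_scale.1 hz
    exact ⟨a, ha, b, hb, rfl⟩
  · rintro ⟨a, ha, b, hb, rfl⟩
    exact ⟨m * a, mem_scale.2 ⟨a, ha, rfl⟩, l * b, mem_scale.2 ⟨b, hb, rfl⟩, rfl⟩

theorem isNumerical_glue {l m : ℕ} {S₁ S₂ : AddSubmonoid ℕ} (h1 : IsNumerical S₁)
    (h2 : IsNumerical S₂) (hlm : Nat.gcd l m = 1) (hl : l ≠ 0) (hm : m ≠ 0) :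
    IsNumerical (scale m S₁ ⊔ scale l S₂) := by
  obtain ⟨N1, hN1⟩ := h1.exists_ge
  obtain ⟨N2, hN2⟩ := h2.exists_ge
  apply isNumerical_of_ge (N := m * (l * (N1 + 1) + l) + l * N2)
  intro x hx
  rw [mem_glue]
  obtain ⟨a, ha, hmod⟩ := Nat.exists_mul_mod_eq_of_coprime (k := l) (n := m) x
    (Nat.Coprime.symm hlm) hl
  -- `m * a ≡ x mod l`
  set a' := a + l * (N1 + 1) with ha'
  have hle : m * a' ≤ m * (l * (N1 + 1) + l) := Nat.mul_le_mul_left m (by omega)
  have hmod' : (m * a') % l = x % l := by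
    rw [ha', mul_add, ← mul_assoc, mul_comm m l, mul_assoc, Nat.add_mul_mod_self_left]
    exact hmod
  have hdvd : l ∣ x - m * a' := (Nat.modEq_iff_dvd' (by omega)).1 hmod'
  obtain ⟨b, hb⟩ := hdvd
  have hlb : l * N2 ≤ l * b := by
    rw [← hb]
    omega
  have hb2 : N2 ≤ b := Nat.le_of_mul_le_mul_left hlb (Nat.pos_of_ne_zero hl)
  have hl1 : 1 ≤ l := Nat.one_le_iff_ne_zero.2 hl
  have ha1 : N1 ≤ a' := by
    have : N1 + 1 ≤ l * (N1 + 1) := Nat.le_mul_of_pos_left _ hl1
    omega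
  refine ⟨a', hN1 _ ha1, b, hN2 _ hb2, ?_⟩
  omega

/-! ### linear algebra -/

section

variable {κ : Type} [Fintype κ] [DecidableEq κ]

/-- The vector of a relation. -/
def wv (r : (κ → ℕ) × (κ → ℕ)) : κ → ℚ := fun l => (r.1 l : ℚ) - (r.2 l : ℚ)

theorem sub_mem_span {ρ : Finset ((κ → ℕ) × (κ → ℕ))} {x y : κ → ℕ}
    (h : ReflTransGen (Step (ρ : Set ((κ → ℕ) × (κ → ℕ)))) x y) :
    wv (x, y) ∈ Submodule.span ℤ (wv '' (ρ : Set ((κ → ℕ) × (κ → ℕ)))) := by
  induction h with
  | refl =>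
    have : wv (x, x) = 0 := by
      funext l
      simp [wv]
    rw [this]
    exact Submodule.zero_mem _
  | tail _ hs ih =>
    rename_i y z
    obtain ⟨a, b, c, hab, hs⟩ := hs
    have hmem : wv (a, b) ∈ Submodule.span ℤ (wv '' (ρ : Set ((κ → ℕ) × (κ → ℕ)))) :=
      Submodule.subset_span ⟨(a, b), hab, rfl⟩
    rcases hs with ⟨rfl, rfl⟩ | ⟨rfl, rfl⟩
    · have : wv (x, c + b) = wv (x, c + a) + wv (a, b) := by
        funext l
        simp only [wv, Pi.add_apply, Nat.cast_add]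
        ring
      rw [this]
      exact Submodule.add_mem _ ih hmem
    · have : wv (x, c + a) = wv (x, c + b) - wv (a, b) := by
        funext l
        simp only [wv, Pi.add_apply, Pi.sub_apply, Nat.cast_add]
        ring
      rw [this]
      exact Submodule.sub_mem _ ih hmem

theorem rank_le (T : κ → AddSubmonoid ℕ) (hT : ∀ l, ∃ t ∈ T l, t ≠ 0)
    (ρ : Finset ((κ → ℕ) × (κ → ℕ))) (hρ : GenT T ρ) (W : Finset (κ → ℚ))
    (hW : ∀ r ∈ ρ, wv r ∈ Submodule.span ℚ (W : Set (κ → ℚ))) :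
    Fintype.card κ ≤ W.card + 1 := by
  by_cases hne : Nonempty κ
  swap
  · rw [not_nonempty_iff] at hne
    rw [Fintype.card_eq_zero]
    omega
  obtain ⟨l0⟩ := hne
  set tot : (κ → ℚ) →ₗ[ℚ] ℚ := ∑ l, LinearMap.proj l with htot
  have htot_apply : ∀ x, tot x = ∑ l, x l := by
    intro x
    rw [htot, LinearMap.sum_apply]
    rfl
  -- the kernel is contained in the span
  have hZQ : Submodule.span ℤ (wv '' (ρ : Set ((κ → ℕ) × (κ → ℕ)))) ≤
      (Submodule.span ℚ (W : Set (κ → ℚ))).restrictScalars ℤ := by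
    rw [Submodule.span_le]
    rintro _ ⟨r, hr, rfl⟩
    exact hW r hr
  have hbasis : ∀ l, (Pi.single l 1 - Pi.single l0 1 : κ → ℚ) ∈
      Submodule.span ℚ (W : Set (κ → ℚ)) := by
    intro l
    obtain ⟨t, ht, ht0⟩ := hT l
    obtain ⟨t', ht', ht0'⟩ := hT l0
    have hx : (Pi.single l (t' * t) : κ → ℕ) ∈ MT T :=
      single_mem_MT T l (by rw [← smul_eq_mul]; exact (T l).nsmul_mem ht t')
    have hy : (Pi.single l0 (t' * t) : κ → ℕ) ∈ MT T :=
      single_mem_MT T l0 (by rw [mul_comm, ← smul_eq_mul]; exact (T l0).nsmul_mem ht' t)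
    have h1 := sub_mem_span (hρ.gen _ hx _ hy (by rw [sum_single, sum_single]))
    have h2 : wv ((Pi.single l (t' * t) : κ → ℕ), (Pi.single l0 (t' * t) : κ → ℕ)) ∈
      Submodule.span ℚ (W : Set (κ → ℚ)) := hZQ h1
    have h3 : (Pi.single l 1 - Pi.single l0 1 : κ → ℚ) = ((t' * t : ℕ) : ℚ)⁻¹ •
        wv ((Pi.single l (t' * t) : κ → ℕ), (Pi.single l0 (t' * t) : κ → ℕ)) := by
      have hne : ((t' * t : ℕ) : ℚ) ≠ 0 := Nat.cast_ne_zero.2 (mul_ne_zero ht0' ht0)
      funext i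
      simp only [Pi.sub_apply, Pi.smul_apply, wv, smul_eq_mul]
      by_cases e1 : i = l <;> by_cases e2 : i = l0
      · subst e1; subst e2
        simp
      · subst e1
        rw [Pi.single_eq_same, Pi.single_eq_same, Pi.single_eq_of_ne e2, Pi.single_eq_of_ne e2]
        simp only [Nat.cast_zero, sub_zero]
        rw [inv_mul_cancel₀ hne]
      · subst e2
        rw [Pi.single_eq_same, Pi.single_eq_same, Pi.single_eq_of_ne e1, Pi.single_eq_of_ne e1]
        simp only [Nat.cast_zero, zero_sub, mul_neg]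
        rw [inv_mul_cancel₀ hne]
      · rw [Pi.single_eq_of_ne e1, Pi.single_eq_of_ne e2, Pi.single_eq_of_ne e1,
          Pi.single_eq_of_ne e2]
        simp
    rw [h3]
    exact Submodule.smul_mem _ _ h2
  have hker : LinearMap.ker tot ≤ Submodule.span ℚ (W : Set (κ → ℚ)) := by
    intro x hx
    rw [LinearMap.mem_ker, htot_apply] at hx
    have h1 : x = ∑ l, x l • (Pi.single l 1 - Pi.single l0 1 : κ → ℚ) := by
      simp only [smul_sub]
      rw [Finset.sum_sub_distrib, ← Finset.sum_smul, hx, zero_smul, sub_zero]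
      funext i
      rw [Finset.sum_apply, Finset.sum_eq_single i]
      · simp
      · intro j _ hj
        rw [Pi.smul_apply, Pi.single_eq_of_ne hj.symm, smul_zero]
      · intro h; exact absurd (Finset.mem_univ i) h
    rw [h1]
    exact Submodule.sum_mem _ fun l _ => Submodule.smul_mem _ _ (hbasis l)
  have h1 : Module.finrank ℚ (LinearMap.ker tot) ≤ W.card :=
    (Submodule.finrank_mono hker).trans (finrank_span_finset_le_card W)
  have h2 := LinearMap.finrank_range_add_finrank_ker tot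
  have h3 : Module.finrank ℚ (LinearMap.range tot) ≤ 1 := by
    have := Submodule.finrank_le (LinearMap.range tot)
    rwa [Module.finrank_self] at this
  rw [Module.finrank_fintype_fun_eq_card] at h2
  omega

/-- In a minimal situation the relation vectors are primitive. -/
theorem primitive (T : κ → AddSubmonoid ℕ) (hT : ∀ l, ∃ t ∈ T l, t ≠ 0)
    (ρ : Finset ((κ → ℕ) × (κ → ℕ))) (hρ : GenT T ρ) (hcard : ρ.card < Fintype.card κ)
    (r0 : (κ → ℕ) × (κ → ℕ)) (hr0 : r0 ∈ ρ) (v0 : κ → ℚ) (t : ℕ)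
    (hv0 : v0 ∈ Submodule.span ℤ (wv '' (ρ : Set ((κ → ℕ) × (κ → ℕ)))))
    (hw0 : wv r0 = (t : ℚ) • v0) : t = 1 := by
  classical
  by_contra ht
  set W : Finset (κ → ℚ) := (ρ.erase r0).image wv with hW
  have himg : wv '' (ρ : Set ((κ → ℕ) × (κ → ℕ))) = insert (wv r0) (W : Set (κ → ℚ)) := by
    rw [hW, Finset.coe_image, Finset.coe_erase, ← Set.image_insert_eq,
      Set.insert_sdiff_singleton, Set.insert_eq_of_mem (Finset.mem_coe.2 hr0)]
  rw [himg, Submodule.mem_span_insert] at hv0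
  obtain ⟨c, z, hz, hcz⟩ := hv0
  have hzQ : z ∈ Submodule.span ℚ (W : Set (κ → ℚ)) :=
    Submodule.span_subset_span ℤ ℚ _ hz
  have hrel : ((1 : ℚ) - (t : ℚ) * (c : ℚ)) • wv r0 = (t : ℚ) • z := by
    funext i
    have h1 := congrFun hw0 i
    have h2 := congrFun hcz i
    rw [Pi.smul_apply, smul_eq_mul] at h1
    rw [Pi.add_apply, Pi.smul_apply, zsmul_eq_mul] at h2
    rw [Pi.smul_apply, Pi.smul_apply, smul_eq_mul, smul_eq_mul]
    linear_combination h1 + (t : ℚ) * h2
  have hne : (1 : ℚ) - (t : ℚ) * (c : ℚ) ≠ 0 := by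
    intro h
    have h1 : (t : ℤ) * c = 1 := by
      have : ((t : ℚ) * (c : ℚ)) = 1 := by linarith
      exact_mod_cast this
    have := Int.eq_one_or_neg_one_of_mul_eq_one h1
    omega
  have hw0mem : wv r0 ∈ Submodule.span ℚ (W : Set (κ → ℚ)) := by
    have h1 : wv r0 = ((1 : ℚ) - (t : ℚ) * (c : ℚ))⁻¹ • ((t : ℚ) • z) := by
      rw [← hrel, smul_smul, inv_mul_cancel₀ hne, one_smul]
    rw [h1]
    exact Submodule.smul_mem _ _ (Submodule.smul_mem _ _ hzQ)
  have hle := rank_le T hT ρ hρ W (by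
    intro r hr
    by_cases h : r = r0
    · rw [h]; exact hw0mem
    · exact Submodule.subset_span (Finset.mem_coe.2
        (Finset.mem_image.2 ⟨r, Finset.mem_erase.2 ⟨h, hr⟩, rfl⟩)))
  have hWc : W.card ≤ ρ.card - 1 := by
    refine Finset.card_image_le.trans ?_
    rw [Finset.card_erase_of_mem hr0]
  have hpos : 0 < ρ.card := Finset.card_pos.2 ⟨_, hr0⟩
  omega

end

end Pool.Agent.Helper46.Glue
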