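import Mathlib
import Pool.Agent.Helper46.GlueNum

/-!
If the kernel of the sum map of the blocks is generated by (number of blocks) - 1 relations, then
the whole semigroup is obtained from the blocks by gluing.
-/

set_option autoImplicit false
set_option linter.unusedSectionVars false
set_option linter.unusedVariables false

namespace Pool.Agent.Helper46.Glue

open Relation

theorem exists_ne_zero_of_scale {T : AddSubmonoid ℕ}
    (h : ∃ g : ℕ, g ≠ 0 ∧ ∃ R, InG R ∧ IsNumerical R ∧ T = scale g R) : ∃ t ∈ T, t ≠ 0 := by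
  obtain ⟨g, hg, R, _, hR, rfl⟩ := h
  obtain ⟨N, hN⟩ := hR.exists_ge
  exact ⟨g * (N + 1), mem_scale.2 ⟨N + 1, hN _ (by omega), rfl⟩, mul_ne_zero hg (by omega)⟩

/-- The two-block step. -/
theorem glue_two (S : AddSubmonoid ℕ) (A B : Set ℕ) (hA : A ⊆ minGens S) (hB : B ⊆ minGens S)
    (hAB : Disjoint A B) (gp gq : ℕ) (hgp : gp ≠ 0) (hgq : gq ≠ 0) (Rp Rq : AddSubmonoid ℕ)
    (hRp : InG Rp) (hRq : InG Rq) (hNp : IsNumerical Rp) (hNq : IsNumerical Rq)
    (hTp : AddSubmonoid.closure A = scale gp Rp) (hTq : AddSubmonoid.closure B = scale gq Rq)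
    (hp : Nat.lcm gp gq ∈ AddSubmonoid.closure A) (hq : Nat.lcm gp gq ∈ AddSubmonoid.closure B) :
    ∃ g : ℕ, g ≠ 0 ∧ ∃ R, InG R ∧ IsNumerical R ∧
      AddSubmonoid.closure (A ∪ B) = scale g R := by
  set dd := Nat.gcd gp gq with hdd
  have hdpos : 0 < dd := Nat.gcd_pos_of_pos_left _ (Nat.pos_of_ne_zero hgp)
  obtain ⟨m, hm⟩ : dd ∣ gp := Nat.gcd_dvd_left _ _
  obtain ⟨l, hl⟩ : dd ∣ gq := Nat.gcd_dvd_right _ _
  have hlcm1 : Nat.lcm gp gq = gp * l := by
    have h1 := Nat.gcd_mul_lcm gp gq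
    rw [← hdd] at h1
    have h2 : dd * Nat.lcm gp gq = dd * (gp * l) := by
      rw [h1]
      conv_lhs => rw [hl]
      ring
    exact Nat.eq_of_mul_eq_mul_left hdpos h2
  have hlcm2 : Nat.lcm gp gq = gq * m := by
    rw [hlcm1, hl]
    conv_lhs => rw [hm]
    ring
  have hcop : Nat.gcd l m = 1 := by
    have h1 : Nat.gcd gp gq = dd * Nat.gcd m l := by
      conv_lhs => rw [hm, hl]
      rw [Nat.gcd_mul_left]
    rw [← hdd] at h1
    have h2 : Nat.gcd m l = 1 := by
      have : dd * Nat.gcd m l = dd * 1 := by rw [← h1, mul_one]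
      exact Nat.eq_of_mul_eq_mul_left hdpos this
    rw [Nat.gcd_comm]
    exact h2
  have hm0 : m ≠ 0 := by
    rintro rfl
    exact hgp (by rw [hm, mul_zero])
  have hl0 : l ≠ 0 := by
    rintro rfl
    exact hgq (by rw [hl, mul_zero])
  have hAS : A ⊆ S := fun x hx => (hA hx).1
  have hBS : B ⊆ S := fun x hx => (hB hx).1
  have hlR : l ∈ Rp := by
    rw [hTp, hlcm1, mem_scale] at hp
    obtain ⟨y, hy, hy2⟩ := hp
    rwa [Nat.eq_of_mul_eq_mul_left (Nat.pos_of_ne_zero hgp) hy2] at hy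
  have hmR : m ∈ Rq := by
    rw [hTq, hlcm2, mem_scale] at hq
    obtain ⟨y, hy, hy2⟩ := hq
    rwa [Nat.eq_of_mul_eq_mul_left (Nat.pos_of_ne_zero hgq) hy2] at hy
  have hlcm0 : Nat.lcm gp gq ≠ 0 := Nat.lcm_ne_zero hgp hgq
  have key : ∀ (C : Set ℕ) (g k : ℕ) (R : AddSubmonoid ℕ), g ≠ 0 → C ⊆ minGens S →
      AddSubmonoid.closure C = scale g R → Nat.lcm gp gq = g * k →
      Nat.lcm gp gq ∈ AddSubmonoid.closure C → k ∈ minGens R → Nat.lcm gp gq ∈ C := by
    intro C g k R hg hC hT hk hmem hkR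
    refine mem_of_irr (S := scale g R) ?_ hmem hlcm0 ?_
    · rw [← hT]
      exact AddSubmonoid.subset_closure
    · intro y hy z hz hyz
      obtain ⟨y', hy', rfl⟩ := mem_scale.1 hy
      obtain ⟨z', hz', rfl⟩ := mem_scale.1 hz
      rw [hk, ← mul_add] at hyz
      have h1 := Nat.eq_of_mul_eq_mul_left (Nat.pos_of_ne_zero hg) hyz
      rcases hkR.2.2 y' hy' z' hz' h1 with h | h
      · left; rw [h, mul_zero]
      · right; rw [h, mul_zero]
  have hlmin : l ∉ minGens Rp := by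
    intro h
    have h1 := key A gp l Rp hgp hA hTp hlcm1 hp h
    have h2 : Nat.lcm gp gq ∈ B := mem_of_irr hBS hq hlcm0 (hA h1).2.2
    exact Set.disjoint_left.1 hAB h1 h2
  have hmmin : m ∉ minGens Rq := by
    intro h
    have h1 := key B gq m Rq hgq hB hTq hlcm2 hq h
    have h2 : Nat.lcm gp gq ∈ A := mem_of_irr hAS hp hlcm0 (hB h1).2.2
    exact Set.disjoint_left.1 hAB h2 h1
  refine ⟨dd, hdpos.ne', scale m Rp ⊔ scale l Rq, ?_, isNumerical_glue hNp hNq hcop hl0 hm0, ?_⟩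
  · exact InG.glue hRp hRq ⟨l, m, ⟨hlR, hlmin⟩, ⟨hmR, hmmin⟩, hcop, (glue_eq l m Rp Rq).symm⟩
  · rw [AddSubmonoid.closure_union, hTp, hTq, scale_sup, scale_scale, scale_scale, ← hm, ← hl]

theorem lcm_mem {κ : Type} [Fintype κ] [DecidableEq κ] (T : κ → AddSubmonoid ℕ)
    (hT : ∀ l, ∃ g : ℕ, g ≠ 0 ∧ ∃ R, InG R ∧ IsNumerical R ∧ T l = scale g R)
    (ρ : Finset ((κ → ℕ) × (κ → ℕ))) (hρ : GenT T ρ) (hcard : ρ.card < Fintype.card κ)
    (p q : κ) (hpq : p ≠ q) (α : ℕ) (hα : α ≠ 0) (hmem : (Pi.single p α, Pi.single q α) ∈ ρ)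
    (gp gq : ℕ) (Rp Rq : AddSubmonoid ℕ) (hgp : gp ≠ 0) (hgq : gq ≠ 0)
    (hNp : IsNumerical Rp) (hNq : IsNumerical Rq)
    (hTp : T p = scale gp Rp) (hTq : T q = scale gq Rq) : α = Nat.lcm gp gq := by
  have hαp : α ∈ T p := by
    have := (hρ.mem _ hmem).1 p
    simpa using this
  have hαq : α ∈ T q := by
    have := (hρ.mem _ hmem).2.1 q
    simpa using this
  have hdp : gp ∣ α := by
    rw [hTp, mem_scale] at hαp
    obtain ⟨y, _, hy⟩ := hαp
    exact ⟨y, hy.symm⟩
  have hdq : gq ∣ α := by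
    rw [hTq, mem_scale] at hαq
    obtain ⟨y, _, hy⟩ := hαq
    exact ⟨y, hy.symm⟩
  obtain ⟨t, ht⟩ := Nat.lcm_dvd hdp hdq
  set L := Nat.lcm gp gq with hL
  obtain ⟨N1, hN1⟩ := hNp.exists_ge
  obtain ⟨N2, hN2⟩ := hNq.exists_ge
  have hLp : gp ∣ L := Nat.dvd_lcm_left _ _
  have hLq : gq ∣ L := Nat.dvd_lcm_right _ _
  have m1 : ∀ x, N1 ≤ x → gp * x ∈ T p := fun x hx => by
    rw [hTp]; exact mem_scale.2 ⟨x, hN1 x hx, rfl⟩
  have m2 : ∀ x, N2 ≤ x → gq * x ∈ T q := fun x hx => by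
    rw [hTq]; exact mem_scale.2 ⟨x, hN2 x hx, rfl⟩
  obtain ⟨cp, hcp⟩ := hLp
  obtain ⟨cq, hcq⟩ := hLq
  set u : κ → ℕ := Pi.single p (gp * (N1 + cp)) + Pi.single q (gq * N2) with hu
  set u' : κ → ℕ := Pi.single p (gp * N1) + Pi.single q (gq * (N2 + cq)) with hu'
  have humem : u ∈ MT T := by
    intro l
    exact (T l).add_mem (single_mem_MT T p (m1 _ (by omega)) l) (single_mem_MT T q (m2 _ le_rfl) l)
  have humem' : u' ∈ MT T := by
    intro l
    exact (T l).add_mem (single_mem_MT T p (m1 _ le_rfl) l) (single_mem_MT T q (m2 _ (by omega)) l)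
  have hsum : ∑ l, u l = ∑ l, u' l := by
    rw [hu, hu']
    simp only [Pi.add_apply]
    rw [Finset.sum_add_distrib, Finset.sum_add_distrib, sum_single, sum_single, sum_single,
      sum_single, mul_add, mul_add, ← hcp, ← hcq]
    ring
  have hspan := sub_mem_span (hρ.gen u humem u' humem' hsum)
  have hval : ∀ (s : κ) (x : ℕ) (i : κ), ((Pi.single s x : κ → ℕ) i : ℚ) =
      (Pi.single s (x : ℚ) : κ → ℚ) i := by
    intro s x i
    by_cases h : i = s
    · subst h; rw [Pi.single_eq_same, Pi.single_eq_same]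
    · rw [Pi.single_eq_of_ne h, Pi.single_eq_of_ne h]; simp
  have hcpQ : (L : ℚ) = gp * cp := by exact_mod_cast hcp
  have hcqQ : (L : ℚ) = gq * cq := by exact_mod_cast hcq
  have hsm : ∀ (s : κ) (x y : ℚ) (i : κ), (Pi.single s (x + y) : κ → ℚ) i =
      (Pi.single s x : κ → ℚ) i + (Pi.single s y : κ → ℚ) i := by
    intro s x y i
    rw [Pi.single_add, Pi.add_apply]
  have hv : wv (u, u') = fun i => (Pi.single p (L : ℚ) : κ → ℚ) i -
      (Pi.single q (L : ℚ) : κ → ℚ) i := by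
    funext i
    show ((u i : ℕ) : ℚ) - ((u' i : ℕ) : ℚ) = _
    rw [hu, hu']
    simp only [Pi.add_apply, Nat.cast_add, hval]
    rw [show ((gp * (N1 + cp) : ℕ) : ℚ) = ((gp * N1 : ℕ) : ℚ) + (L : ℚ) by
        rw [hcpQ]; push_cast; ring,
      show ((gq * (N2 + cq) : ℕ) : ℚ) = ((gq * N2 : ℕ) : ℚ) + (L : ℚ) by
        rw [hcqQ]; push_cast; ring, hsm, hsm]
    ring
  rw [hv] at hspan
  have ht1 : t = 1 := by
    refine primitive T (fun l => exists_ne_zero_of_scale (hT l)) ρ hρ hcard _ hmem _ t hspan ?_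
    funext i
    show (((Pi.single p α : κ → ℕ) i : ℕ) : ℚ) - (((Pi.single q α : κ → ℕ) i : ℕ) : ℚ) =
      (t : ℚ) * ((Pi.single p (L : ℚ) : κ → ℚ) i - (Pi.single q (L : ℚ) : κ → ℚ) i)
    rw [hval, hval, ht]
    have hs : ∀ s : κ, (Pi.single s (((L * t : ℕ)) : ℚ) : κ → ℚ) i =
        (t : ℚ) * (Pi.single s (L : ℚ) : κ → ℚ) i := by
      intro s
      by_cases h : i = s
      · subst h; rw [Pi.single_eq_same, Pi.single_eq_same]; push_cast; ring
      · rw [Pi.single_eq_of_ne h, Pi.single_eq_of_ne h, mul_zero]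
    rw [hs, hs]
    ring
  rw [ht, ht1, mul_one]

theorem glue_all (S : AddSubmonoid ℕ) (n : ℕ) : ∀ (κ : Type) [Fintype κ] [DecidableEq κ]
    (A : κ → Set ℕ) (ρ : Finset ((κ → ℕ) × (κ → ℕ))), Fintype.card κ = n + 1 →
    (∀ l, A l ⊆ minGens S) → (∀ l l', l ≠ l' → Disjoint (A l) (A l')) →
    (∀ l, ∃ g : ℕ, g ≠ 0 ∧ ∃ R, InG R ∧ IsNumerical R ∧
      AddSubmonoid.closure (A l) = scale g R) →
    GenT (fun l => AddSubmonoid.closure (A l)) ρ → ρ.card ≤ n →
    ∃ g : ℕ, g ≠ 0 ∧ ∃ R, InG R ∧ IsNumerical R ∧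
      AddSubmonoid.closure (⋃ l, A l) = scale g R := by
  induction n with
  | zero =>
    intro κ _ _ A ρ hκ hA hdis hT hρ hcard
    obtain ⟨l0, hl0⟩ := Fintype.card_eq_one_iff.1 hκ
    have : (⋃ l, A l) = A l0 := by
      ext x
      rw [Set.mem_iUnion]
      constructor
      · rintro ⟨l, hl⟩
        rwa [hl0 l] at hl
      · intro h
        exact ⟨l0, h⟩
    rw [this]
    exact hT l0
  | succ n ih =>
    intro κ _ _ A ρ hκ hA hdis hT hρ hcard
    obtain ⟨p, q, α, hpq, hα, hmem⟩ := exists_pair _ (fun l => exists_ne_zero_of_scale (hT l)) ρ hρ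
      (by omega) (by omega)
    obtain ⟨gp, hgp, Rp, hRp, hNp, hTp⟩ := hT p
    obtain ⟨gq, hgq, Rq, hRq, hNq, hTq⟩ := hT q
    have hαL : α = Nat.lcm gp gq := lcm_mem _ hT ρ hρ (by omega) p q hpq α hα hmem gp gq Rp Rq
      hgp hgq hNp hNq hTp hTq
    have hαp : α ∈ AddSubmonoid.closure (A p) := by
      have := (hρ.mem _ hmem).1 p
      simpa using this
    have hαq : α ∈ AddSubmonoid.closure (A q) := by
      have := (hρ.mem _ hmem).2.1 q
      simpa using this
    have h2 := glue_two S (A p) (A q) (hA p) (hA q) (hdis p q hpq) gp gq hgp hgq Rp Rq hRp hRq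
      hNp hNq hTp hTq (hαL ▸ hαp) (hαL ▸ hαq)
    set A' : {l : κ // l ≠ q} → Set ℕ := fun l => if (l : κ) = p then A p ∪ A q else A l with hA'
    have hTM : TM (fun l => AddSubmonoid.closure (A l)) p q =
        fun l => AddSubmonoid.closure (A' l) := by
      funext l
      show (if (l : κ) = p then AddSubmonoid.closure (A p) ⊔ AddSubmonoid.closure (A q)
        else AddSubmonoid.closure (A l)) = AddSubmonoid.closure (if (l : κ) = p then A p ∪ A q
          else A l)
      split_ifs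
      · rw [AddSubmonoid.closure_union]
      · rfl
    have hρ' := genT_merge _ ρ hρ p q hpq α hmem
    rw [hTM] at hρ'
    have hcard' : Fintype.card {l : κ // l ≠ q} = n + 1 := by
      rw [Fintype.card_subtype_compl, Fintype.card_subtype_eq]
      omega
    have hUn : (⋃ l, A' l) = ⋃ l, A l := by
      ext x
      rw [Set.mem_iUnion, Set.mem_iUnion]
      constructor
      · rintro ⟨l, hl⟩
        simp only [hA'] at hl
        split_ifs at hl with h
        · rcases hl with h | h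
          · exact ⟨p, h⟩
          · exact ⟨q, h⟩
        · exact ⟨l, hl⟩
      · rintro ⟨l, hl⟩
        by_cases h : l = q
        · subst h
          refine ⟨⟨p, hpq⟩, ?_⟩
          simp only [hA', if_true]
          exact Or.inr hl
        · refine ⟨⟨l, h⟩, ?_⟩
          simp only [hA']
          split_ifs with h1
          · rw [h1] at hl; exact Or.inl hl
          · exact hl
    have := ih {l : κ // l ≠ q} A' _ hcard' ?_ ?_ ?_ hρ' ?_
    · rw [hUn] at this
      exact this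
    · intro l
      simp only [hA']
      split_ifs
      · exact Set.union_subset (hA p) (hA q)
      · exact hA l
    · intro l l' hll
      have hll' : (l : κ) ≠ l' := fun h => hll (Subtype.ext h)
      simp only [hA']
      split_ifs with h1 h3 h3
      · exact absurd (h1.trans h3.symm) hll'
      · rw [Set.disjoint_union_left]
        exact ⟨hdis _ _ (Ne.symm h3), hdis _ _ (Ne.symm l'.2)⟩
      · rw [Set.disjoint_union_right]
        exact ⟨hdis _ _ h1, hdis _ _ l.2⟩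
      · exact hdis _ _ hll'
    · intro l
      simp only [hA']
      split_ifs
      · exact h2
      · exact hT l
    · refine Finset.card_image_le.trans ?_
      rw [Finset.card_erase_of_mem hmem]
      omega

end Pool.Agent.Helper46.Glue
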