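import Mathlib
import Pool.Agent.Helper46.GlueAll

/-!
The value map, and the arithmetic of a block of minimal generators.
-/

set_option autoImplicit false
set_option linter.unusedSectionVars false
set_option linter.unusedVariables false

namespace Pool.Agent.Helper46.Glue

open Relation

/-- The value map as a homomorphism. -/
def vh (S : AddSubmonoid ℕ) : Multiset (minGens S) →+ ℕ where
  toFun := value S
  map_zero' := by simp [value]
  map_add' x y := by simp [value, Multiset.map_add, Multiset.sum_add]

theorem vh_apply (S : AddSubmonoid ℕ) (z : Multiset (minGens S)) : vh S z = value S z := rfl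

theorem vh_cons (S : AddSubmonoid ℕ) (x : minGens S) (z : Multiset (minGens S)) :
    vh S (x ::ₘ z) = x + vh S z := by
  show value S _ = _ + value S _
  simp [value]

theorem vh_singleton (S : AddSubmonoid ℕ) (x : minGens S) : vh S {x} = x := by
  show value S {x} = _
  simp [value]

theorem vh_replicate (S : AddSubmonoid ℕ) (t : ℕ) (x : minGens S) :
    vh S (Multiset.replicate t x) = t * x := by
  show value S (Multiset.replicate t x) = _
  simp [value]

theorem isPresentation_iff (S : AddSubmonoid ℕ)
    (ρ : Set (Multiset (minGens S) × Multiset (minGens S))) :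
    IsPresentation S ρ ↔ Gens (vh S) ρ := by
  unfold IsPresentation Gens
  constructor
  · intro h z z'
    rw [← addConGen_iff]
    exact h z z'
  · intro h z z'
    rw [addConGen_iff]
    exact h z z'

theorem vh_eq_zero (S : AddSubmonoid ℕ) (z : Multiset (minGens S)) (h : vh S z = 0) : z = 0 := by
  induction z using Multiset.induction_on with
  | empty => rfl
  | cons x z _ =>
    rw [vh_cons] at h
    exact absurd (by omega : (x : ℕ) = 0) x.2.2.1

theorem vh_mem (S : AddSubmonoid ℕ) (z : Multiset (minGens S)) : vh S z ∈ S := by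
  induction z using Multiset.induction_on with
  | empty => rw [map_zero]; exact S.zero_mem
  | cons x z ih =>
    rw [vh_cons]
    exact S.add_mem x.2.1 ih

theorem vh_surj (S : AddSubmonoid ℕ) {s : ℕ} (hs : s ∈ S) : ∃ z, vh S z = s := by
  rw [← closure_minGens S] at hs
  induction hs using AddSubmonoid.closure_induction with
  | mem x hx => exact ⟨{⟨x, hx⟩}, vh_singleton S _⟩
  | zero => exact ⟨0, map_zero _⟩
  | add x y _ _ ihx ihy =>
    obtain ⟨z, rfl⟩ := ihx
    obtain ⟨w, rfl⟩ := ihy
    exact ⟨z + w, map_add _ _ _⟩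

theorem vh_irr (S : AddSubmonoid ℕ) (x : minGens S) (z : Multiset (minGens S))
    (h : vh S z = x) : z = {x} := by
  induction z using Multiset.induction_on with
  | empty => rw [map_zero] at h; exact absurd h.symm x.2.2.1
  | cons y z _ =>
    rw [vh_cons] at h
    rcases x.2.2.2 y y.2.1 (vh S z) (vh_mem S z) h.symm with h1 | h1
    · exact absurd h1 y.2.2.1
    · rw [h1, add_zero] at h
      rw [vh_eq_zero S z h1]
      have : y = x := Subtype.ext h
      rw [this]
      rfl

/-- Isolation of the special pairs. -/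
theorem iso_pair (S : AddSubmonoid ℕ) (i j : minGens S) (a : Multiset (minGens S))
    (ha : a ≤ {i, j}) (b : Multiset (minGens S)) (hab : vh S a = vh S b) (hne : a ≠ b) :
    a = {i, j} := by
  have hcard : a.card ≤ 2 := by
    have := Multiset.card_le_card ha
    simpa using this
  rcases Nat.lt_or_ge a.card 2 with h | h
  · exfalso
    rcases Nat.lt_or_ge a.card 1 with h1 | h1
    · have : a = 0 := Multiset.card_eq_zero.1 (by omega)
      subst this
      rw [map_zero] at hab
      exact hne (vh_eq_zero S b hab.symm).symm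
    · obtain ⟨x, rfl⟩ := Multiset.card_eq_one.1 (show a.card = 1 by omega)
      rw [vh_singleton] at hab
      exact hne (vh_irr S x b hab.symm).symm
  · exact Multiset.eq_of_le_of_card_le ha (by simpa using h)

/-! ### arithmetic of a block -/

theorem irr_add (S : AddSubmonoid ℕ) {x y z : ℕ} (hx : x ∈ minGens S) (hy : y ∈ S) (hz : z ∈ S)
    (hy0 : y ≠ 0) (hz0 : z ≠ 0) : x ≠ y + z := by
  intro h
  rcases hx.2.2 y hy z hz h with h | h
  · exact hy0 h
  · exact hz0 h

section

variable (S : AddSubmonoid ℕ) (A : Finset ℕ) (hA : ∀ x ∈ A, x ∈ minGens S) (h : A.Nonempty)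
  (hmin : A.min' h = A.card * A.gcd id)

include hA h in
theorem gcd_pos : 0 < A.gcd id := by
  obtain ⟨x, hx⟩ := h
  refine Nat.pos_of_ne_zero fun h0 => ?_
  have := Finset.gcd_eq_zero_iff.1 h0 x hx
  exact (hA x hx).2.1 this

include hA hmin in
theorem block_inj : Set.InjOn (fun x => (x / A.gcd id) % A.card) (A : Set ℕ) := by
  have hg := gcd_pos S A hA h
  have hn0 : A.min' h ∈ A := Finset.min'_mem A h
  have key : ∀ x ∈ A, ∀ y ∈ A, x < y →
      (x / A.gcd id) % A.card = (y / A.gcd id) % A.card → False := by
    intro x hx y hy hxy he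
    have hgx : A.gcd id ∣ x := Finset.gcd_dvd hx
    have hgy : A.gcd id ∣ y := Finset.gcd_dvd hy
    obtain ⟨x', hx'⟩ := hgx
    obtain ⟨y', hy'⟩ := hgy
    rw [hx', hy', Nat.mul_div_cancel_left _ hg, Nat.mul_div_cancel_left _ hg] at he
    have hlt : x' < y' := by
      rw [hx', hy'] at hxy
      exact Nat.lt_of_mul_lt_mul_left hxy
    obtain ⟨t, ht⟩ := (Nat.modEq_iff_dvd' hlt.le).1 he
    have hy2 : y = x + t * A.min' h := by
      rw [hmin]
      have : y' = x' + A.card * t := by omega
      rw [hy', this]
      conv_rhs => rw [hx']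
      ring
    have ht0 : t ≠ 0 := by
      rintro rfl
      omega
    refine irr_add S (hA y hy) (hA x hx).1 ?_ (hA x hx).2.1 ?_ hy2
    · rw [← smul_eq_mul]
      exact S.nsmul_mem (hA _ hn0).1 t
    · exact mul_ne_zero ht0 (hA _ hn0).2.1
  intro x hx y hy he
  rcases lt_trichotomy x y with h1 | h1 | h1
  · exact (key x hx y hy h1 he).elim
  · exact h1
  · exact (key y hy x hx h1 he.symm).elim

include hA hmin in
theorem block_rep (z : ℕ) (hz : A.gcd id ∣ z) :
    ∃ x ∈ A, (∃ t, z = x + t * A.min' h) ∨ (∃ t, 1 ≤ t ∧ x = z + t * A.min' h) := by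
  have hg := gcd_pos S A hA h
  have hk : 0 < A.card := Finset.card_pos.2 h
  have himg : A.image (fun x => (x / A.gcd id) % A.card) = Finset.range A.card := by
    apply Finset.eq_of_subset_of_card_le
    · intro y hy
      obtain ⟨x, _, rfl⟩ := Finset.mem_image.1 hy
      exact Finset.mem_range.2 (Nat.mod_lt _ hk)
    · rw [Finset.card_image_of_injOn (block_inj S A hA h hmin), Finset.card_range]
  have hzm : (z / A.gcd id) % A.card ∈ A.image (fun x => (x / A.gcd id) % A.card) := by
    rw [himg]
    exact Finset.mem_range.2 (Nat.mod_lt _ hk)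
  obtain ⟨x, hx, hxz⟩ := Finset.mem_image.1 hzm
  refine ⟨x, hx, ?_⟩
  have hgx : A.gcd id ∣ x := Finset.gcd_dvd hx
  obtain ⟨x', hx'⟩ := hgx
  obtain ⟨z', hz'⟩ := hz
  change (x / A.gcd id) % A.card = (z / A.gcd id) % A.card at hxz
  rw [hx', hz', Nat.mul_div_cancel_left _ hg, Nat.mul_div_cancel_left _ hg] at hxz
  rcases Nat.lt_or_ge z' x' with hlt | hle
  · right
    obtain ⟨t, ht⟩ := (Nat.modEq_iff_dvd' hlt.le).1 hxz.symm
    refine ⟨t, ?_, ?_⟩
    · rcases Nat.eq_zero_or_pos t with rfl | h1
      · omega
      · exact h1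
    · rw [hmin]
      have : x' = z' + A.card * t := by omega
      rw [hz']
      conv_lhs => rw [hx', this]
      ring
  · left
    obtain ⟨t, ht⟩ := (Nat.modEq_iff_dvd' hle).1 hxz
    refine ⟨t, ?_⟩
    rw [hmin]
    have : z' = x' + A.card * t := by omega
    rw [hz', this]
    conv_rhs => rw [hx']
    ring

include hA hmin in
theorem block_add (i j : ℕ) (hi : i ∈ A) (hj : j ∈ A) :
    ∃ x ∈ A, ∃ t, i + j = x + (t + 1) * A.min' h := by
  have hn0 : A.min' h ∈ A := Finset.min'_mem A h
  obtain ⟨x, hx, hc⟩ := block_rep S A hA h hmin (i + j)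
    (dvd_add (Finset.gcd_dvd hi) (Finset.gcd_dvd hj))
  refine ⟨x, hx, ?_⟩
  rcases hc with ⟨t, ht⟩ | ⟨t, ht1, ht⟩
  · rcases Nat.eq_zero_or_pos t with rfl | h1
    · exfalso
      rw [zero_mul, add_zero] at ht
      exact irr_add S (hA x hx) (hA i hi).1 (hA j hj).1 (hA i hi).2.1 (hA j hj).2.1 ht.symm
    · refine ⟨t - 1, ?_⟩
      rw [ht, Nat.sub_add_cancel h1]
  · exfalso
    rw [add_assoc] at ht
    refine irr_add S (hA x hx) (hA i hi).1 ?_ (hA i hi).2.1 ?_ ht
    · refine S.add_mem (hA j hj).1 ?_
      rw [← smul_eq_mul]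
      exact S.nsmul_mem (hA _ hn0).1 t
    · have := (hA j hj).2.1
      omega

include hA hmin in
/-- The submonoid generated by a block is a scaled numerical semigroup of maximal embedding
dimension. -/
theorem block_scale : ∃ R, (InG R ∧ IsNumerical R) ∧
    AddSubmonoid.closure (A : Set ℕ) = scale (A.gcd id) R := by
  classical
  have hg := gcd_pos S A hA h
  have hk : 0 < A.card := Finset.card_pos.2 h
  have hn0 : A.min' h ∈ A := Finset.min'_mem A h
  set g := A.gcd id with hgdef
  set A' : Finset ℕ := A.image (fun x => x / g) with hA'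
  have hgA : ∀ x ∈ A, g * (x / g) = x := fun x hx => Nat.mul_div_cancel' (Finset.gcd_dvd hx)
  have himg : (fun x => g * x) '' (A' : Set ℕ) = (A : Set ℕ) := by
    rw [hA', Finset.coe_image, Set.image_image]
    ext x
    constructor
    · rintro ⟨y, hy, rfl⟩
      show g * (y / g) ∈ _
      rw [hgA y hy]
      exact hy
    · intro hx
      exact ⟨x, hx, hgA x hx⟩
  have hinj : Set.InjOn (fun x => x / g) (A : Set ℕ) := by
    intro x hx y hy hxy
    simp only at hxy
    rw [← hgA x hx, ← hgA y hy, hxy]
  have hcard : A'.card = A.card := by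
    rw [hA', Finset.card_image_of_injOn hinj]
  have hkmem : A.card ∈ A' := by
    rw [hA', Finset.mem_image]
    exact ⟨A.min' h, hn0, by rw [hmin, Nat.mul_div_cancel _ hg]⟩
  set R := AddSubmonoid.closure (A' : Set ℕ) with hR
  have hscale : AddSubmonoid.closure (A : Set ℕ) = scale g R := by
    rw [hR, scale_closure, himg]
  have hge : ∀ x ∈ A', A.card ≤ x := by
    intro x hx
    rw [hA', Finset.mem_image] at hx
    obtain ⟨y, hy, rfl⟩ := hx
    have h1 : A.min' h ≤ y := Finset.min'_le A y hy
    rw [hmin, ← hgA y hy, mul_comm] at h1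
    exact Nat.le_of_mul_le_mul_left h1 hg
  have hnum : IsNumerical R := by
    obtain ⟨M, hM⟩ : ∃ M, ∀ x ∈ A', x ≤ M := ⟨A'.sup id, fun x hx => Finset.le_sup (f := id) hx⟩
    apply isNumerical_of_ge (N := M)
    intro z hz
    obtain ⟨x, hx, hc⟩ := block_rep S A hA h hmin (g * z) (dvd_mul_right g z)
    have hx' : x / g ∈ A' := by
      rw [hA', Finset.mem_image]
      exact ⟨x, hx, rfl⟩
    have hxle := hM _ hx'
    rcases hc with ⟨t, ht⟩ | ⟨t, ht1, ht⟩
    · have hz2 : z = x / g + t * A.card := by
        apply Nat.eq_of_mul_eq_mul_left hg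
        rw [mul_add, hgA x hx, ht, hmin]
        ring
      rw [hz2]
      refine R.add_mem (AddSubmonoid.subset_closure hx') ?_
      rw [← smul_eq_mul]
      exact R.nsmul_mem (AddSubmonoid.subset_closure hkmem) t
    · exfalso
      have h1 : g * (x / g) ≤ g * z := Nat.mul_le_mul_left g (hxle.trans hz)
      rw [hgA x hx] at h1
      have h2 : 0 < A.min' h := Nat.pos_of_ne_zero (hA _ hn0).2.1
      have h3 : 0 < t * A.min' h := Nat.mul_pos ht1 h2
      omega
  have hmg : minGens R = A' := by
    apply Set.Subset.antisymm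
    · exact minGens_subset hR.symm
    · intro x hx
      have hgx : g * x ∈ A := by
        have : g * x ∈ (fun x => g * x) '' (A' : Set ℕ) := ⟨x, hx, rfl⟩
        rw [himg] at this
        exact this
      have hRS : ∀ y ∈ R, g * y ∈ S := by
        intro y hy
        have h1 : g * y ∈ scale g R := mem_scale.2 ⟨y, hy, rfl⟩
        rw [← hscale] at h1
        have h2 : AddSubmonoid.closure (A : Set ℕ) ≤ S :=
          (AddSubmonoid.closure_le).2 fun x hx => (hA x hx).1
        exact h2 h1
      refine ⟨AddSubmonoid.subset_closure hx, ?_, ?_⟩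
      · rintro rfl
        exact (hA _ hgx).2.1 (mul_zero g)
      · intro y hy z hz hxyz
        have h1 := (hA _ hgx).2.2 (g * y) (hRS y hy) (g * z) (hRS z hz) (by
          rw [← mul_add, hxyz])
        rcases h1 with h1 | h1
        · left
          exact (Nat.mul_eq_zero.1 h1).resolve_left hg.ne'
        · right
          exact (Nat.mul_eq_zero.1 h1).resolve_left hg.ne'
  have hmult : mult R = A.card := by
    unfold mult
    apply le_antisymm
    · exact Nat.sInf_le ⟨AddSubmonoid.subset_closure hkmem, hk.ne'⟩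
    · have hne : {x | x ∈ R ∧ x ≠ 0}.Nonempty :=
        ⟨A.card, AddSubmonoid.subset_closure hkmem, hk.ne'⟩
      have hall : ∀ x ∈ R, x ≠ 0 → A.card ≤ x := by
        intro x hx
        rw [hR] at hx
        induction hx using AddSubmonoid.closure_induction with
        | mem x hx => intro _; exact hge x hx
        | zero => intro h; exact absurd rfl h
        | add x y _ _ ihx ihy =>
          intro hxy
          by_cases hx0 : x = 0
          · subst hx0
            rw [zero_add] at hxy ⊢
            exact ihy hxy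
          · exact (ihx hx0).trans (Nat.le_add_right _ _)
      have := Nat.sInf_mem hne
      exact hall _ this.1 this.2
  refine ⟨R, ⟨InG.med hnum ?_, hnum⟩, hscale⟩
  rw [hmult]
  unfold embDim
  rw [hmg, Set.ncard_coe_finset, hcard]

end

end Pool.Agent.Helper46.Glue
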