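import Mathlib
import Pool.Agent.Helper46.GlueVal

/-!
The lower bound for the size of a presentation given by a block partition, and its equality case.
-/

set_option autoImplicit false
set_option linter.unusedSectionVars false
set_option linter.unusedVariables false

namespace Pool.Agent.Helper46.Glue

open Relation Classical

/-- The index type of the blocks. -/
abbrev Kap (P : Finset (Finset ℕ)) : Type := {A : Finset ℕ // A ∈ P}

section

variable {S : AddSubmonoid ℕ} {P : Finset (Finset ℕ)} (hP : IsBlockPartition S P)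

include hP in
theorem exists_block (x : minGens S) : ∃ l : Kap P, (x : ℕ) ∈ l.1 := by
  obtain ⟨A, hA, hx⟩ := (hP.union x).1 x.2
  exact ⟨⟨A, hA⟩, hx⟩

/-- The block of a generator. -/
noncomputable def blk (x : minGens S) : Kap P := Classical.choose (exists_block hP x)

theorem blk_mem (x : minGens S) : (x : ℕ) ∈ (blk hP x).1 :=
  Classical.choose_spec (exists_block hP x)

include hP in
theorem block_unique {x : ℕ} {l l' : Kap P} (h : x ∈ l.1) (h' : x ∈ l'.1) : l = l' := by
  by_contra hne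
  have hne' : l.1 ≠ l'.1 := fun h => hne (Subtype.ext h)
  have := hP.disjoint (Finset.mem_coe.2 l.2) (Finset.mem_coe.2 l'.2) hne'
  exact Finset.disjoint_left.1 this h h'

theorem blk_eq {x : minGens S} {l : Kap P} (h : (x : ℕ) ∈ l.1) : blk hP x = l :=
  block_unique hP (blk_mem hP x) h

include hP in
theorem blk_subset (l : Kap P) : ∀ x ∈ l.1, x ∈ minGens S :=
  fun x hx => (hP.union x).2 ⟨l.1, l.2, hx⟩

include hP in
theorem blk_nonempty (l : Kap P) : l.1.Nonempty := (hP.block l.1 l.2).choose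

theorem blk_min (l : Kap P) : l.1.min' (blk_nonempty hP l) = l.1.card * l.1.gcd id :=
  (hP.block l.1 l.2).choose_spec

/-- The least element of a block. -/
noncomputable def base (l : Kap P) : minGens S :=
  ⟨l.1.min' (blk_nonempty hP l), blk_subset hP l _ (Finset.min'_mem _ _)⟩

theorem base_mem (l : Kap P) : (base hP l : ℕ) ∈ l.1 :=
  Finset.min'_mem l.1 (blk_nonempty hP l)

theorem blk_base (l : Kap P) : blk hP (base hP l) = l := blk_eq hP (base_mem hP l)

/-- The other elements of a block. -/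
noncomputable def nb (l : Kap P) : Finset (minGens S) :=
  (l.1.erase (l.1.min' (blk_nonempty hP l))).subtype (fun x => x ∈ minGens S)

theorem mem_nb {l : Kap P} {x : minGens S} : x ∈ nb hP l ↔ (x : ℕ) ∈ l.1 ∧ x ≠ base hP l := by
  unfold nb
  rw [Finset.mem_subtype, Finset.mem_erase, and_comm]
  constructor
  · rintro ⟨h1, h2⟩
    refine ⟨h1, fun h => h2 ?_⟩
    rw [h]
    rfl
  · rintro ⟨h1, h2⟩
    exact ⟨h1, fun h => h2 (Subtype.ext h)⟩

theorem card_nb (l : Kap P) : (nb hP l).card = l.1.card - 1 := by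
  unfold nb
  rw [Finset.card_subtype, Finset.filter_true_of_mem, Finset.card_erase_of_mem]
  · exact Finset.min'_mem _ _
  · intro x hx
    exact blk_subset hP l x (Finset.mem_of_mem_erase hx)

theorem toMultiset_injective {α : Type*} :
    Function.Injective (Sym2.toMultiset : Sym2 α → Multiset α) := by
  intro p q h
  apply Sym2.ext
  intro x
  rw [← Sym2.mem_toMultiset, ← Sym2.mem_toMultiset, h]

theorem toMultiset_mk {α : Type*} (i j : α) : (s(i, j)).toMultiset = ({i, j} : Multiset α) := rfl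

/-- The special pairs of a block. -/
noncomputable def spec (l : Kap P) : Finset (Multiset (minGens S)) :=
  (nb hP l).sym2.image Sym2.toMultiset

theorem mem_spec {l : Kap P} {p : Multiset (minGens S)} :
    p ∈ spec hP l ↔ ∃ i ∈ nb hP l, ∃ j ∈ nb hP l, p = {i, j} := by
  unfold spec
  rw [Finset.mem_image]
  constructor
  · rintro ⟨s, hs, rfl⟩
    induction s using Sym2.ind with
    | _ i j =>
      rw [Finset.mk_mem_sym2_iff] at hs
      exact ⟨i, hs.1, j, hs.2, rfl⟩
  · rintro ⟨i, hi, j, hj, rfl⟩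
    exact ⟨s(i, j), Finset.mk_mem_sym2_iff.2 ⟨hi, hj⟩, rfl⟩

theorem card_spec (l : Kap P) : (spec hP l).card = l.1.card.choose 2 := by
  unfold spec
  rw [Finset.card_image_of_injective _ toMultiset_injective, Finset.card_sym2, card_nb]
  congr 1
  have : 0 < l.1.card := Finset.card_pos.2 (blk_nonempty hP l)
  omega

/-- The special pairs. -/
noncomputable def sp : Finset (Multiset (minGens S)) := Finset.univ.biUnion (spec hP)

theorem mem_sp {p : Multiset (minGens S)} :
    p ∈ sp hP ↔ ∃ l, ∃ i ∈ nb hP l, ∃ j ∈ nb hP l, p = {i, j} := by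
  unfold sp
  rw [Finset.mem_biUnion]
  constructor
  · rintro ⟨l, _, hl⟩
    exact ⟨l, (mem_spec hP).1 hl⟩
  · rintro ⟨l, hl⟩
    exact ⟨l, Finset.mem_univ _, (mem_spec hP).2 hl⟩

theorem card_sp : (sp hP).card = ∑ l : Kap P, l.1.card.choose 2 := by
  unfold sp
  rw [Finset.card_biUnion]
  · exact Finset.sum_congr rfl fun l _ => card_spec hP l
  · intro l _ l' _ hne
    show Disjoint (spec hP l) (spec hP l')
    rw [Finset.disjoint_left]
    intro p hp hp'
    obtain ⟨i, hi, j, _, rfl⟩ := (mem_spec hP).1 hp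
    obtain ⟨i', hi', j', hj', h⟩ := (mem_spec hP).1 hp'
    have : i ∈ ({i', j'} : Multiset (minGens S)) := by
      rw [← h]; simp
    have hi2 : i ∈ nb hP l' := by
      simp only [Multiset.insert_eq_cons, Multiset.mem_cons, Multiset.mem_singleton] at this
      rcases this with rfl | rfl
      · exact hi'
      · exact hj'
    exact hne (block_unique hP ((mem_nb hP).1 hi).1 ((mem_nb hP).1 hi2).1)

/-- The values of the blocks. -/
noncomputable def bv : Multiset (minGens S) →+ (Kap P → ℕ) :=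
  Multiset.sumAddMonoidHom.comp
    (Multiset.mapAddMonoidHom (fun x : minGens S => (Pi.single (blk hP x) (x : ℕ) : Kap P → ℕ)))

theorem bv_cons (x : minGens S) (z : Multiset (minGens S)) :
    bv hP (x ::ₘ z) = Pi.single (blk hP x) (x : ℕ) + bv hP z := by
  simp [bv]

theorem bv_replicate (t : ℕ) (x : minGens S) :
    bv hP (Multiset.replicate t x) = Pi.single (blk hP x) (t * (x : ℕ)) := by
  induction t with
  | zero => simp
  | succ t ih =>
    rw [Multiset.replicate_succ, bv_cons, ih, ← Pi.single_add]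
    congr 1
    ring

theorem sum_bv (z : Multiset (minGens S)) : ∑ l, bv hP z l = vh S z := by
  induction z using Multiset.induction_on with
  | empty => simp
  | cons x z ih =>
    rw [bv_cons, vh_cons, ← ih]
    simp only [Pi.add_apply]
    rw [Finset.sum_add_distrib, sum_single]

theorem bv_mem (z : Multiset (minGens S)) :
    bv hP z ∈ MT (fun l : Kap P => AddSubmonoid.closure (l.1 : Set ℕ)) := by
  induction z using Multiset.induction_on with
  | empty =>
    rw [map_zero]
    intro l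
    exact AddSubmonoid.zero_mem _
  | cons x z ih =>
    rw [bv_cons]
    intro l
    refine AddSubmonoid.add_mem _ ?_ (ih l)
    exact single_mem_MT (fun l : Kap P => AddSubmonoid.closure (l.1 : Set ℕ)) (blk hP x)
      (AddSubmonoid.subset_closure (Finset.mem_coe.2 (blk_mem hP x))) l

theorem bv_surj_single (l : Kap P) {s : ℕ} (hs : s ∈ AddSubmonoid.closure (l.1 : Set ℕ)) :
    ∃ z, bv hP z = Pi.single l s := by
  induction hs using AddSubmonoid.closure_induction with
  | mem x hx =>
    refine ⟨⟨x, blk_subset hP l x hx⟩ ::ₘ 0, ?_⟩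
    rw [bv_cons, map_zero, add_zero, blk_eq hP (l := l) hx]
  | zero => exact ⟨0, by simp⟩
  | add x y _ _ ihx ihy =>
    obtain ⟨z, hz⟩ := ihx
    obtain ⟨w, hw⟩ := ihy
    exact ⟨z + w, by rw [map_add, hz, hw, Pi.single_add]⟩

theorem bv_surj {x : Kap P → ℕ}
    (hx : x ∈ MT (fun l : Kap P => AddSubmonoid.closure (l.1 : Set ℕ))) : ∃ z, bv hP z = x := by
  have h : ∀ l, ∃ z, bv hP z = Pi.single l (x l) := fun l => bv_surj_single hP l (hx l)
  choose z hz using h
  refine ⟨∑ l, z l, ?_⟩
  rw [map_sum, Finset.sum_congr rfl (fun l _ => hz l)]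
  exact Finset.univ_sum_single x

theorem exists_y {p : Multiset (minGens S)} (hp : p ∈ sp hP) :
    ∃ y, vh S p = vh S y ∧ y ∉ sp hP ∧ bv hP p = bv hP y := by
  obtain ⟨l, i, hi, j, hj, rfl⟩ := (mem_sp hP).1 hp
  obtain ⟨hi1, hi2⟩ := (mem_nb hP).1 hi
  obtain ⟨hj1, hj2⟩ := (mem_nb hP).1 hj
  obtain ⟨x, hx, t, hxt⟩ := block_add S l.1 (blk_subset hP l) (blk_nonempty hP l) (blk_min hP l)
    i j hi1 hj1
  refine ⟨⟨x, blk_subset hP l x hx⟩ ::ₘ Multiset.replicate (t + 1) (base hP l), ?_, ?_, ?_⟩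
  · rw [vh_cons, vh_replicate, Multiset.insert_eq_cons, vh_cons, vh_singleton, hxt]
    rfl
  · intro h
    obtain ⟨l', i', hi', j', hj', h⟩ := (mem_sp hP).1 h
    have hmem : base hP l ∈ ({i', j'} : Multiset (minGens S)) := by
      rw [← h]
      simp
    have hb : base hP l ∈ nb hP l' := by
      simp only [Multiset.insert_eq_cons, Multiset.mem_cons, Multiset.mem_singleton] at hmem
      rcases hmem with h | h
      · rw [h]; exact hi'
      · rw [h]; exact hj'
    obtain ⟨h1, h2⟩ := (mem_nb hP).1 hb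
    have := block_unique hP (base_mem hP l) h1
    subst this
    exact h2 rfl
  · rw [bv_cons, bv_replicate, Multiset.insert_eq_cons, bv_cons, ← Multiset.cons_zero, bv_cons,
      map_zero, add_zero, blk_eq hP hi1, blk_eq hP hj1, blk_base, blk_eq hP (l := l) hx,
      ← Pi.single_add, ← Pi.single_add, hxt]
    rfl

include hP in
theorem reduce (ρ : Finset (Multiset (minGens S) × Multiset (minGens S)))
    (hρ : Gens (vh S) ρ) :
    ∃ ρ' : Finset ((Kap P → ℕ) × (Kap P → ℕ)),
      ρ'.card + ∑ l : Kap P, l.1.card.choose 2 ≤ ρ.card ∧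
      GenT (fun l : Kap P => AddSubmonoid.closure (l.1 : Set ℕ)) ρ' := by
  have hy : ∀ p, ∃ y, p ∈ sp hP → vh S p = vh S y ∧ y ∉ sp hP ∧ bv hP p = bv hP y := by
    intro p
    by_cases hp : p ∈ sp hP
    · obtain ⟨y, hy⟩ := exists_y hP hp
      exact ⟨y, fun _ => hy⟩
    · exact ⟨0, fun h => absurd h hp⟩
  choose y hy using hy
  obtain ⟨ρ', hc, hg, hmem⟩ := exchange_all (vh S) (vh_eq_zero S) ρ hρ (sp hP) y
    (fun p hp => (hy p hp).1) (fun p hp => (hy p hp).2.1) (by
      intro p hp a ha b hab hne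
      obtain ⟨l, i, _, j, _, rfl⟩ := (mem_sp hP).1 hp
      exact iso_pair S i j a ha b hab hne)
  set E : Finset (Multiset (minGens S) × Multiset (minGens S)) :=
    (sp hP).image (fun p => (p, y p)) with hE
  have hEsub : E ⊆ ρ' := by
    intro r hr
    obtain ⟨p, hp, rfl⟩ := Finset.mem_image.1 hr
    exact hmem p hp
  have hEcard : E.card = ∑ l : Kap P, l.1.card.choose 2 := by
    rw [hE, Finset.card_image_of_injective _ (fun a b h => congrArg Prod.fst h), card_sp]
  refine ⟨(ρ' \ E).image (Prod.map (bv hP) (bv hP)), ?_, ?_, ?_⟩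
  · have h1 : ((ρ' \ E).image (Prod.map (bv hP) (bv hP))).card ≤ (ρ' \ E).card :=
      Finset.card_image_le
    have h2 : (ρ' \ E).card + E.card = ρ'.card := Finset.card_sdiff_add_card_eq_card hEsub
    omega
  · intro r hr
    obtain ⟨s, hs, rfl⟩ := Finset.mem_image.1 hr
    refine ⟨bv_mem hP _, bv_mem hP _, ?_⟩
    simp only [Prod.map_fst, Prod.map_snd]
    rw [sum_bv, sum_bv]
    exact hg.eq_of_mem _ (Finset.mem_coe.2 (Finset.mem_sdiff.1 hs).1)
  · intro x hx w hw hxw
    obtain ⟨z, rfl⟩ := bv_surj hP hx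
    obtain ⟨z', rfl⟩ := bv_surj hP hw
    rw [sum_bv, sum_bv] at hxw
    refine reach_map (bv hP) ?_ ((hg z z').2 hxw)
    intro a b hab
    by_cases h : (a, b) ∈ E
    · obtain ⟨p, hp, hpe⟩ := Finset.mem_image.1 h
      obtain ⟨rfl, rfl⟩ := Prod.mk.inj hpe
      rw [(hy p hp).2.2]
    · refine ReflTransGen.single ⟨bv hP a, bv hP b, 0, ?_,
        Or.inl ⟨by rw [zero_add], by rw [zero_add]⟩⟩
      rw [Finset.mem_coe, Finset.mem_image]
      exact ⟨(a, b), Finset.mem_sdiff.2 ⟨hab, h⟩, rfl⟩

include hP in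
theorem embDim_eq : embDim S = ∑ l : Kap P, l.1.card := by
  have h1 : minGens S = ((P.biUnion id : Finset ℕ) : Set ℕ) := by
    ext x
    rw [hP.union x, Finset.mem_coe, Finset.mem_biUnion]
    rfl
  unfold embDim
  rw [h1, Set.ncard_coe_finset, Finset.card_biUnion]
  · rw [Finset.sum_coe_sort P (fun A => A.card)]
    rfl
  · intro A hA B hB hne
    exact hP.disjoint (Finset.mem_coe.2 hA) (Finset.mem_coe.2 hB) hne

include hP in
theorem count_eq : Fintype.card (Kap P) + ∑ l : Kap P, l.1.card.choose 2 =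
    embDim S + ∑ A ∈ P, (A.card - 1).choose 2 := by
  rw [embDim_eq hP, ← Finset.sum_coe_sort P (fun A => (A.card - 1).choose 2),
    ← Finset.sum_add_distrib, ← Finset.card_univ, Finset.card_eq_sum_ones,
    ← Finset.sum_add_distrib]
  refine Finset.sum_congr rfl fun l _ => ?_
  have : 0 < l.1.card := Finset.card_pos.2 (blk_nonempty hP l)
  obtain ⟨k, hk⟩ : ∃ k, l.1.card = k + 1 := ⟨l.1.card - 1, by omega⟩
  rw [hk, Nat.add_sub_cancel, Nat.choose_succ_succ' k 1, Nat.choose_one_right]
  ring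

include hP in
theorem block_ne_zero (l : Kap P) : ∃ t ∈ AddSubmonoid.closure (l.1 : Set ℕ), t ≠ 0 := by
  obtain ⟨x, hx⟩ := blk_nonempty hP l
  exact ⟨x, AddSubmonoid.subset_closure hx, (blk_subset hP l x hx).2.1⟩

include hP in
theorem lower_bound (ρ : Finset (Multiset (minGens S) × Multiset (minGens S)))
    (hρ : Gens (vh S) ρ) : embDim S + ∑ A ∈ P, (A.card - 1).choose 2 ≤ ρ.card + 1 := by
  obtain ⟨ρ', h1, h2⟩ := reduce hP ρ hρ
  have h3 := card_le_of_genT _ (Kap P) _ ρ' rfl (block_ne_zero hP) h2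
  rw [← count_eq hP]
  omega

include hP in
theorem inG_of_eq (hS : IsNumerical S)
    (ρ : Finset (Multiset (minGens S) × Multiset (minGens S)))
    (hρ : Gens (vh S) ρ) (hcard : ρ.card + 1 ≤ embDim S + ∑ A ∈ P, (A.card - 1).choose 2) :
    InG S := by
  obtain ⟨ρ', h1, h2⟩ := reduce hP ρ hρ
  rw [← count_eq hP] at hcard
  obtain ⟨N, hN⟩ := hS.exists_ge
  have hne : Nonempty (Kap P) := by
    by_contra hcon
    rw [not_nonempty_iff] at hcon
    have hS0 : minGens S = ∅ := by
      ext x
      constructor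
      · intro hx
        obtain ⟨A, hA, _⟩ := (hP.union x).1 hx
        exact (hcon.false ⟨A, hA⟩).elim
      · intro h; exact h.elim
    have h3 : S = ⊥ := by
      rw [← closure_minGens S, hS0, AddSubmonoid.closure_empty]
    have h4 := hN (N + 1) (by omega)
    rw [h3, AddSubmonoid.mem_bot] at h4
    omega
  have hpos : 0 < Fintype.card (Kap P) := Fintype.card_pos
  obtain ⟨n, hn⟩ : ∃ n, Fintype.card (Kap P) = n + 1 := ⟨Fintype.card (Kap P) - 1, by omega⟩
  obtain ⟨g, hg, R, hRG, hRN, hgR⟩ := glue_all S n (Kap P) (fun l => (l.1 : Set ℕ)) ρ' hn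
    (fun l x hx => blk_subset hP l x hx)
    (by
      intro l l' hne
      rw [Set.disjoint_left]
      intro x hx hx'
      exact hne (block_unique hP hx hx'))
    (by
      intro l
      obtain ⟨R, ⟨hR1, hR2⟩, hR3⟩ := block_scale S l.1 (blk_subset hP l) (blk_nonempty hP l)
        (blk_min hP l)
      exact ⟨l.1.gcd id, (gcd_pos S l.1 (blk_subset hP l) (blk_nonempty hP l)).ne', R, hR1, hR2,
        hR3⟩)
    h2 (by omega)
  have hU : (⋃ l : Kap P, (l.1 : Set ℕ)) = minGens S := by
    ext x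
    rw [Set.mem_iUnion, hP.union x]
    constructor
    · rintro ⟨l, hl⟩
      exact ⟨l.1, l.2, hl⟩
    · rintro ⟨A, hA, hx⟩
      exact ⟨⟨A, hA⟩, hx⟩
  rw [hU, closure_minGens] at hgR
  have hg1 : g = 1 := by
    have h3 := hN N le_rfl
    have h4 := hN (N + 1) (by omega)
    rw [hgR, mem_scale] at h3 h4
    obtain ⟨a, _, ha⟩ := h3
    obtain ⟨b, _, hb⟩ := h4
    have h5 : g ∣ 1 := by
      have : g ∣ (N + 1) - N := Nat.dvd_sub ⟨b, hb.symm⟩ ⟨a, ha.symm⟩
      rwa [Nat.add_sub_cancel_left] at this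
    exact Nat.dvd_one.1 h5
  rw [hg1, scale_one] at hgR
  rw [hgR]
  exact hRG

end

end Pool.Agent.Helper46.Glue
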