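import Mathlib
import Pool.Agent.Helper46.GlueBlock

/-!
Every member of the gluing closure has a block partition with equality.
-/

set_option autoImplicit false
set_option linter.unusedSectionVars false
set_option linter.unusedVariables false

namespace Pool.Agent.Helper46.Glue

open Relation Classical

/-- The inductive statement. -/
def Good (S : AddSubmonoid ℕ) : Prop :=
  IsNumerical S ∧ ∃ P, IsBlockPartition S P ∧
    ∃ ρ : Finset (Multiset (minGens S) × Multiset (minGens S)), Gens (vh S) ρ ∧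
      ρ.card + 1 ≤ embDim S + ∑ A ∈ P, (A.card - 1).choose 2

/-! ### maximal embedding dimension -/

theorem one_mem_minGens {S : AddSubmonoid ℕ} (h : 1 ∈ S) : 1 ∈ minGens S := by
  refine ⟨h, one_ne_zero, ?_⟩
  intro y _ z _ hyz
  omega

theorem mult_spec {S : AddSubmonoid ℕ} (hS : IsNumerical S) :
    mult S ∈ S ∧ mult S ≠ 0 ∧ ∀ x ∈ S, x ≠ 0 → mult S ≤ x := by
  obtain ⟨N, hN⟩ := hS.exists_ge
  have hne : {x | x ∈ S ∧ x ≠ 0}.Nonempty := ⟨N + 1, hN _ (by omega), by omega⟩
  have h1 := Nat.sInf_mem hne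
  exact ⟨h1.1, h1.2, fun x hx hx0 => Nat.sInf_le ⟨hx, hx0⟩⟩

theorem minGens_finite {S : AddSubmonoid ℕ} (hS : IsNumerical S) : (minGens S).Finite := by
  obtain ⟨N, hN⟩ := hS.exists_ge
  obtain ⟨h1, h2, h3⟩ := mult_spec hS
  refine (Set.finite_lt_nat (N + mult S + 1)).subset ?_
  intro x hx
  by_contra hcon
  have hlt : N + mult S + 1 ≤ x := not_lt.1 hcon
  exact irr_add S hx h1 (hN (x - mult S) (by omega)) h2 (by omega) (by omega)

theorem mult_mem_minGens {S : AddSubmonoid ℕ} (hS : IsNumerical S) : mult S ∈ minGens S := by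
  obtain ⟨h1, h2, h3⟩ := mult_spec hS
  refine ⟨h1, h2, ?_⟩
  intro y hy z hz hyz
  by_contra hcon
  push Not at hcon
  have := h3 y hy hcon.1
  omega

theorem good_med {S : AddSubmonoid ℕ} (hS : IsNumerical S) (hm : embDim S = mult S) : Good S := by
  obtain ⟨h1, h2, h3⟩ := mult_spec hS
  have hmm := mult_mem_minGens hS
  have hfin := minGens_finite hS
  set A : Finset ℕ := hfin.toFinset with hA
  have hmemA : ∀ x, x ∈ A ↔ x ∈ minGens S := fun x => by rw [hA, Set.Finite.mem_toFinset]
  have hAne : A.Nonempty := ⟨mult S, (hmemA _).2 hmm⟩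
  have hcardA : A.card = embDim S := by
    unfold embDim
    rw [hA, Set.ncard_eq_toFinset_card _ hfin]
  have hminA : A.min' hAne = mult S := by
    apply le_antisymm
    · exact Finset.min'_le _ _ ((hmemA _).2 hmm)
    · have h4 := (hmemA _).1 (Finset.min'_mem A hAne)
      exact h3 _ h4.1 h4.2.1
  have hgcd : A.gcd id = 1 := by
    obtain ⟨N, hN⟩ := hS.exists_ge
    have hdvd : ∀ x ∈ S, A.gcd id ∣ x := by
      intro x hx
      rw [← closure_minGens S] at hx
      induction hx using AddSubmonoid.closure_induction with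
      | mem x hx => exact Finset.gcd_dvd (f := id) ((hmemA x).2 hx)
      | zero => exact dvd_zero _
      | add x y _ _ ihx ihy => exact dvd_add ihx ihy
    have h5 := Nat.dvd_sub (hdvd _ (hN (N + 1) (by omega))) (hdvd _ (hN N le_rfl))
    rw [Nat.add_sub_cancel_left] at h5
    exact Nat.dvd_one.1 h5
  have hP : IsBlockPartition S {A} := by
    refine ⟨?_, ?_, ?_⟩
    · rw [Finset.coe_singleton]
      exact Set.pairwiseDisjoint_singleton A id
    · intro x
      simp [hmemA]
    · intro B hB
      rw [Finset.mem_singleton] at hB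
      subst hB
      exact ⟨hAne, by rw [hminA, hgcd, mul_one, hcardA, hm]⟩
  refine ⟨hS, {A}, hP, ?_⟩
  set l : Kap {A} := ⟨A, Finset.mem_singleton_self A⟩ with hl
  have hy : ∀ p, ∃ y, p ∈ sp hP → vh S p = vh S y ∧
      ∃ (x : minGens S) (t : ℕ), y = x ::ₘ Multiset.replicate t (base hP l) := by
    intro p
    by_cases hp : p ∈ sp hP
    · obtain ⟨l', i, hi, j, hj, rfl⟩ := (mem_sp hP).1 hp
      obtain ⟨hi1, hi2⟩ := (mem_nb hP).1 hi
      obtain ⟨hj1, hj2⟩ := (mem_nb hP).1 hj
      have hll : l' = l := Subtype.ext (Finset.mem_singleton.1 l'.2)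
      rw [hll] at hi1 hj1
      obtain ⟨x, hx, t, hxt⟩ := block_add S l.1 (blk_subset hP l) (blk_nonempty hP l)
        (blk_min hP l) i j hi1 hj1
      refine ⟨⟨x, blk_subset hP l x hx⟩ ::ₘ Multiset.replicate (t + 1) (base hP l),
        fun _ => ⟨?_, _, _, rfl⟩⟩
      rw [vh_cons, vh_replicate, Multiset.insert_eq_cons, vh_cons, vh_singleton, hxt]
      rfl
    · exact ⟨0, fun h => absurd h hp⟩
  choose y hy using hy
  set ρ : Finset (Multiset (minGens S) × Multiset (minGens S)) :=
    (sp hP).image (fun p => (p, y p)) with hρ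
  have hval : ∀ a b, (a, b) ∈ ρ → vh S a = vh S b := by
    intro a b hab
    obtain ⟨p, hp, hpe⟩ := Finset.mem_image.1 hab
    obtain ⟨rfl, rfl⟩ := Prod.mk.inj hpe
    exact (hy _ hp).1
  -- normal forms
  have hmeml : ∀ x : minGens S, (x : ℕ) ∈ l.1 := fun x => (hmemA x).2 x.2
  have hnf : ∀ z : Multiset (minGens S), z = 0 ∨ ∃ (x : minGens S) (t : ℕ),
      ReflTransGen (Step (ρ : Set (Multiset (minGens S) × Multiset (minGens S)))) z
        (x ::ₘ Multiset.replicate t (base hP l)) := by
    intro z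
    induction z using Multiset.induction_on with
    | empty => exact Or.inl rfl
    | cons a z ih =>
      right
      rcases ih with rfl | ⟨x, t, hx⟩
      · exact ⟨a, 0, ReflTransGen.refl⟩
      · have h5 : ReflTransGen (Step (ρ : Set (Multiset (minGens S) × Multiset (minGens S))))
            (a ::ₘ z) (a ::ₘ x ::ₘ Multiset.replicate t (base hP l)) := by
          have := reach_add hx {a}
          rwa [Multiset.singleton_add, Multiset.singleton_add] at this
        by_cases ha : a = base hP l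
        · refine ⟨x, t + 1, ?_⟩
          rw [Multiset.replicate_succ, Multiset.cons_swap, ← ha]
          rw [← ha] at h5
          exact h5
        · by_cases hx' : x = base hP l
          · refine ⟨a, t + 1, ?_⟩
            rw [Multiset.replicate_succ, ← hx']
            rw [← hx'] at h5
            exact h5
          · have hp : ({a, x} : Multiset (minGens S)) ∈ sp hP :=
              (mem_sp hP).2 ⟨l, a, (mem_nb hP).2 ⟨hmeml a, ha⟩, x,
                (mem_nb hP).2 ⟨hmeml x, hx'⟩, rfl⟩
            obtain ⟨_, x', t', hyx⟩ := hy _ hp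
            refine ⟨x', t' + t, h5.trans (ReflTransGen.single
              ⟨{a, x}, y {a, x}, Multiset.replicate t (base hP l), ?_, Or.inl ⟨?_, ?_⟩⟩)⟩
            · exact Finset.mem_coe.2 (Finset.mem_image.2 ⟨_, hp, rfl⟩)
            · rw [Multiset.insert_eq_cons, add_comm, Multiset.cons_add, Multiset.singleton_add]
            · rw [hyx, Multiset.add_cons, ← Multiset.replicate_add, add_comm t' t]
  refine ⟨ρ, ?_, ?_⟩
  · intro z z'
    constructor
    · intro h
      induction h with
      | refl => rfl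
      | tail _ hs ih =>
        rw [ih]
        obtain ⟨a, b, c, hab, hs⟩ := hs
        have hv := hval a b hab
        rcases hs with ⟨rfl, rfl⟩ | ⟨rfl, rfl⟩
        · rw [map_add, map_add, hv]
        · rw [map_add, map_add, hv]
    · intro h
      have hinv : ∀ u w : Multiset (minGens S),
          ReflTransGen (Step (ρ : Set (Multiset (minGens S) × Multiset (minGens S)))) u w →
          vh S u = vh S w := by
        intro u w huw
        induction huw with
        | refl => rfl
        | tail _ hs ih =>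
          rw [ih]
          obtain ⟨a, b, c, hab, hs⟩ := hs
          have hv := hval a b hab
          rcases hs with ⟨rfl, rfl⟩ | ⟨rfl, rfl⟩
          · rw [map_add, map_add, hv]
          · rw [map_add, map_add, hv]
      by_cases hz : z = 0
      · subst hz
        rw [map_zero] at h
        rw [vh_eq_zero S z' h.symm]
      by_cases hz' : z' = 0
      · subst hz'
        rw [map_zero] at h
        rw [vh_eq_zero S z h]
      obtain ⟨x, t, hx⟩ := (hnf z).resolve_left hz
      obtain ⟨x', t', hx'⟩ := (hnf z').resolve_left hz'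
      have h6 : (x : ℕ) + t * (base hP l : ℕ) = x' + t' * (base hP l : ℕ) := by
        have e1 := hinv _ _ hx
        have e2 := hinv _ _ hx'
        rw [vh_cons, vh_replicate] at e1 e2
        rw [← e1, ← e2, h]
      have hb0 : (base hP l : ℕ) ≠ 0 := (base hP l).2.2.1
      have key : ∀ (x x' : minGens S) (t t' : ℕ), t < t' →
          (x : ℕ) + t * (base hP l : ℕ) = x' + t' * (base hP l : ℕ) → False := by
        intro x x' t t' hlt he
        obtain ⟨d, rfl⟩ := Nat.exists_eq_add_of_lt hlt
        have e3 : (x : ℕ) = x' + (d + 1) * (base hP l : ℕ) := by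
          have : (x : ℕ) + t * (base hP l : ℕ) = (x' + (d + 1) * (base hP l : ℕ)) +
            t * (base hP l : ℕ) := by rw [he]; ring
          omega
        refine irr_add S x.2 x'.2.1 ?_ x'.2.2.1 ?_ e3
        · rw [← smul_eq_mul]
          exact S.nsmul_mem (base hP l).2.1 _
        · exact mul_ne_zero (by omega) hb0
      have htt : t = t' := by
        rcases lt_trichotomy t t' with h7 | h7 | h7
        · exact (key x x' t t' h7 h6).elim
        · exact h7
        · exact (key x' x t' t h7 h6.symm).elim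
      subst htt
      have hxx : x = x' := Subtype.ext (by omega)
      subst hxx
      exact hx.trans (reach_symm hx')
  · have h8 : ρ.card ≤ (sp hP).card := Finset.card_image_le
    rw [card_sp] at h8
    have h9 := count_eq hP
    have h10 : Fintype.card (Kap {A}) = 1 := by
      rw [Fintype.card_coe, Finset.card_singleton]
    rw [← h9, h10]
    omega

/-! ### gluing -/

theorem no_l {R : AddSubmonoid ℕ} {l x a c : ℕ} (hx : x ∈ minGens R) (hl : l ∈ R)
    (hl' : l ∉ minGens R) (hl0 : l ≠ 0) (ha : a ∈ R) (h : x = a + l * c) : c = 0 := by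
  by_contra hc
  have hmul : ∀ k : ℕ, l * k ∈ R := fun k => by
    rw [mul_comm, ← smul_eq_mul]
    exact R.nsmul_mem hl k
  rcases hx.2.2 a ha (l * c) (hmul c) h with h1 | h1
  · subst h1
    rw [zero_add] at h
    obtain ⟨d, rfl⟩ := Nat.exists_eq_succ_of_ne_zero hc
    have h2 : x = l + l * d := by rw [h, Nat.mul_succ]; ring
    rcases hx.2.2 l hl (l * d) (hmul d) h2 with h3 | h3
    · exact hl0 h3
    · apply hl'
      rw [h3, add_zero] at h2
      rw [← h2]
      exact hx
  · exact (mul_ne_zero hl0 hc) h1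

theorem glue_side {S₁ S₂ : AddSubmonoid ℕ} {l m : ℕ} (hl : l ∈ S₁) (hl' : l ∉ minGens S₁)
    (hl0 : l ≠ 0) (hm0 : m ≠ 0) (hlm : Nat.gcd l m = 1) {x : ℕ} (hx : x ∈ minGens S₁) :
    m * x ∈ minGens (scale m S₁ ⊔ scale l S₂) := by
  refine ⟨mem_glue.2 ⟨x, hx.1, 0, S₂.zero_mem, by ring⟩, mul_ne_zero hm0 hx.2.1, ?_⟩
  intro s hs s' hs' hss
  obtain ⟨a, ha, b, hb, rfl⟩ := mem_glue.1 hs
  obtain ⟨a', ha', b', hb', rfl⟩ := mem_glue.1 hs'
  have h1 : m * x = m * (a + a') + l * (b + b') := by rw [hss]; ring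
  have hle : a + a' ≤ x := by
    apply Nat.le_of_mul_le_mul_left _ (Nat.pos_of_ne_zero hm0)
    omega
  obtain ⟨d, hd⟩ := Nat.exists_eq_add_of_le hle
  have h2 : m * d = l * (b + b') := by
    rw [hd, mul_add] at h1
    omega
  have h3 : l ∣ d := Nat.Coprime.dvd_of_dvd_mul_left hlm ⟨b + b', h2⟩
  obtain ⟨c, hc⟩ := h3
  rw [hc] at hd
  have hc0 := no_l hx hl hl' hl0 (S₁.add_mem ha ha') hd
  subst hc0
  rw [mul_zero] at hc hd
  subst hc
  rw [mul_zero] at h2
  have h4 : b + b' = 0 := (Nat.mul_eq_zero.1 h2.symm).resolve_left hl0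
  have hb0 : b = 0 := by omega
  have hb0' : b' = 0 := by omega
  subst hb0
  subst hb0'
  rw [add_zero] at hd
  rcases hx.2.2 a ha a' ha' hd with h5 | h5
  · left; rw [h5]; ring
  · right; rw [h5]; ring

theorem glue_disj {S₁ : AddSubmonoid ℕ} {l m : ℕ} (hl : l ∈ S₁) (hl' : l ∉ minGens S₁)
    (hl0 : l ≠ 0) (hlm : Nat.gcd l m = 1) {x y : ℕ} (hx : x ∈ minGens S₁) : m * x ≠ l * y := by
  intro h
  have h3 : l ∣ x := Nat.Coprime.dvd_of_dvd_mul_left hlm ⟨y, h⟩
  obtain ⟨c, hc⟩ := h3
  have hc0 := no_l (a := 0) hx hl hl' hl0 S₁.zero_mem (by rw [zero_add]; exact hc)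
  subst hc0
  exact hx.2.1 hc

theorem scaled_block {R : AddSubmonoid ℕ} {P : Finset (Finset ℕ)} (hP : IsBlockPartition R P)
    {m : ℕ} (hm : m ≠ 0) (A : Finset ℕ) (hA : A ∈ P) :
    ∃ h : (A.image (fun x => m * x)).Nonempty,
      (A.image (fun x => m * x)).min' h =
        (A.image (fun x => m * x)).card * (A.image (fun x => m * x)).gcd id := by
  obtain ⟨h, hmin⟩ := hP.block A hA
  refine ⟨h.image _, ?_⟩
  have h1 : (A.image (fun x => m * x)).min' (h.image _) = m * A.min' h :=
    Finset.min'_image (fun a b hab => Nat.mul_le_mul_left m hab) A (h.image _)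
  have hinj : Function.Injective (fun x : ℕ => m * x) :=
    fun a b hab => Nat.eq_of_mul_eq_mul_left (Nat.pos_of_ne_zero hm) hab
  have h2 : (A.image (fun x => m * x)).gcd id = m * A.gcd id := by
    rw [Finset.gcd_image]
    show A.gcd (fun x => m * id x) = _
    rw [Finset.gcd_mul_left]
    simp
  rw [h1, h2, Finset.card_image_of_injective _ hinj, hmin]
  ring

theorem vh_map {S R : AddSubmonoid ℕ} (i : minGens R → minGens S) (m : ℕ)
    (hi : ∀ x, (i x : ℕ) = m * x) (z : Multiset (minGens R)) :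
    vh S (Multiset.mapAddMonoidHom i z) = m * vh R z := by
  induction z using Multiset.induction_on with
  | empty => simp
  | cons x z ih =>
    have h1 : Multiset.mapAddMonoidHom i (x ::ₘ z) = i x ::ₘ Multiset.mapAddMonoidHom i z := by
      simp
    rw [h1, vh_cons, vh_cons, ih, hi]
    ring

theorem good_glue {S S₁ S₂ : AddSubmonoid ℕ} (h1 : Good S₁) (h2 : Good S₂)
    (h : IsGluing S S₁ S₂) : Good S := by
  obtain ⟨l, m, ⟨hl, hl'⟩, ⟨hm, hm'⟩, hlm, hS⟩ := h
  rw [glue_eq] at hS
  have hml : Nat.gcd m l = 1 := by rw [Nat.gcd_comm]; exact hlm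
  have hl0 : l ≠ 0 := by
    rintro rfl
    rw [Nat.gcd_zero_left] at hlm
    subst hlm
    exact hm' (one_mem_minGens hm)
  have hm0 : m ≠ 0 := by
    rintro rfl
    rw [Nat.gcd_zero_right] at hlm
    subst hlm
    exact hl' (one_mem_minGens hl)
  obtain ⟨hN1, P1, hP1, ρ1, hρ1, hc1⟩ := h1
  obtain ⟨hN2, P2, hP2, ρ2, hρ2, hc2⟩ := h2
  have hNS : IsNumerical S := by
    rw [hS]
    exact isNumerical_glue hN1 hN2 hlm hl0 hm0
  have hside1 : ∀ x ∈ minGens S₁, m * x ∈ minGens S := by
    intro x hx
    rw [hS]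
    exact glue_side hl hl' hl0 hm0 hlm hx
  have hside2 : ∀ x ∈ minGens S₂, l * x ∈ minGens S := by
    intro x hx
    rw [hS, sup_comm]
    exact glue_side hm hm' hm0 hl0 hml hx
  have hdisj : ∀ x ∈ minGens S₁, ∀ y, m * x ≠ l * y := fun x hx y =>
    glue_disj hl hl' hl0 hlm hx
  have hcover : ∀ x ∈ minGens S, (∃ y ∈ minGens S₁, m * y = x) ∨
      (∃ y ∈ minGens S₂, l * y = x) := by
    intro x hx
    have h3 := minGens_subset (S := S)
      (A := (fun x => m * x) '' minGens S₁ ∪ (fun x => l * x) '' minGens S₂)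
      (by rw [glue_eq, hS]) hx
    rcases h3 with h3 | h3
    · exact Or.inl h3
    · exact Or.inr h3
  have hinjm : Function.Injective (fun x : ℕ => m * x) :=
    fun a b hab => Nat.eq_of_mul_eq_mul_left (Nat.pos_of_ne_zero hm0) hab
  have hinjl : Function.Injective (fun x : ℕ => l * x) :=
    fun a b hab => Nat.eq_of_mul_eq_mul_left (Nat.pos_of_ne_zero hl0) hab
  -- the partition
  set Q1 : Finset (Finset ℕ) := P1.image (fun A => A.image (fun x => m * x)) with hQ1
  set Q2 : Finset (Finset ℕ) := P2.image (fun A => A.image (fun x => l * x)) with hQ2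
  have hmem1 : ∀ B ∈ Q1, ∃ A ∈ P1, A.image (fun x => m * x) = B := fun B hB =>
    Finset.mem_image.1 hB
  have hmem2 : ∀ B ∈ Q2, ∃ A ∈ P2, A.image (fun x => l * x) = B := fun B hB =>
    Finset.mem_image.1 hB
  have hcross : ∀ A ∈ P1, ∀ A' ∈ P2,
      Disjoint (A.image (fun x => m * x)) (A'.image (fun x => l * x)) := by
    intro A hA A' hA'
    rw [Finset.disjoint_left]
    intro x hx hx'
    obtain ⟨y, hy, rfl⟩ := Finset.mem_image.1 hx
    obtain ⟨z, hz, hzy⟩ := Finset.mem_image.1 hx'
    exact hdisj y ((hP1.union y).2 ⟨A, hA, hy⟩) z hzy.symm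
  have hQ : IsBlockPartition S (Q1 ∪ Q2) := by
    refine ⟨?_, ?_, ?_⟩
    · intro B hB B' hB' hne
      show Disjoint B B'
      rw [Finset.coe_union] at hB hB'
      rcases hB with hB | hB <;> rcases hB' with hB' | hB'
      · obtain ⟨A, hA, rfl⟩ := hmem1 B hB
        obtain ⟨A', hA', rfl⟩ := hmem1 B' hB'
        have hAA : A ≠ A' := fun h => hne (by rw [h])
        rw [Finset.disjoint_image hinjm]
        exact hP1.disjoint (Finset.mem_coe.2 hA) (Finset.mem_coe.2 hA') hAA
      · obtain ⟨A, hA, rfl⟩ := hmem1 B hB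
        obtain ⟨A', hA', rfl⟩ := hmem2 B' hB'
        exact hcross A hA A' hA'
      · obtain ⟨A, hA, rfl⟩ := hmem2 B hB
        obtain ⟨A', hA', rfl⟩ := hmem1 B' hB'
        exact (hcross A' hA' A hA).symm
      · obtain ⟨A, hA, rfl⟩ := hmem2 B hB
        obtain ⟨A', hA', rfl⟩ := hmem2 B' hB'
        have hAA : A ≠ A' := fun h => hne (by rw [h])
        rw [Finset.disjoint_image hinjl]
        exact hP2.disjoint (Finset.mem_coe.2 hA) (Finset.mem_coe.2 hA') hAA
    · intro x
      constructor
      · intro hx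
        rcases hcover x hx with ⟨y, hy, rfl⟩ | ⟨y, hy, rfl⟩
        · obtain ⟨A, hA, hyA⟩ := (hP1.union y).1 hy
          exact ⟨A.image (fun x => m * x), Finset.mem_union_left _ (Finset.mem_image.2
            ⟨A, hA, rfl⟩), Finset.mem_image.2 ⟨y, hyA, rfl⟩⟩
        · obtain ⟨A, hA, hyA⟩ := (hP2.union y).1 hy
          exact ⟨A.image (fun x => l * x), Finset.mem_union_right _ (Finset.mem_image.2
            ⟨A, hA, rfl⟩), Finset.mem_image.2 ⟨y, hyA, rfl⟩⟩
      · rintro ⟨B, hB, hx⟩
        rcases Finset.mem_union.1 hB with hB | hB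
        · obtain ⟨A, hA, rfl⟩ := hmem1 B hB
          obtain ⟨y, hy, rfl⟩ := Finset.mem_image.1 hx
          exact hside1 y ((hP1.union y).2 ⟨A, hA, hy⟩)
        · obtain ⟨A, hA, rfl⟩ := hmem2 B hB
          obtain ⟨y, hy, rfl⟩ := Finset.mem_image.1 hx
          exact hside2 y ((hP2.union y).2 ⟨A, hA, hy⟩)
    · intro B hB
      rcases Finset.mem_union.1 hB with hB | hB
      · obtain ⟨A, hA, rfl⟩ := hmem1 B hB
        exact scaled_block hP1 hm0 A hA
      · obtain ⟨A, hA, rfl⟩ := hmem2 B hB
        exact scaled_block hP2 hl0 A hA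
  have hQdis : Disjoint Q1 Q2 := by
    rw [Finset.disjoint_left]
    intro B hB hB'
    obtain ⟨A, hA, rfl⟩ := hmem1 B hB
    obtain ⟨A', hA', h3⟩ := hmem2 _ hB'
    have h4 := hcross A hA A' hA'
    rw [h3, disjoint_self] at h4
    obtain ⟨h5, _⟩ := hP1.block A hA
    exact (h5.image (fun x => m * x)).ne_empty h4
  have hsum : ∑ A ∈ Q1 ∪ Q2, (A.card - 1).choose 2 =
      ∑ A ∈ P1, (A.card - 1).choose 2 + ∑ A ∈ P2, (A.card - 1).choose 2 := by
    rw [Finset.sum_union hQdis]
    congr 1
    · rw [hQ1, Finset.sum_image (fun a _ b _ hab => Finset.image_injective hinjm hab)]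
      exact Finset.sum_congr rfl fun A _ => by rw [Finset.card_image_of_injective _ hinjm]
    · rw [hQ2, Finset.sum_image (fun a _ b _ hab => Finset.image_injective hinjl hab)]
      exact Finset.sum_congr rfl fun A _ => by rw [Finset.card_image_of_injective _ hinjl]
  have hemb : embDim S = embDim S₁ + embDim S₂ := by
    have h3 : minGens S = (fun x => m * x) '' minGens S₁ ∪ (fun x => l * x) '' minGens S₂ := by
      ext x
      constructor
      · intro hx
        rcases hcover x hx with h4 | h4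
        · exact Or.inl h4
        · exact Or.inr h4
      · rintro (⟨y, hy, rfl⟩ | ⟨y, hy, rfl⟩)
        · exact hside1 y hy
        · exact hside2 y hy
    unfold embDim
    rw [h3, Set.ncard_union_eq _ ((minGens_finite hN1).image _) ((minGens_finite hN2).image _),
      Set.ncard_image_of_injective _ hinjm, Set.ncard_image_of_injective _ hinjl]
    rw [Set.disjoint_left]
    rintro _ ⟨y, hy, rfl⟩ ⟨z, hz, hzy⟩
    exact hdisj y hy z hzy.symm
  -- the presentation
  set i1 : minGens S₁ → minGens S := fun x => ⟨m * x, hside1 x x.2⟩ with hi1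
  set i2 : minGens S₂ → minGens S := fun x => ⟨l * x, hside2 x x.2⟩ with hi2
  set M1 := Multiset.mapAddMonoidHom i1 with hM1
  set M2 := Multiset.mapAddMonoidHom i2 with hM2
  have hv1 : ∀ z, vh S (M1 z) = m * vh S₁ z := vh_map i1 m (fun _ => rfl)
  have hv2 : ∀ z, vh S (M2 z) = l * vh S₂ z := vh_map i2 l (fun _ => rfl)
  obtain ⟨u, hu⟩ := vh_surj S₁ hl
  obtain ⟨v, hv⟩ := vh_surj S₂ hm
  set ρ : Finset (Multiset (minGens S) × Multiset (minGens S)) :=
    insert (M1 u, M2 v) (ρ1.image (Prod.map M1 M1) ∪ ρ2.image (Prod.map M2 M2)) with hρ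
  have hr1 : ∀ z z', vh S₁ z = vh S₁ z' →
      ReflTransGen (Step (ρ : Set (Multiset (minGens S) × Multiset (minGens S))))
        (M1 z) (M1 z') := by
    intro z z' hz
    refine reach_map M1 ?_ ((hρ1 z z').2 hz)
    intro a b hab
    refine ReflTransGen.single ⟨M1 a, M1 b, 0, ?_, Or.inl ⟨by rw [zero_add], by rw [zero_add]⟩⟩
    rw [Finset.mem_coe, hρ]
    exact Finset.mem_insert_of_mem (Finset.mem_union_left _ (Finset.mem_image.2
      ⟨(a, b), hab, rfl⟩))
  have hr2 : ∀ z z', vh S₂ z = vh S₂ z' →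
      ReflTransGen (Step (ρ : Set (Multiset (minGens S) × Multiset (minGens S))))
        (M2 z) (M2 z') := by
    intro z z' hz
    refine reach_map M2 ?_ ((hρ2 z z').2 hz)
    intro a b hab
    refine ReflTransGen.single ⟨M2 a, M2 b, 0, ?_, Or.inl ⟨by rw [zero_add], by rw [zero_add]⟩⟩
    rw [Finset.mem_coe, hρ]
    exact Finset.mem_insert_of_mem (Finset.mem_union_right _ (Finset.mem_image.2
      ⟨(a, b), hab, rfl⟩))
  have hr3 : ∀ c : ℕ, ReflTransGen
      (Step (ρ : Set (Multiset (minGens S) × Multiset (minGens S)))) (c • M1 u) (c • M2 v) := by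
    intro c
    induction c with
    | zero => rw [zero_smul, zero_smul]
    | succ c ih =>
      rw [succ_nsmul, succ_nsmul]
      have h3 := reach_add ih (M1 u)
      have h4 : ReflTransGen
          (Step (ρ : Set (Multiset (minGens S) × Multiset (minGens S)))) (M1 u) (M2 v) :=
        ReflTransGen.single ⟨M1 u, M2 v, 0, Finset.mem_coe.2 (Finset.mem_insert_self _ _),
          Or.inl ⟨by rw [zero_add], by rw [zero_add]⟩⟩
      have h5 := reach_add h4 (c • M2 v)
      rw [add_comm (M1 u)] at h3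
      rw [add_comm (M1 u)] at h3
      exact h3.trans h5
  have hdec : ∀ z : Multiset (minGens S), ∃ a b, z = M1 a + M2 b := by
    intro z
    induction z using Multiset.induction_on with
    | empty => exact ⟨0, 0, by rw [map_zero, map_zero]; rfl⟩
    | cons x z ih =>
      obtain ⟨a, b, hab⟩ := ih
      rcases hcover x x.2 with ⟨y, hy, hyx⟩ | ⟨y, hy, hyx⟩
      · refine ⟨⟨y, hy⟩ ::ₘ a, b, ?_⟩
        have hx : x = i1 ⟨y, hy⟩ := Subtype.ext hyx.symm
        rw [hab, hx]
        simp [hM1, hM2, Multiset.cons_add]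
      · refine ⟨a, ⟨y, hy⟩ ::ₘ b, ?_⟩
        have hx : x = i2 ⟨y, hy⟩ := Subtype.ext hyx.symm
        rw [hab, hx]
        simp [hM1, hM2, Multiset.add_cons]
  have hgens : Gens (vh S) (ρ : Set (Multiset (minGens S) × Multiset (minGens S))) := by
    intro z z'
    constructor
    · intro h
      have hval : ∀ a b, (a, b) ∈ ρ → vh S a = vh S b := by
        intro a b hab
        rw [hρ, Finset.mem_insert, Finset.mem_union] at hab
        rcases hab with hab | hab | hab
        · obtain ⟨rfl, rfl⟩ := Prod.mk.inj hab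
          rw [hv1, hv2, hu, hv, mul_comm]
        · obtain ⟨r, hr, hre⟩ := Finset.mem_image.1 hab
          obtain ⟨rfl, rfl⟩ := Prod.mk.inj hre
          rw [hv1, hv1, hρ1.eq_of_mem _ (a := r.1) (b := r.2) (Finset.mem_coe.2 hr)]
        · obtain ⟨r, hr, hre⟩ := Finset.mem_image.1 hab
          obtain ⟨rfl, rfl⟩ := Prod.mk.inj hre
          rw [hv2, hv2, hρ2.eq_of_mem _ (a := r.1) (b := r.2) (Finset.mem_coe.2 hr)]
      induction h with
      | refl => rfl
      | tail _ hs ih =>
        rw [ih]
        obtain ⟨a, b, c, hab, hs⟩ := hs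
        have hv := hval a b hab
        rcases hs with ⟨rfl, rfl⟩ | ⟨rfl, rfl⟩
        · rw [map_add, map_add, hv]
        · rw [map_add, map_add, hv]
    · intro h
      obtain ⟨a, b, rfl⟩ := hdec z
      obtain ⟨a', b', rfl⟩ := hdec z'
      rw [map_add, map_add, hv1, hv2, hv1, hv2] at h
      have key : ∀ a b a' b', vh S₁ a' ≤ vh S₁ a →
          m * vh S₁ a + l * vh S₂ b = m * vh S₁ a' + l * vh S₂ b' →
          ReflTransGen (Step (ρ : Set (Multiset (minGens S) × Multiset (minGens S))))
            (M1 a + M2 b) (M1 a' + M2 b') := by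
        intro a b a' b' hle h
        obtain ⟨d, hd⟩ := Nat.exists_eq_add_of_le hle
        have h3 : m * d + l * vh S₂ b = l * vh S₂ b' := by
          rw [hd, mul_add] at h
          omega
        have h4 : vh S₂ b ≤ vh S₂ b' := by
          apply Nat.le_of_mul_le_mul_left _ (Nat.pos_of_ne_zero hl0)
          omega
        obtain ⟨e, he⟩ := Nat.exists_eq_add_of_le h4
        have h5 : m * d = l * e := by
          rw [he, mul_add] at h3
          omega
        obtain ⟨c, hc⟩ : l ∣ d := Nat.Coprime.dvd_of_dvd_mul_left hlm ⟨e, h5⟩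
        have hec : e = m * c := by
          apply Nat.eq_of_mul_eq_mul_left (Nat.pos_of_ne_zero hl0)
          rw [← h5, hc]
          ring
        have s1 := hr1 a (a' + c • u) (by
          rw [map_add, map_nsmul, hu, hd, hc, smul_eq_mul, mul_comm c])
        have s2 := hr2 (b + c • v) b' (by
          rw [map_add, map_nsmul, hv, he, hec, smul_eq_mul, mul_comm c])
        have t1 := reach_add s1 (M2 b)
        have t2 := reach_add (hr3 c) (M2 b + M1 a')
        have t3 := reach_add s2 (M1 a')
        rw [map_add, map_nsmul] at t1 t3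
        have e1 : M1 a + M2 b = M2 b + M1 a := add_comm _ _
        have e2 : M2 b + (M1 a' + c • M1 u) = M2 b + M1 a' + c • M1 u := (add_assoc _ _ _).symm
        have e3 : M2 b + M1 a' + c • M2 v = M1 a' + (M2 b + c • M2 v) := by
          rw [add_comm (M2 b), add_assoc]
        rw [e1]
        rw [e2] at t1
        rw [e3] at t2
        exact t1.trans (t2.trans t3)
      rcases le_total (vh S₁ a') (vh S₁ a) with hle | hle
      · exact key a b a' b' hle h
      · exact reach_symm (key a' b' a b hle h.symm)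
  refine ⟨hNS, Q1 ∪ Q2, hQ, ρ, hgens, ?_⟩
  have c1 : ρ.card ≤ (ρ1.image (Prod.map M1 M1) ∪ ρ2.image (Prod.map M2 M2)).card + 1 :=
    Finset.card_insert_le _ _
  have c2 : (ρ1.image (Prod.map M1 M1) ∪ ρ2.image (Prod.map M2 M2)).card ≤
      (ρ1.image (Prod.map M1 M1)).card + (ρ2.image (Prod.map M2 M2)).card :=
    Finset.card_union_le _ _
  have c3 : (ρ1.image (Prod.map M1 M1)).card ≤ ρ1.card := Finset.card_image_le
  have c4 : (ρ2.image (Prod.map M2 M2)).card ≤ ρ2.card := Finset.card_image_le
  rw [hsum, hemb]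
  omega

theorem good_of_inG {S : AddSubmonoid ℕ} (h : InG S) : Good S := by
  induction h with
  | med hS hm => exact good_med hS hm
  | glue _ _ hg ih1 ih2 => exact good_glue ih1 ih2 hg

end Pool.Agent.Helper46.Glue
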